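import Mathlib.Algebra.BigOperators.Group.Finset.Basic
import Mathlib.Data.Fintype.Pi
import Mathlib.Data.Fintype.Card

set_option autoImplicit false

/-!
# Exact values: definitions

Labels are `Fin r`, an entry is `f : Fin d → Fin r`, the class `(x, l)` consists of the entries
with `f x = l`.
-/

namespace Pool.Agent.BSubE

/-- the hierarchical pattern: the largest label of `f` occurs in its own coordinate (and `f` is
not constant) -/
def Hb {d r : ℕ} (τ : Fin r → Fin d) (f : Fin d → Fin r) : Prop :=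
  ∃ k : Fin r, f (τ k) = k ∧ (∀ x, f x ≤ k) ∧ ∃ x, f x ≠ k

/-- near-diagonal entries: constant off one coordinate -/
def Nd {d r : ℕ} (f : Fin d → Fin r) : Prop := ∃ (x : Fin d) (s : Fin r), ∀ y, y ≠ x → f y = s

open Classical in
/-- the entries of the hierarchical pattern which are not near-diagonal -/
noncomputable def Om {d r : ℕ} (τ : Fin r → Fin d) : Finset (Fin d → Fin r) :=
  Finset.univ.filter fun f => Hb τ f ∧ ¬ Nd f

/-- the part of `Λ` in the box `S` -/
noncomputable def inBox {d r : ℕ} (Λ : Finset (Fin d → Fin r)) (S : Fin d → Finset (Fin r)) :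
    Finset (Fin d → Fin r) := by
  classical exact Λ.filter fun f => ∀ x, f x ∈ S x

/-- `W x f` does not depend on `f x` -/
def LineDep {d r : ℕ} (W : Fin d → (Fin d → Fin r) → ℕ) : Prop :=
  ∀ x f f', (∀ x', x' ≠ x → f x' = f' x') → W x f = W x f'

/-- exponents with a strict minimum and loads at most `m` -/
def Exps {d r : ℕ} (Λ : Finset (Fin d → Fin r)) (m : ℕ) : Prop :=
  ∃ (W : Fin d → (Fin d → Fin r) → ℕ) (lam : Fin d → Fin r → ℕ) (θ : (Fin d → Fin r) → Fin d),
    LineDep W ∧
    (∀ f ∈ Λ, ∀ x, x ≠ θ f → W (θ f) f + lam (θ f) (f (θ f)) < W x f + lam x (f x)) ∧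
    (∀ x l, (Λ.filter fun f => θ f = x ∧ f x = l).card ≤ m)

/-- `f` and `g` differ in at least three coordinates -/
def Far {d r : ℕ} (f g : Fin d → Fin r) : Prop := ∀ x y : Fin d, ∃ z, z ≠ x ∧ z ≠ y ∧ f z ≠ g z

/-- the hub of a class -/
def hub {d r : ℕ} (x₀ x₁ : Fin d) (z : Fin r) (c : Fin d × Fin r) : Fin d × Fin r :=
  if c.1 = x₀ then (x₁, z) else (x₀, z)

end Pool.Agent.BSubE
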