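import Mathlib

set_option autoImplicit false

/-!
# Entries with one fixed value in a box
`Fintype.piFinset` of the family `x ↦ if x = a then {v} else B x`, `Fintype.card_piFinset`.
-/

namespace Pool.Agent.BSubE

open Finset

theorem card_fib {d r : ℕ} (a : Fin d) (v : Fin r) (B : Fin d → Finset (Fin r)) :
    (univ.filter fun f : Fin d → Fin r => f a = v ∧ ∀ x, x ≠ a → f x ∈ B x).card =
      ∏ x ∈ univ.erase a, (B x).card := by
  have h : (univ.filter fun f : Fin d → Fin r => f a = v ∧ ∀ x, x ≠ a → f x ∈ B x) =
      Fintype.piFinset (fun x => if x = a then {v} else B x) := by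
    ext f
    simp only [mem_filter, mem_univ, true_and, Fintype.mem_piFinset]
    constructor
    · rintro ⟨h1, h2⟩ x
      split_ifs with hx
      · rw [hx, h1]
        exact mem_singleton_self v
      · exact h2 x hx
    · intro h1
      refine ⟨?_, fun x hx => ?_⟩
      · have := h1 a
        rw [if_pos rfl, mem_singleton] at this
        exact this
      · have := h1 x
        rw [if_neg hx] at this
        exact this
  rw [h, Fintype.card_piFinset, ← mul_prod_erase univ _ (mem_univ a), if_pos rfl, card_singleton,
    one_mul]
  exact prod_congr rfl fun x hx => by rw [if_neg (ne_of_mem_erase hx)]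

end Pool.Agent.BSubE
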