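import Mathlib
import Pool.Agent.Lib.MP_79bff1_ag_E.Defs
import Pool.Agent.Lib.MP_79bff1_ag_E.Fib

set_option autoImplicit false

/-!
# Levels in a box: the arithmetic-geometric mean bound
`inBox (Om τ) S` is covered by the levels `k : Fin r`:
`{f : f (τ k) = k, f x ≤ k and f x ∈ S x for x ≠ τ k}`, which have
`∏_{x ≠ τ k} |S x ∩ [0,k]|` elements (`card_fib`). This is at most `(k + 1) ^ (d - 1)` and at most
`∏_{x ≠ τ k} |S x| ≤ ((∑ x, |S x|) / (d - 1)) ^ (d - 1)` (arithmetic-geometric mean,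
`Real.inner_le_nnorm_mul_nnorm` is not needed: use `Real.geom_mean_le_arith_mean_weighted` or
`inner_le...`; `Finset.prod_le_pow...`: the version
`(∏ i ∈ s, z i) ≤ ((∑ i ∈ s, z i) / s.card) ^ s.card`).
-/

namespace Pool.Agent.BSubE

open Finset

/-- arithmetic-geometric mean -/
theorem amg_prod {ι : Type*} (s : Finset ι) (hs : s.Nonempty) (z : ι → ℝ) (hz : ∀ i, 0 ≤ z i) :
    ∏ i ∈ s, z i ≤ ((∑ i ∈ s, z i) / s.card) ^ s.card := by
  have hn : s.card ≠ 0 := Finset.card_ne_zero.2 hs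
  have hP : 0 ≤ ∏ i ∈ s, z i := Finset.prod_nonneg fun i _ => hz i
  have h1 := Real.geom_mean_le_arith_mean s (fun _ => (1 : ℝ)) z (fun _ _ => zero_le_one)
    (by
      rw [Finset.sum_const, nsmul_eq_mul, mul_one]
      exact_mod_cast Nat.pos_of_ne_zero hn) (fun i _ => hz i)
  simp only [Real.rpow_one, one_mul, Finset.sum_const, nsmul_eq_mul, mul_one] at h1
  calc ∏ i ∈ s, z i = ((∏ i ∈ s, z i) ^ ((s.card : ℝ)⁻¹)) ^ s.card :=
        (Real.rpow_inv_natCast_pow hP hn).symm
    _ ≤ ((∑ i ∈ s, z i) / s.card) ^ s.card :=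
        pow_le_pow_left₀ (Real.rpow_nonneg hP _) h1 _

/-- one level -/
theorem amg_level {d r : ℕ} (hd : 2 ≤ d) (a : Fin d) (k : Fin r) (S : Fin d → Finset (Fin r)) :
    ((univ.filter fun f : Fin d → Fin r => f a = k ∧ ∀ x, x ≠ a →
      f x ∈ (S x).filter fun v => v ≤ k).card : ℝ) ≤
      min (((k : ℕ) + 1 : ℝ) ^ (d - 1)) (((∑ x, ((S x).card : ℝ)) / ((d : ℝ) - 1)) ^ (d - 1)) := by
  rw [card_fib a k fun x => (S x).filter fun v => v ≤ k]
  have hc : (univ.erase a : Finset (Fin d)).card = d - 1 := by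
    rw [Finset.card_erase_of_mem (Finset.mem_univ a), Finset.card_univ, Fintype.card_fin]
  have hcr : (((d - 1 : ℕ)) : ℝ) = (d : ℝ) - 1 := by
    rw [Nat.cast_sub (by omega), Nat.cast_one]
  push_cast
  refine le_min ?_ ?_
  · rw [← hc, ← Finset.prod_const]
    refine Finset.prod_le_prod (fun _ _ => Nat.cast_nonneg _) fun x _ => ?_
    have h1 : ((S x).filter fun v => v ≤ k) ⊆ Finset.Iic k := by
      intro v hv
      rw [Finset.mem_filter] at hv
      exact Finset.mem_Iic.2 hv.2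
    have h2 := Finset.card_le_card h1
    rw [Fin.card_Iic] at h2
    exact_mod_cast h2
  · have hne : (univ.erase a : Finset (Fin d)).Nonempty := by
      rw [← Finset.card_pos, hc]
      omega
    calc ∏ x ∈ univ.erase a, (((S x).filter fun v => v ≤ k).card : ℝ)
        ≤ ∏ x ∈ univ.erase a, ((S x).card : ℝ) :=
          Finset.prod_le_prod (fun _ _ => Nat.cast_nonneg _) fun x _ => by
            exact_mod_cast Finset.card_le_card (Finset.filter_subset _ _)
      _ ≤ ((∑ x ∈ univ.erase a, ((S x).card : ℝ)) / (univ.erase a : Finset (Fin d)).card) ^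
            (univ.erase a : Finset (Fin d)).card :=
          amg_prod _ hne _ fun _ => Nat.cast_nonneg _
      _ ≤ ((∑ x, ((S x).card : ℝ)) / ((d : ℝ) - 1)) ^ (d - 1) := by
          rw [hc, hcr]
          have hd1 : (0 : ℝ) < (d : ℝ) - 1 := by
            have : (2 : ℝ) ≤ d := by exact_mod_cast hd
            linarith
          have h0 : (0 : ℝ) ≤ ∑ x ∈ univ.erase a, ((S x).card : ℝ) :=
            Finset.sum_nonneg fun _ _ => Nat.cast_nonneg _
          have h3 : ∑ x ∈ univ.erase a, ((S x).card : ℝ) ≤ ∑ x, ((S x).card : ℝ) :=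
            Finset.sum_le_sum_of_subset_of_nonneg (Finset.erase_subset _ _)
              fun _ _ _ => Nat.cast_nonneg _
          exact pow_le_pow_left₀ (div_nonneg h0 hd1.le)
            (div_le_div_of_nonneg_right h3 hd1.le) _

theorem box_le_min {d r : ℕ} (hd : 2 ≤ d) (τ : Fin r → Fin d) (S : Fin d → Finset (Fin r)) :
    ((inBox (Om τ) S).card : ℝ) ≤ ∑ k ∈ range r,
      min (((k : ℝ) + 1) ^ (d - 1)) (((∑ x, ((S x).card : ℝ)) / ((d : ℝ) - 1)) ^ (d - 1)) := by
  classical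
  have h1 : inBox (Om τ) S ⊆ univ.biUnion fun k : Fin r =>
      univ.filter fun f : Fin d → Fin r => f (τ k) = k ∧ ∀ x, x ≠ τ k →
        f x ∈ (S x).filter fun v => v ≤ k := by
    intro f hf
    unfold inBox Om at hf
    simp only [Finset.mem_filter, Finset.mem_univ, true_and] at hf
    obtain ⟨⟨⟨k, hk, hle, -⟩, -⟩, hS⟩ := hf
    refine Finset.mem_biUnion.2 ⟨k, Finset.mem_univ k, Finset.mem_filter.2
      ⟨Finset.mem_univ f, hk, fun x _ => Finset.mem_filter.2 ⟨hS x, hle x⟩⟩⟩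
  have h2 := (Finset.card_le_card h1).trans Finset.card_biUnion_le
  rw [Finset.sum_range]
  calc ((inBox (Om τ) S).card : ℝ) ≤ ∑ k : Fin r,
        ((univ.filter fun f : Fin d → Fin r => f (τ k) = k ∧ ∀ x, x ≠ τ k →
        f x ∈ (S x).filter fun v => v ≤ k).card : ℝ) := by exact_mod_cast h2
    _ ≤ _ := Finset.sum_le_sum fun k _ => amg_level hd (τ k) k S

end Pool.Agent.BSubE
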