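import Mathlib
import Pool.Agent.Lib.MP_79bff1_ag.WDefs
import Pool.Agent.Lib.MP_79bff1_ag_E.Defs

set_option autoImplicit false

/-!
# Weights of the hierarchical pattern
Take `B = d ^ 2` (as a real number) and `w x l = -(d - 1) * B ^ l` if `x = τ l`, and `B ^ l`
otherwise. Each label has weight sum `-(d-1) B^l + (d-1) B^l = 0`.
Let `f` be nonconstant, `k` its largest value (so `k ≥ 1`), and suppose `Hb τ f` fails, i.e.
`f (τ k) ≠ k`. The coordinates with `f x = k` (at least one) contribute `B ^ k` each, because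
`x ≠ τ k` for them; every other coordinate (at most `d - 1`) has `f x ≤ k - 1` and contributes at
least `-(d - 1) * B ^ (k - 1)`. The sum is at least `B ^ k - (d - 1) ^ 2 B ^ (k - 1) > 0`.
-/

namespace Pool.Agent.BSubE

open Finset Pool.Agent.BSub

theorem exists_weights {d r : ℕ} (hd : 2 ≤ d) (τ : Fin r → Fin d) :
    ∃ w : Fin d → Fin r → ℝ, ZeroSum w ∧
      ∀ f : Fin d → Fin r, (¬ ∀ x y, f x = f y) → ∑ x, w x (f x) ≤ 0 → Hb τ f := by
  classical
  have hdR : (2:ℝ) ≤ d := by exact_mod_cast hd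
  have hB : (1:ℝ) ≤ (d:ℝ) ^ 2 := by nlinarith
  refine ⟨fun x l => ((d:ℝ) ^ 2) ^ (l:ℕ) - if x = τ l then (d:ℝ) * ((d:ℝ) ^ 2) ^ (l:ℕ) else 0,
    ?_, ?_⟩
  · intro l
    rw [Finset.sum_sub_distrib, Finset.sum_ite_eq' univ (τ l)]
    simp
  · intro f hf hs
    by_contra hH
    have : Nonempty (Fin d) := ⟨⟨0, by omega⟩⟩
    obtain ⟨x₀, -, hx₀⟩ := Finset.exists_max_image (univ : Finset (Fin d)) f ⟨Classical.arbitrary _,
      mem_univ _⟩
    have hmax : ∀ x, f x ≤ f x₀ := fun x => hx₀ x (mem_univ _)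
    obtain ⟨x₁, hx₁⟩ : ∃ x, f x ≠ f x₀ := by
      by_contra hc
      push Not at hc
      exact hf fun x y => (hc x).trans (hc y).symm
    have hτ : f (τ (f x₀)) ≠ f x₀ := fun h => hH ⟨f x₀, h, hmax, x₁, hx₁⟩
    obtain ⟨k, hk⟩ : ∃ k : ℕ, ((f x₀ : Fin r) : ℕ) = k + 1 := by
      have h1 : ((f x₁ : Fin r) : ℕ) < f x₀ := lt_of_le_of_ne (hmax x₁) fun h => hx₁ (Fin.ext h)
      exact ⟨(f x₀ : ℕ) - 1, by omega⟩
    have hBk : (0:ℝ) < ((d:ℝ) ^ 2) ^ k := by positivity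
    have h0 : x₀ ≠ τ (f x₀) := fun h => hτ (by rw [← h])
    have hlow : ∀ x ∈ univ.erase x₀, -((d:ℝ) - 1) * ((d:ℝ) ^ 2) ^ k ≤
        ((d:ℝ) ^ 2) ^ ((f x : Fin r) : ℕ) -
          if x = τ (f x) then (d:ℝ) * ((d:ℝ) ^ 2) ^ ((f x : Fin r) : ℕ) else 0 := by
      intro x _
      have hpos : (0:ℝ) < ((d:ℝ) ^ 2) ^ ((f x : Fin r) : ℕ) := by positivity
      by_cases hx : f x = f x₀
      · have h2 : x ≠ τ (f x) := by
          intro h
          rw [hx] at h
          exact hτ (by rw [← h, hx])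
        rw [if_neg h2]
        nlinarith
      · have h1 : ((f x : Fin r) : ℕ) ≤ k := by
          have h3 : ((f x : Fin r) : ℕ) < f x₀ := lt_of_le_of_ne (hmax x) fun h => hx (Fin.ext h)
          omega
        have h4 : ((d:ℝ) ^ 2) ^ ((f x : Fin r) : ℕ) ≤ ((d:ℝ) ^ 2) ^ k := pow_le_pow_right₀ hB h1
        split_ifs
        · nlinarith
        · nlinarith
    have hsum := Finset.card_nsmul_le_sum (univ.erase x₀) _ _ hlow
    rw [Finset.card_erase_of_mem (mem_univ _), Finset.card_univ, Fintype.card_fin,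
      nsmul_eq_mul, Nat.cast_sub (by omega), Nat.cast_one] at hsum
    have htot := Finset.add_sum_erase univ (fun x => ((d:ℝ) ^ 2) ^ ((f x : Fin r) : ℕ) -
          if x = τ (f x) then (d:ℝ) * ((d:ℝ) ^ 2) ^ ((f x : Fin r) : ℕ) else 0) (mem_univ x₀)
    simp only [if_neg h0, sub_zero] at htot
    rw [hk, pow_succ] at htot
    simp only at hs
    nlinarith

end Pool.Agent.BSubE
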