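import Mathlib
import Pool.Agent.Lib.MP_79bff1_ag.WDefs
import Pool.Agent.Lib.MP_79bff1_ag_E.Defs
import Pool.Agent.Lib.MP_79bff1_ag.WLower
import Pool.Agent.Lib.MP_79bff1_ag_E.Tan
import Pool.Agent.Lib.MP_79bff1_ag_E.HW

set_option autoImplicit false

/-!
# From exponents to the degeneration
Let `e : Fin r → Fin n` be the inclusion (`Fin.castLE hr`) and `Λ' = e (Om τ)`, `Λ = e (Hb τ)`
(images of entries under composition with `e`, see `wlEmb`).
Transport the exponents: for `f : Fin d → Fin n` let `π f : Fin d → Fin r` be `f x` if `f x < r`,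
`0` otherwise; `w x f = W x (π f)`, `lam' x l = lam x (π l)`, `θ' f = θ (π f)`; the landed theorem
`exists_tensor_of_exponents` (module Vander, loads `≤ n - r`) gives `S₀`, zero on entries with all
labels `< r`, such that `y` supported on `Λ'` with
`∑ f ∈ Λ'.filter (f x = l), y f * S₀ (update f x j) = 0` for all `x`, `l < r ≤ j` vanishes.
Put `S₀' g = S₀ g + (if all g x are equal and < r then 1 else 0)`.
* `S₀' = 0` on `Λ` (entries of `Λ` have labels `< r` and are not constant).
* Let `y` be supported on `Λ` with `∑ f ∈ Λ.filter (f x = l), y f * S₀' (update f x j) = 0` for all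
  `x`, `l < r` and all `j`. If `f ∈ Λ` is near-diagonal, `f = j` off `x`, `f x = l ≠ j` (`l = j` is
  impossible as `f` is not constant), then in the equation `(x, l, j)` the only term with
  `S₀' (update g x j) ≠ 0` is `g = f`: `update g x j` has all labels `< r`, so `S₀` vanishes
  there, hence it must be constant, equal to `j`, so `g = j` off `x`, `g x = l`. So `y f = 0`.
  Hence `y` is supported on `Λ'` and for `j ≥ r` the equations are those of `S₀` (an entry
  `update f x j` with `j ≥ r`: the diagonal part vanishes because one label is `≥ r`), so `y = 0`.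
* `generic_zeros_all` gives for generic `T`: `T = restrict (1 + X) S`, `det (1 + X x) ≠ 0`,
  `S = 0` on `Λ`, `S (l, ..., l) ≠ 0` for `l < r`.
* `degenerates_of_rows` (module WDegen) with `U x = ((1 + X x)⁻¹).submatrix (Fin.castLE hr) id` and
  the weights of `exists_weights`: `contract (fun x => U x (f x)) T = S (e ∘ f)` exactly as in
  `wl_rows` (`restrict_mul`, `(1 + X x)⁻¹ * (1 + X x) = 1`, `wl_contract_single`).
-/

namespace Pool.Agent.BSubE

open Finset Pool.Agent.BSub

/-- the label in `Fin r` -/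
def alg_pl {n r : ℕ} (h0 : 0 < r) (l : Fin n) : Fin r := if h : l.val < r then ⟨l, h⟩ else ⟨0, h0⟩

theorem alg_pl_cast {n r : ℕ} (hr : r ≤ n) (h0 : 0 < r) (l : Fin r) :
    alg_pl h0 (Fin.castLE hr l) = l := by
  unfold alg_pl
  rw [dif_pos (show (Fin.castLE hr l).val < r from l.isLt)]
  rfl

/-- the rows of the inverse -/
theorem alg_rows {d n r : ℕ} (hr : r ≤ n) (X : Fin d → Matrix (Fin n) (Fin n) ℂ) (S : Tensor d n)
    (hX : ∀ x, (1 + X x).det ≠ 0) (f : Fin d → Fin r) :
    contract (fun x => ((1 + X x)⁻¹.submatrix (Fin.castLE hr) id : Matrix (Fin r) (Fin n) ℂ)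
      (f x)) (restrict (fun x => 1 + X x) S) = S fun x => Fin.castLE hr (f x) := by
  have hinv : ∀ x, (1 + X x)⁻¹ * (1 + X x) = 1 := fun x =>
    Matrix.nonsing_inv_mul _ (isUnit_iff_ne_zero.2 (hX x))
  have h1 : contract (fun x => ((1 + X x)⁻¹.submatrix (Fin.castLE hr) id :
      Matrix (Fin r) (Fin n) ℂ) (f x)) (restrict (fun x => 1 + X x) S) =
      restrict (fun x => ((1 + X x)⁻¹.submatrix (Fin.castLE hr) id : Matrix (Fin r) (Fin n) ℂ))
        (restrict (fun x => 1 + X x) S) f := rfl
  rw [h1, ← restrict_mul]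
  have h2 : restrict (fun x => ((1 + X x)⁻¹.submatrix (Fin.castLE hr) id :
      Matrix (Fin r) (Fin n) ℂ) * (1 + X x)) S f =
      contract (fun x j => if Fin.castLE hr (f x) = j then 1 else 0) S := by
    unfold BSub.restrict
    congr 1
    funext x j
    have h3 : (((1 + X x)⁻¹.submatrix (Fin.castLE hr) id : Matrix (Fin r) (Fin n) ℂ) *
        (1 + X x) : Matrix (Fin r) (Fin n) ℂ) (f x) j =
        ((1 + X x)⁻¹ * (1 + X x) : Matrix (Fin n) (Fin n) ℂ) (Fin.castLE hr (f x)) j := by
      rw [Matrix.mul_apply, Matrix.mul_apply]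
      rfl
    exact h3.trans (by rw [hinv, Matrix.one_apply])
  rw [h2, wl_contract_single]

/-- an entry of the pattern is not constant -/
theorem alg_not_const {d r : ℕ} {τ : Fin r → Fin d} {g : Fin d → Fin r} (hg : Hb τ g)
    (h : ∀ x y, g x = g y) : False := by
  obtain ⟨k, h1, -, x, hx⟩ := hg
  exact hx ((h x (τ k)).trans h1)

open Classical in
/-- the tensor with the diagonal part -/
noncomputable def alg_S {d n : ℕ} (r : ℕ) (S₀ : Tensor d n) : Tensor d n := fun g =>
  S₀ g + if (∀ x, (g x).val < r) ∧ ∀ x y, g x = g y then 1 else 0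

open Classical in
/-- the pattern with labels in `Fin n` -/
noncomputable def alg_L {d n r : ℕ} (hr : r ≤ n) (τ : Fin r → Fin d) : Finset (Fin d → Fin n) :=
  (Finset.univ.filter fun f => Hb τ f).map (wlEmb hr)

theorem alg_mem {d n r : ℕ} (hr : r ≤ n) (τ : Fin r → Fin d) (f : Fin d → Fin n) :
    f ∈ alg_L hr τ ↔ ∃ g, Hb τ g ∧ (fun x => Fin.castLE hr (g x)) = f := by
  classical
  unfold alg_L
  rw [Finset.mem_map]
  constructor
  · rintro ⟨g, hg, h⟩
    exact ⟨g, (Finset.mem_filter.1 hg).2, h⟩
  · rintro ⟨g, hg, h⟩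
    exact ⟨g, Finset.mem_filter.2 ⟨Finset.mem_univ _, hg⟩, h⟩

theorem alg_memOm {d n r : ℕ} (hr : r ≤ n) (τ : Fin r → Fin d) (f : Fin d → Fin n) :
    f ∈ (Om τ).map (wlEmb hr) ↔
      ∃ g, (Hb τ g ∧ ¬ Nd g) ∧ (fun x => Fin.castLE hr (g x)) = f := by
  classical
  rw [Finset.mem_map]
  constructor
  · rintro ⟨g, hg, h⟩
    exact ⟨g, (Finset.mem_filter.1 hg).2, h⟩
  · rintro ⟨g, hg, h⟩
    exact ⟨g, Finset.mem_filter.2 ⟨Finset.mem_univ _, hg⟩, h⟩

/-- the tangent criterion for the whole pattern -/
theorem alg_tan {d n r : ℕ} (hr : r ≤ n) (τ : Fin r → Fin d) (S₀ : Tensor d n)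
    (hS0 : ∀ f, (∀ x, (f x).val < r) → S₀ f = 0)
    (hS1 : ∀ y : Tensor d n, (∀ f ∉ (Om τ).map (wlEmb hr), y f = 0) →
      (∀ (x : Fin d) (l j : Fin n), l.val < r → r ≤ j.val →
        ∑ f ∈ ((Om τ).map (wlEmb hr)).filter (fun f => f x = l),
          y f * S₀ (Function.update f x j) = 0) → y = 0)
    (y : Tensor d n) (hy : ∀ f ∉ alg_L hr τ, y f = 0)
    (he : ∀ (x : Fin d) (l j : Fin n), l.val < r →
      ∑ f ∈ (alg_L hr τ).filter (fun f => f x = l),
        y f * alg_S r S₀ (Function.update f x j) = 0) : y = 0 := by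
  classical
  have step1 : ∀ g, Hb τ g → Nd g → y (fun x => Fin.castLE hr (g x)) = 0 := by
    rintro g hg ⟨x, s, hs⟩
    have hgx : g x ≠ s := by
      intro h
      have hc : ∀ z, g z = s := fun z => by
        by_cases hz : z = x
        · rw [hz]
          exact h
        · exact hs z hz
      exact alg_not_const hg fun a b => (hc a).trans (hc b).symm
    have h1 := he x (Fin.castLE hr (g x)) (Fin.castLE hr s) (g x).isLt
    rw [Finset.sum_eq_single (fun x => Fin.castLE hr (g x))] at h1
    · have h2 : alg_S r S₀ (Function.update (fun x => Fin.castLE hr (g x)) x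
          (Fin.castLE hr s)) = 1 := by
        have h3 : Function.update (fun x => Fin.castLE hr (g x)) x (Fin.castLE hr s) =
            fun _ => Fin.castLE hr s := by
          funext z
          by_cases hz : z = x
          · rw [hz, Function.update_self]
          · rw [Function.update_of_ne hz, hs z hz]
        rw [h3]
        unfold alg_S
        rw [if_pos ⟨fun _ => s.isLt, fun _ _ => rfl⟩, hS0 _ fun _ => s.isLt, zero_add]
      rw [h2, mul_one] at h1
      exact h1
    · intro h hh hne
      obtain ⟨hh1, hh2⟩ := Finset.mem_filter.1 hh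
      obtain ⟨g', hg', rfl⟩ := (alg_mem hr τ h).1 hh1
      have h3 : Function.update (fun x => Fin.castLE hr (g' x)) x (Fin.castLE hr s) =
          fun z => Fin.castLE hr (Function.update g' x s z) := by
        funext z
        by_cases hz : z = x
        · subst hz
          rw [Function.update_self, Function.update_self]
        · rw [Function.update_of_ne hz, Function.update_of_ne hz]
      have h4 : alg_S r S₀ (Function.update (fun x => Fin.castLE hr (g' x)) x
          (Fin.castLE hr s)) = 0 := by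
        rw [h3]
        unfold alg_S
        rw [hS0 _ fun z => (Function.update g' x s z).isLt, zero_add, if_neg]
        rintro ⟨-, hc⟩
        apply hne
        funext z
        by_cases hz : z = x
        · rw [hz]
          exact hh2
        · have h5 := Fin.castLE_injective hr (hc z x)
          rw [Function.update_self, Function.update_of_ne hz] at h5
          rw [h5, hs z hz]
      rw [h4, mul_zero]
    · intro hn
      exact (hn (Finset.mem_filter.2 ⟨(alg_mem hr τ _).2 ⟨g, hg, rfl⟩, rfl⟩)).elim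
  have step2 : ∀ f ∉ (Om τ).map (wlEmb hr), y f = 0 := by
    intro f hf
    by_cases hfL : f ∈ alg_L hr τ
    · obtain ⟨g, hg, rfl⟩ := (alg_mem hr τ f).1 hfL
      refine step1 g hg ?_
      by_contra hnd
      exact hf ((alg_memOm hr τ _).2 ⟨g, ⟨hg, hnd⟩, rfl⟩)
    · exact hy f hfL
  refine hS1 y step2 ?_
  intro x l j hl hj
  have h1 := he x l j hl
  rw [← h1]
  have h2 : ∀ f : Fin d → Fin n, alg_S r S₀ (Function.update f x j) =
      S₀ (Function.update f x j) := by
    intro f
    unfold alg_S
    rw [if_neg, add_zero]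
    rintro ⟨h, -⟩
    have h3 := h x
    rw [Function.update_self] at h3
    omega
  simp only [h2]
  refine Finset.sum_subset ?_ ?_
  · intro f hf
    obtain ⟨hf1, hf2⟩ := Finset.mem_filter.1 hf
    obtain ⟨g, hg, rfl⟩ := (alg_memOm hr τ f).1 hf1
    exact Finset.mem_filter.2 ⟨(alg_mem hr τ _).2 ⟨g, hg.1, rfl⟩, hf2⟩
  · intro f hf hf'
    rw [step2 f, zero_mul]
    intro h3
    exact hf' (Finset.mem_filter.2 ⟨h3, (Finset.mem_filter.1 hf).2⟩)

theorem generic_of_exps {d n r : ℕ} (hd : 3 ≤ d) (hr : r ≤ n) (τ : Fin r → Fin d)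
    (H : Exps (Om τ) (n - r)) :
    Generic fun T : Tensor d n => Degenerates T (unitTensor d r) := by
  classical
  rcases Nat.eq_zero_or_pos r with h0 | h0
  · subst h0
    exact ⟨1, one_ne_zero, fun T _ => degenerates_zero (by omega) T⟩
  obtain ⟨W, lam, θ, hW, hθ, hload⟩ := H
  have hp : ∀ g : Fin d → Fin r, (fun x => alg_pl h0 (Fin.castLE hr (g x))) = g := fun g =>
    funext fun x => alg_pl_cast hr h0 (g x)
  obtain ⟨S₀, hS0, hS1⟩ := exists_tensor_of_exponents (d := d) (n := n) (r := r) hr
    ((Om τ).map (wlEmb hr))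
    (by
      intro f hf x
      obtain ⟨g, -, rfl⟩ := (alg_memOm hr τ f).1 hf
      exact (g x).isLt)
    (fun x f => W x fun x => alg_pl h0 (f x))
    (by
      intro x f f' h
      exact hW x _ _ fun x' hx' => by rw [h x' hx'])
    (fun x l => lam x (alg_pl h0 l)) (fun f => θ fun x => alg_pl h0 (f x))
    (by
      intro f hf x hx
      obtain ⟨g, hg, rfl⟩ := Finset.mem_map.1 hf
      have e1 : (fun x => alg_pl h0 ((wlEmb hr g : Fin d → Fin n) x)) = g := hp g
      have e2 : ∀ x, alg_pl h0 ((wlEmb hr g : Fin d → Fin n) x) = g x := fun x =>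
        congrFun e1 x
      simp only [e2] at hx ⊢
      exact hθ g hg x hx)
    (by
      intro x l
      refine le_trans ?_ (hload x (alg_pl h0 l))
      rw [← Finset.card_map (wlEmb hr) (s := (Om τ).filter fun f => θ f = x ∧
        f x = alg_pl h0 l)]
      refine Finset.card_le_card ?_
      intro f hf
      obtain ⟨hf1, hf2, hf3⟩ := Finset.mem_filter.1 hf
      obtain ⟨g, hg, rfl⟩ := Finset.mem_map.1 hf1
      have e1 : (fun x => alg_pl h0 ((wlEmb hr g : Fin d → Fin n) x)) = g := hp g
      refine Finset.mem_map.2 ⟨g, Finset.mem_filter.2 ⟨hg, ?_, ?_⟩, rfl⟩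
      · rw [← hf2, e1]
      · rw [← hf3]
        exact (congrFun e1 x).symm)
  refine (generic_zeros_all r (alg_L hr τ) (alg_S r S₀) ?_ ?_
    (fun y hy he => alg_tan hr τ S₀ hS0 hS1 y hy he)).mono ?_
  · intro f hf
    obtain ⟨g, hg, rfl⟩ := (alg_mem hr τ f).1 hf
    unfold alg_S
    rw [hS0 _ fun x => (g x).isLt, zero_add, if_neg]
    rintro ⟨-, hc⟩
    exact alg_not_const hg fun a b => Fin.castLE_injective hr (hc a b)
  · intro l _ hl
    obtain ⟨g, hg, h⟩ := (alg_mem hr τ _).1 hl
    exact alg_not_const hg fun a b => Fin.castLE_injective hr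
      ((congrFun h a).trans (congrFun h b).symm)
  · rintro T ⟨X, S, hdet, hS, hS', rfl⟩
    obtain ⟨w, hw, hwH⟩ := exists_weights (by omega : 2 ≤ d) τ
    refine degenerates_of_rows (by omega) _
      (fun x => (1 + X x)⁻¹.submatrix (Fin.castLE hr) id) w hw ?_ ?_
    · intro f hf hsum
      rw [alg_rows hr X S hdet f]
      exact hS _ ((alg_mem hr τ _).2 ⟨f, hwH f hf hsum, rfl⟩)
    · intro i
      have h := alg_rows hr X S hdet fun _ => i
      rw [h]
      exact hS' _ i.isLt

end Pool.Agent.BSubE
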