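import Mathlib

set_option autoImplicit false

/-!
# Balancing through two hubs
Let `N = Fintype.card ι`. Put `z c = min (e c) (N * t)` for `c ≠ h0, h1`, `z h1 = 0`,
`A = - e h1 - ∑ {c : hub c = h1, c ≠ h0} z c`, `B = e h0 + ∑ {c : hub c = h0, c ≠ h1} z c` and
`z h0 = max A (-(N + 1) t)`.
The conditions read `z h0 ≤ B` (note `hub h0 = h1 ≠ h0`, `hub h1 = h0`, `z h1 = 0`) and
`A ≤ z h0`. `A ≤ B`: this says `e h0 + e h1 + ∑_{c ≠ h0, h1} min (e c) (N t) ≥ 0`; if all
`e c ≤ N t` it is `∑ e ≥ 0`; if some `e c > N t` that term is `N t` and all the others are `≥ -t`.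
`B ≥ -(N+1) t` since all terms are `≥ -t`. `|z h0| ≤ (N+1) t` since `A ≤ t + (N - 1) t`.
-/

namespace Pool.Agent.BSubE

open Finset

theorem bal {ι : Type*} [Fintype ι] [DecidableEq ι] (h0 h1 : ι) (h01 : h0 ≠ h1) (hb : ι → ι)
    (hh : ∀ c, hb c = h0 ∨ hb c = h1) (hh0 : hb h0 = h1) (hh1 : hb h1 = h0) (t : ℕ)
    (e : ι → ℤ) (he : ∀ c, -(t : ℤ) ≤ e c) (hs : 0 ≤ ∑ c, e c) :
    ∃ z : ι → ℤ, (∀ c, |z c| ≤ (((Fintype.card ι + 1) * t : ℕ) : ℤ)) ∧
      (∀ c, c ≠ h0 → c ≠ h1 → z c ≤ e c) ∧
      (z h0 - ∑ c ∈ univ.filter (fun c => hb c = h0), z c ≤ e h0) ∧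
      (z h1 - ∑ c ∈ univ.filter (fun c => hb c = h1), z c ≤ e h1) := by
  have ht : (0 : ℤ) ≤ t := Int.natCast_nonneg t
  -- the other members
  set R : Finset ι := (univ.erase h0).erase h1 with hR
  have hRm : ∀ c, c ∈ R ↔ c ≠ h1 ∧ c ≠ h0 := by
    intro c
    rw [hR, mem_erase, mem_erase]
    simp
  have hRc : (R.card : ℤ) + 2 = Fintype.card ι := by
    have h2 := card_erase_add_one (mem_univ h0)
    have h3 : h1 ∈ (univ : Finset ι).erase h0 := mem_erase.2 ⟨h01.symm, mem_univ _⟩
    have h4 := card_erase_add_one h3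
    rw [← hR] at h4
    rw [card_univ] at h2
    omega
  set N : ℤ := (Fintype.card ι : ℤ) with hN
  have hN0 : 0 ≤ N := Int.natCast_nonneg _
  have hNt : 0 ≤ N * t := mul_nonneg hN0 ht
  set w : ι → ℤ := fun c => min (e c) (N * t) with hw
  have hw1 : ∀ c, -(t : ℤ) ≤ w c := fun c => le_min (he c) (by linarith)
  have hw2 : ∀ c, w c ≤ N * t := fun c => min_le_right _ _
  have hw3 : ∀ c, w c ≤ e c := fun c => min_le_left _ _
  have hsub : ∀ T : Finset ι, T ⊆ R → -(N * t) ≤ ∑ c ∈ T, w c := by
    intro T hT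
    have h2 := card_nsmul_le_sum T w (-(t : ℤ)) fun c _ => hw1 c
    have h3 : (T.card : ℤ) ≤ N := by
      have h4 : (T.card : ℤ) ≤ R.card := by exact_mod_cast card_le_card hT
      linarith
    rw [nsmul_eq_mul] at h2
    have h5 := mul_le_mul_of_nonneg_right h3 ht
    linarith
  have hAll : 0 ≤ e h0 + e h1 + ∑ c ∈ R, w c := by
    by_cases hc : ∃ c ∈ R, N * t < e c
    · obtain ⟨c, hcR, hc⟩ := hc
      have h2 := card_nsmul_le_sum (R.erase c) w (-(t : ℤ)) fun c _ => hw1 c
      have h3 : (((R.erase c).card : ℕ) : ℤ) + 1 = R.card := by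
        exact_mod_cast card_erase_add_one hcR
      have h4 : w c = N * t := min_eq_right hc.le
      rw [← add_sum_erase R w hcR, h4]
      rw [nsmul_eq_mul] at h2
      have h5 : (((R.erase c).card : ℕ) : ℤ) = N - 3 := by linarith
      rw [h5] at h2
      have h6 := he h0
      have h7 := he h1
      linarith
    · push Not at hc
      have h2 : ∑ c ∈ R, w c = ∑ c ∈ R, e c :=
        sum_congr rfl fun c hcR => min_eq_left (hc c hcR)
      have h3 : h1 ∈ (univ : Finset ι).erase h0 := mem_erase.2 ⟨h01.symm, mem_univ _⟩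
      have h4 := add_sum_erase univ e (mem_univ h0)
      have h5 := add_sum_erase _ e h3
      rw [← hR] at h5
      rw [h2]
      linarith
  have hsplit : ∑ c ∈ R.filter (fun c => hb c = h0), w c +
      ∑ c ∈ R.filter (fun c => hb c = h1), w c = ∑ c ∈ R, w c := by
    rw [← sum_filter_add_sum_filter_not R (fun c => hb c = h0) w]
    congr 1
    apply sum_congr _ fun _ _ => rfl
    apply filter_congr
    intro c _
    constructor
    · intro h2 h3
      exact h01 (h3.symm.trans h2)
    · intro h2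
      exact (hh c).resolve_left h2
  set A : ℤ := -e h1 - ∑ c ∈ R.filter (fun c => hb c = h1), w c with hA
  set B : ℤ := e h0 + ∑ c ∈ R.filter (fun c => hb c = h0), w c with hB
  have hAB : A ≤ B := by linarith
  have hBl : -((N + 1) * t) ≤ B := by
    have h2 := hsub _ (filter_subset (fun c => hb c = h0) R)
    have h3 := he h0
    linarith
  have hAu : A ≤ (N + 1) * t := by
    have h2 := hsub _ (filter_subset (fun c => hb c = h1) R)
    have h3 := he h1
    linarith
  set z : ι → ℤ := fun c =>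
    if c = h0 then max A (-((N + 1) * t)) else if c = h1 then 0 else w c with hz
  have z0 : z h0 = max A (-((N + 1) * t)) := if_pos rfl
  have z1 : z h1 = 0 := by
    simp only [hz, if_neg h01.symm, if_true]
  have zR : ∀ c ∈ R, z c = w c := by
    intro c hc
    rw [hRm] at hc
    simp only [hz]
    rw [if_neg hc.2, if_neg hc.1]
  have f0 : ∑ c ∈ univ.filter (fun c => hb c = h0), z c =
      ∑ c ∈ R.filter (fun c => hb c = h0), w c := by
    have h2 : univ.filter (fun c => hb c = h0) =
        insert h1 (R.filter (fun c => hb c = h0)) := by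
      ext c
      rw [mem_filter, mem_insert, mem_filter, hRm]
      constructor
      · rintro ⟨_, hc⟩
        by_cases h3 : c = h1
        · exact Or.inl h3
        · refine Or.inr ⟨⟨h3, ?_⟩, hc⟩
          rintro rfl
          rw [hh0] at hc
          exact h3 hc.symm
      · rintro (rfl | hc)
        · exact ⟨mem_univ _, hh1⟩
        · exact ⟨mem_univ _, hc.2⟩
    rw [h2, sum_insert, z1, zero_add]
    · exact sum_congr rfl fun c hc => zR c (mem_filter.1 hc).1
    · intro h3
      exact ((hRm _).1 (mem_filter.1 h3).1).1 rfl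
  have f1 : ∑ c ∈ univ.filter (fun c => hb c = h1), z c =
      z h0 + ∑ c ∈ R.filter (fun c => hb c = h1), w c := by
    have h2 : univ.filter (fun c => hb c = h1) =
        insert h0 (R.filter (fun c => hb c = h1)) := by
      ext c
      rw [mem_filter, mem_insert, mem_filter, hRm]
      constructor
      · rintro ⟨_, hc⟩
        by_cases h3 : c = h0
        · exact Or.inl h3
        · refine Or.inr ⟨⟨?_, h3⟩, hc⟩
          rintro rfl
          rw [hh1] at hc
          exact h3 hc.symm
      · rintro (rfl | hc)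
        · exact ⟨mem_univ _, hh0⟩
        · exact ⟨mem_univ _, hc.2⟩
    rw [h2, sum_insert]
    · congr 1
      exact sum_congr rfl fun c hc => zR c (mem_filter.1 hc).1
    · intro h3
      exact ((hRm _).1 (mem_filter.1 h3).1).2 rfl
  refine ⟨z, ?_, ?_, ?_, ?_⟩
  · intro c
    have h2 : (((Fintype.card ι + 1) * t : ℕ) : ℤ) = (N + 1) * t := by
      push_cast
      rfl
    rw [h2]
    by_cases hc0 : c = h0
    · rw [hc0, z0, abs_le]
      exact ⟨le_max_right _ _, max_le hAu (by linarith)⟩
    · by_cases hc1 : c = h1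
      · rw [hc1, z1, abs_zero]
        linarith
      · rw [zR c ((hRm c).2 ⟨hc1, hc0⟩), abs_le]
        have h3 := hw1 c
        have h4 := hw2 c
        constructor <;> linarith
  · intro c hc0 hc1
    rw [zR c ((hRm c).2 ⟨hc1, hc0⟩)]
    exact hw3 c
  · rw [f0, z0]
    have h2 : max A (-((N + 1) * t)) ≤ B := max_le hAB hBl
    linarith
  · rw [f1, z1, z0]
    have h2 : A ≤ max A (-((N + 1) * t)) := le_max_left _ _
    linarith

end Pool.Agent.BSubE
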