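import Mathlib
import Pool.Agent.Lib.MP_79bff1_ag_E.Defs

set_option autoImplicit false

/-!
# Free choice on a set of pairwise non-collinear entries
The line of `f` in direction `x` meets `G` iff some `p ∈ G` agrees with `f` off `x`. Let `B` be
larger than all `W x f + lam x l` (finitely many values). Define `W' x f = W x f` if no `p ∈ G`
agrees with `f` off `x`; otherwise `W' x f = B` if some `p ∈ G` which agrees with `f` off `x` has
`θG p = x`, and `W' x f = 3 * B` if not; `lam' = lam`. `LineDep W'` is clear.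
* `f ∈ Ω`, `f ∉ G`: by `hok` the line in direction `θ f` does not meet `G`, so
  `W' (θ f) f = W (θ f) f`. For `x ≠ θ f`: if the line in direction `x` does not meet `G` use
  `hmin`; otherwise `W' x f ≥ B > W (θ f) f + lam (θ f) (f (θ f))`.
* `f ∈ G`: every line through `f` meets `G` only in `f` (by `hG`). So `W' (θG f) f = B` and
  `W' x f = 3 * B` for `x ≠ θG f`, and `B + lam < 3 * B ≤ 3 * B + lam`.
-/

namespace Pool.Agent.BSubE

open Finset

theorem comb_bound {d r : ℕ} (W : Fin d → (Fin d → Fin r) → ℕ) (lam : Fin d → Fin r → ℕ) :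
    ∃ B : ℕ, ∀ x f x' l, W x f + lam x' l < B := by
  refine ⟨(∑ x, ∑ f, W x f) + (∑ x, ∑ l, lam x l) + 1, fun x f x' l => ?_⟩
  have h1 : W x f ≤ ∑ x, ∑ f, W x f :=
    (Finset.single_le_sum (f := fun f => W x f) (fun _ _ => Nat.zero_le _)
      (Finset.mem_univ f)).trans
      (Finset.single_le_sum (f := fun x => ∑ f, W x f) (fun _ _ => Nat.zero_le _)
        (Finset.mem_univ x))
  have h2 : lam x' l ≤ ∑ x, ∑ l, lam x l :=
    (Finset.single_le_sum (f := fun l => lam x' l) (fun _ _ => Nat.zero_le _)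
      (Finset.mem_univ l)).trans
      (Finset.single_le_sum (f := fun x => ∑ l, lam x l) (fun _ _ => Nat.zero_le _)
        (Finset.mem_univ x'))
  omega

open Classical in
theorem exps_comb {d r : ℕ} (Ω G : Finset (Fin d → Fin r)) (hGΩ : G ⊆ Ω)
    (hG : ∀ p ∈ G, ∀ q ∈ G, p ≠ q → ∀ x, ∃ y, y ≠ x ∧ p y ≠ q y)
    (W : Fin d → (Fin d → Fin r) → ℕ) (lam : Fin d → Fin r → ℕ)
    (θ θG : (Fin d → Fin r) → Fin d) (hW : LineDep W)
    (hok : ∀ f ∈ Ω, f ∉ G → ∀ p ∈ G, ∃ y, y ≠ θ f ∧ f y ≠ p y)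
    (hmin : ∀ f ∈ Ω, f ∉ G → ∀ x, x ≠ θ f → (∀ p ∈ G, ∃ y, y ≠ x ∧ f y ≠ p y) →
      W (θ f) f + lam (θ f) (f (θ f)) < W x f + lam x (f x)) :
    ∃ (W' : Fin d → (Fin d → Fin r) → ℕ) (lam' : Fin d → Fin r → ℕ), LineDep W' ∧
      ∀ f ∈ Ω, ∀ x, x ≠ (if f ∈ G then θG f else θ f) →
        W' (if f ∈ G then θG f else θ f) f +
            lam' (if f ∈ G then θG f else θ f) (f (if f ∈ G then θG f else θ f)) <
          W' x f + lam' x (f x) := by
  obtain ⟨B, hB⟩ := comb_bound W lam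
  let W' : Fin d → (Fin d → Fin r) → ℕ := fun x f =>
    if ∃ p ∈ G, ∀ y, y ≠ x → f y = p y then
      if ∃ p ∈ G, (∀ y, y ≠ x → f y = p y) ∧ θG p = x then B else 3 * B
    else W x f
  refine ⟨W', lam, ?_, ?_⟩
  · intro x f f' h
    have h1 : (∃ p ∈ G, ∀ y, y ≠ x → f y = p y) ↔ ∃ p ∈ G, ∀ y, y ≠ x → f' y = p y := by
      constructor
      · rintro ⟨p, hp, h2⟩
        exact ⟨p, hp, fun y hy => (h y hy).symm.trans (h2 y hy)⟩
      · rintro ⟨p, hp, h2⟩
        exact ⟨p, hp, fun y hy => (h y hy).trans (h2 y hy)⟩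
    have h3 : (∃ p ∈ G, (∀ y, y ≠ x → f y = p y) ∧ θG p = x) ↔
        ∃ p ∈ G, (∀ y, y ≠ x → f' y = p y) ∧ θG p = x := by
      constructor
      · rintro ⟨p, hp, h2, h4⟩
        exact ⟨p, hp, fun y hy => (h y hy).symm.trans (h2 y hy), h4⟩
      · rintro ⟨p, hp, h2, h4⟩
        exact ⟨p, hp, fun y hy => (h y hy).trans (h2 y hy), h4⟩
    change (if ∃ p ∈ G, ∀ y, y ≠ x → f y = p y then
      if ∃ p ∈ G, (∀ y, y ≠ x → f y = p y) ∧ θG p = x then B else 3 * B
      else W x f) = if ∃ p ∈ G, ∀ y, y ≠ x → f' y = p y then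
      if ∃ p ∈ G, (∀ y, y ≠ x → f' y = p y) ∧ θG p = x then B else 3 * B
      else W x f'
    rw [if_congr h1 (if_congr h3 rfl rfl) (hW x f f' h)]
  · intro f hf x
    by_cases hfG : f ∈ G
    · rw [if_pos hfG]
      intro hx
      have h1 : ∀ x, ∃ p ∈ G, ∀ y, y ≠ x → f y = p y := fun x => ⟨f, hfG, fun y _ => rfl⟩
      have h2 : W' (θG f) f = B := by
        change (if ∃ p ∈ G, ∀ y, y ≠ θG f → f y = p y then
          if ∃ p ∈ G, (∀ y, y ≠ θG f → f y = p y) ∧ θG p = θG f then B else 3 * B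
          else W (θG f) f) = B
        rw [if_pos (h1 _), if_pos ⟨f, hfG, fun y _ => rfl, rfl⟩]
      have h3 : W' x f = 3 * B := by
        change (if ∃ p ∈ G, ∀ y, y ≠ x → f y = p y then
          if ∃ p ∈ G, (∀ y, y ≠ x → f y = p y) ∧ θG p = x then B else 3 * B
          else W x f) = 3 * B
        rw [if_pos (h1 _), if_neg]
        rintro ⟨p, hp, h4, h5⟩
        by_cases hpf : f = p
        · subst hpf
          exact hx h5.symm
        · obtain ⟨y, hy, h6⟩ := hG f hfG p hp hpf x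
          exact h6 (h4 y hy)
      rw [h2, h3]
      have h4 := hB (θG f) f (θG f) (f (θG f))
      omega
    · rw [if_neg hfG]
      intro hx
      have h2 : W' (θ f) f = W (θ f) f := by
        change (if ∃ p ∈ G, ∀ y, y ≠ θ f → f y = p y then
          if ∃ p ∈ G, (∀ y, y ≠ θ f → f y = p y) ∧ θG p = θ f then B else 3 * B
          else W (θ f) f) = W (θ f) f
        rw [if_neg]
        rintro ⟨p, hp, h3⟩
        obtain ⟨y, hy, h4⟩ := hok f hf hfG p hp
        exact h4 (h3 y hy)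
      rw [h2]
      by_cases h3 : ∃ p ∈ G, ∀ y, y ≠ x → f y = p y
      · have h4 : B ≤ W' x f := by
          change B ≤ (if ∃ p ∈ G, ∀ y, y ≠ x → f y = p y then
            if ∃ p ∈ G, (∀ y, y ≠ x → f y = p y) ∧ θG p = x then B else 3 * B
            else W x f)
          rw [if_pos h3]
          split_ifs
          · exact le_rfl
          · omega
        have h5 := hB (θ f) f (θ f) (f (θ f))
        omega
      · have h4 : W' x f = W x f := if_neg h3
        rw [h4]
        refine hmin f hf hfG x hx fun p hp => ?_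
        by_contra hcon
        push Not at hcon
        exact h3 ⟨p, hp, hcon⟩

end Pool.Agent.BSubE
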