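import Mathlib
import Pool.Agent.Lib.MP_79bff1_ag_E.Defs
import Pool.Agent.Lib.MP_79bff1_ag.Assign

set_option autoImplicit false

/-!
# Exponents with forbidden lines and capacities
Same proof as the landed theorem `exists_exponents` (module Assign; `asgCode`, `asg_sidon`,
`asgCode_inj`, `asg_layer` can be used), with two changes: `μ(f)` is the minimum of
`3 ^ asgCode x f + lam x (f x)` over the directions `x` with `ok x f` (each `f ∈ Λ` has one: use
`hall` with `S = fun _ => ∅`), and `(C + 1) * ∑ lam` is replaced by `∑ (C x l + 1) * lam x l`.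
Layer cake bound: `∑_{f ∈ Λ} min_{ok x f} lam x (f x) = ∑_s #{f : ∀ x, ok x f → s < lam x (f x)} ≤
∑_s ∑_x ∑_{l, s < lam x l} C x l = ∑ C x l * lam x l`. So the functional
`∑ μ(f) - ∑ (C x l + 1) lam x l` is bounded above and has a maximiser `lam`. Raising `lam x l` by
`1` shows: at most `C x l + 1` entries of `Λ` with `f x = l`, `ok x f` have their strict minimum
(among the ok directions) at `x`. Ties: for `x ≠ x'` and given `f x`, `f x'` at most one `f` has
`3 ^ asgCode x f + lam x (f x) = 3 ^ asgCode x' f + lam x' (f x')` (`asg_sidon`), so at most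
`(d - 1) * r` entries of a class are tied. Final exponents `W x f = d * 3 ^ asgCode x f + x`,
`d * lam x l`, `θ f` = the minimiser over the ok directions.
(For `n = r` in the notation of that file. `hok`: `ok x f` does not depend on `f x`; it is not
even needed.)
-/

namespace Pool.Agent.BSubE

open Finset Pool.Agent.BSub

/-- the minimum of `v` over the directions with `P` -/
private noncomputable def lpa_mn {d : ℕ} (P : Fin d → Prop) (v : Fin d → ℕ) : ℕ :=
  sInf (v '' {x | P x})

private theorem lpa_mn_le {d : ℕ} {P : Fin d → Prop} {v : Fin d → ℕ} {x : Fin d} (hx : P x) :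
    lpa_mn P v ≤ v x := Nat.sInf_le ⟨x, hx, rfl⟩

private theorem lpa_mn_mem {d : ℕ} {P : Fin d → Prop} {v : Fin d → ℕ} (h : ∃ x, P x) :
    ∃ x, P x ∧ lpa_mn P v = v x := by
  obtain ⟨x, hx⟩ := h
  have h1 : (v '' {x | P x}).Nonempty := ⟨v x, x, hx, rfl⟩
  obtain ⟨y, hy, hy'⟩ := Nat.sInf_mem h1
  exact ⟨y, hy, hy'.symm⟩

private theorem lpa_le_mn {d : ℕ} {P : Fin d → Prop} {v : Fin d → ℕ} (h : ∃ x, P x) {m : ℕ}
    (hm : ∀ x, P x → m ≤ v x) : m ≤ lpa_mn P v := by
  obtain ⟨x, hx, h1⟩ := lpa_mn_mem (v := v) h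
  rw [h1]
  exact hm x hx

open Classical in
/-- the layer cake bound -/
private theorem lpa_min_le {d r : ℕ} (Λ : Finset (Fin d → Fin r))
    (ok : Fin d → (Fin d → Fin r) → Prop) (C : Fin d → Fin r → ℕ)
    (hall : ∀ S : Fin d → Finset (Fin r),
      (Λ.filter fun f => ∀ x, ok x f → f x ∈ S x).card ≤ ∑ x, ∑ l ∈ S x, C x l)
    (hex : ∀ f ∈ Λ, ∃ x, ok x f) (lam : Fin d → Fin r → ℕ) :
    ∑ f ∈ Λ, lpa_mn (fun x => ok x f) (fun x => lam x (f x)) ≤
      ∑ x, ∑ l, C x l * lam x l := by
  obtain ⟨M, hM⟩ : ∃ M, M = ∑ x, ∑ l, lam x l := ⟨_, rfl⟩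
  have hle : ∀ x l, lam x l ≤ M := by
    intro x l
    rw [hM]
    calc lam x l ≤ ∑ l, lam x l := Finset.single_le_sum (f := fun l => lam x l)
          (fun _ _ => Nat.zero_le _) (Finset.mem_univ l)
      _ ≤ _ := Finset.single_le_sum (f := fun x => ∑ l, lam x l)
          (fun _ _ => Nat.zero_le _) (Finset.mem_univ x)
  have h1 : ∀ f ∈ Λ, lpa_mn (fun x => ok x f) (fun x => lam x (f x)) =
      ∑ s ∈ Finset.range M, (if ∀ x, ok x f → s < lam x (f x) then 1 else 0) := by
    intro f hf
    obtain ⟨x, hx, hx'⟩ := lpa_mn_mem (v := fun x => lam x (f x)) (hex f hf)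
    have hm : lpa_mn (fun x => ok x f) (fun x => lam x (f x)) ≤ M := by
      rw [hx']
      exact hle _ _
    rw [← asg_layer hm]
    refine Finset.sum_congr rfl (fun s _ => ?_)
    have : s < lpa_mn (fun x => ok x f) (fun x => lam x (f x)) ↔
        ∀ x, ok x f → s < lam x (f x) := by
      constructor
      · intro h y hy
        exact lt_of_lt_of_le h (lpa_mn_le (v := fun x => lam x (f x)) hy)
      · intro h
        rw [hx']
        exact h x hx
    simp only [this]
  calc ∑ f ∈ Λ, lpa_mn (fun x => ok x f) (fun x => lam x (f x))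
      = ∑ f ∈ Λ, ∑ s ∈ Finset.range M, (if ∀ x, ok x f → s < lam x (f x) then 1 else 0) :=
        Finset.sum_congr rfl h1
    _ = ∑ s ∈ Finset.range M, ∑ f ∈ Λ, (if ∀ x, ok x f → s < lam x (f x) then 1 else 0) :=
        Finset.sum_comm
    _ ≤ ∑ s ∈ Finset.range M, ∑ x, ∑ l, C x l * (if s < lam x l then 1 else 0) := by
        refine Finset.sum_le_sum (fun s _ => ?_)
        rw [← Finset.sum_filter, ← Finset.card_eq_sum_ones]
        have h2 := hall (fun x => Finset.univ.filter (fun l => s < lam x l))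
        simp only [Finset.mem_filter, Finset.mem_univ, true_and] at h2
        refine h2.trans (le_of_eq ?_)
        refine Finset.sum_congr rfl (fun x _ => ?_)
        rw [Finset.sum_filter]
        refine Finset.sum_congr rfl (fun l _ => ?_)
        rw [mul_ite, mul_one, mul_zero]
    _ = ∑ x, ∑ l, C x l * ∑ s ∈ Finset.range M, (if s < lam x l then 1 else 0) := by
        rw [Finset.sum_comm]
        refine Finset.sum_congr rfl (fun x _ => ?_)
        rw [Finset.sum_comm]
        refine Finset.sum_congr rfl (fun l _ => ?_)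
        rw [Finset.mul_sum]
    _ = ∑ x, ∑ l, C x l * lam x l := by
        refine Finset.sum_congr rfl (fun x _ => Finset.sum_congr rfl (fun l _ => ?_))
        rw [asg_layer (hle x l)]

open Classical in
/-- existence of a maximiser -/
private theorem lpa_exists_max {d r : ℕ} (Λ : Finset (Fin d → Fin r))
    (ok : Fin d → (Fin d → Fin r) → Prop) (C : Fin d → Fin r → ℕ)
    (hall : ∀ S : Fin d → Finset (Fin r),
      (Λ.filter fun f => ∀ x, ok x f → f x ∈ S x).card ≤ ∑ x, ∑ l ∈ S x, C x l)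
    (hex : ∀ f ∈ Λ, ∃ x, ok x f) :
    ∃ lam : Fin d → Fin r → ℕ, ∀ lam' : Fin d → Fin r → ℕ,
      (∑ f ∈ Λ, (lpa_mn (fun x => ok x f) (asgVal lam' f) : ℤ)) -
        ∑ x, ∑ l, ((C x l : ℤ) + 1) * (lam' x l : ℤ) ≤
      (∑ f ∈ Λ, (lpa_mn (fun x => ok x f) (asgVal lam f) : ℤ)) -
        ∑ x, ∑ l, ((C x l : ℤ) + 1) * (lam x l : ℤ) := by
  obtain ⟨W, hW⟩ : ∃ W : ℕ, ∀ (x : Fin d) (f : Fin d → Fin r), 3 ^ asgCode x f ≤ W := by
    refine ⟨∑ x : Fin d, ∑ f : Fin d → Fin r, 3 ^ asgCode x f, fun x f => ?_⟩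
    calc 3 ^ asgCode x f ≤ ∑ f : Fin d → Fin r, 3 ^ asgCode x f :=
          Finset.single_le_sum (f := fun f => 3 ^ asgCode x f)
          (fun _ _ => Nat.zero_le _) (Finset.mem_univ f)
      _ ≤ _ := Finset.single_le_sum (f := fun x => ∑ f : Fin d → Fin r, 3 ^ asgCode x f)
          (fun _ _ => Nat.zero_le _) (Finset.mem_univ x)
  obtain ⟨ub, ⟨lam, hlam⟩, hub⟩ := Int.exists_greatest_of_bdd
    (P := fun z => ∃ lam : Fin d → Fin r → ℕ,
      z = (∑ f ∈ Λ, (lpa_mn (fun x => ok x f) (asgVal lam f) : ℤ)) -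
        ∑ x, ∑ l, ((C x l : ℤ) + 1) * (lam x l : ℤ)) (by
    refine ⟨Λ.card * W, ?_⟩
    rintro z ⟨lam, rfl⟩
    have h1 := lpa_min_le Λ ok C hall hex lam
    have h2 : ∀ f ∈ Λ, lpa_mn (fun x => ok x f) (asgVal lam f) ≤
        W + lpa_mn (fun x => ok x f) (fun x => lam x (f x)) := by
      intro f hf
      obtain ⟨x, hx, hx'⟩ := lpa_mn_mem (v := fun x => lam x (f x)) (hex f hf)
      rw [hx']
      exact (lpa_mn_le (v := asgVal lam f) hx).trans (Nat.add_le_add_right (hW x f) _)
    have h3 : ∑ f ∈ Λ, lpa_mn (fun x => ok x f) (asgVal lam f) ≤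
        Λ.card * W + ∑ x, ∑ l, C x l * lam x l := by
      calc ∑ f ∈ Λ, lpa_mn (fun x => ok x f) (asgVal lam f) ≤
          ∑ f ∈ Λ, (W + lpa_mn (fun x => ok x f) (fun x => lam x (f x))) :=
            Finset.sum_le_sum h2
        _ = Λ.card * W + ∑ f ∈ Λ, lpa_mn (fun x => ok x f) (fun x => lam x (f x)) := by
            rw [Finset.sum_add_distrib, Finset.sum_const, smul_eq_mul]
        _ ≤ _ := Nat.add_le_add_left h1 _
    have h4 : (∑ f ∈ Λ, (lpa_mn (fun x => ok x f) (asgVal lam f) : ℤ)) ≤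
        Λ.card * W + ∑ x, ∑ l, (C x l : ℤ) * (lam x l : ℤ) := by
      exact_mod_cast h3
    have h5 : (0 : ℤ) ≤ ∑ x, ∑ l, (lam x l : ℤ) := by positivity
    have h6 : ∑ x, ∑ l, ((C x l : ℤ) + 1) * (lam x l : ℤ) =
        ∑ x, ∑ l, (C x l : ℤ) * (lam x l : ℤ) + ∑ x, ∑ l, (lam x l : ℤ) := by
      rw [← Finset.sum_add_distrib]
      refine Finset.sum_congr rfl fun x _ => ?_
      rw [← Finset.sum_add_distrib]
      refine Finset.sum_congr rfl fun l _ => ?_
      ring
    rw [h6]
    linarith) ⟨_, ⟨fun _ _ => 0, rfl⟩⟩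
  refine ⟨lam, fun lam' => ?_⟩
  rw [← hlam]
  exact hub _ ⟨lam', rfl⟩

open Classical in
theorem exps_allowed {d r : ℕ} (hd : 1 ≤ d) (Λ : Finset (Fin d → Fin r))
    (ok : Fin d → (Fin d → Fin r) → Prop) (C : Fin d → Fin r → ℕ)
    (hall : ∀ S : Fin d → Finset (Fin r),
      (Λ.filter fun f => ∀ x, ok x f → f x ∈ S x).card ≤ ∑ x, ∑ l ∈ S x, C x l) :
    ∃ (W : Fin d → (Fin d → Fin r) → ℕ) (lam : Fin d → Fin r → ℕ)
      (θ : (Fin d → Fin r) → Fin d), LineDep W ∧ (∀ f ∈ Λ, ok (θ f) f) ∧
      (∀ f ∈ Λ, ∀ x, x ≠ θ f → ok x f →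
        W (θ f) f + lam (θ f) (f (θ f)) < W x f + lam x (f x)) ∧
      (∀ x l, (Λ.filter fun f => θ f = x ∧ f x = l).card ≤ C x l + 1 + (d - 1) * r) := by
  have hne : Nonempty (Fin d) := ⟨⟨0, by omega⟩⟩
  have hex : ∀ f ∈ Λ, ∃ x, ok x f := by
    intro f hf
    by_contra hcon
    push Not at hcon
    have h1 := hall fun _ => ∅
    simp only [Finset.sum_empty, Finset.sum_const_zero, Nat.le_zero, Finset.card_eq_zero] at h1
    have h2 : f ∈ Λ.filter fun f => ∀ x, ok x f → f x ∈ (∅ : Finset (Fin r)) :=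
      Finset.mem_filter.2 ⟨hf, fun x hx => absurd hx (hcon x)⟩
    rw [h1] at h2
    exact absurd h2 (Finset.notMem_empty f)
  obtain ⟨lam, hmax⟩ := lpa_exists_max Λ ok C hall hex
  -- strict argmins
  have hU : ∀ x l, (Λ.filter fun f => f x = l ∧ ok x f ∧
      ∀ y, y ≠ x → ok y f → asgVal lam f x < asgVal lam f y).card ≤ C x l + 1 := by
    intro x l
    obtain ⟨lam', hlam'⟩ : ∃ lam' : Fin d → Fin r → ℕ,
        lam' = fun y m => lam y m + (if y = x ∧ m = l then 1 else 0) := ⟨_, rfl⟩
    have h1 := hmax lam'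
    have h2 : ∑ y, ∑ m, ((C y m : ℤ) + 1) * (lam' y m : ℤ) =
        ∑ y, ∑ m, ((C y m : ℤ) + 1) * (lam y m : ℤ) + ((C x l : ℤ) + 1) := by
      rw [hlam']
      push_cast
      simp_rw [mul_add, Finset.sum_add_distrib]
      congr 1
      rw [Finset.sum_eq_single x]
      · rw [Finset.sum_eq_single l]
        · simp
        · intro b _ hb; simp [hb]
        · intro h; exact absurd (Finset.mem_univ l) h
      · intro b _ hb; simp [hb]
      · intro h; exact absurd (Finset.mem_univ x) h
    have hval : ∀ f y, asgVal lam f y ≤ asgVal lam' f y := by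
      intro f y
      unfold asgVal
      rw [hlam']
      simp only
      omega
    have h3 : ∀ f ∈ Λ, lpa_mn (fun x => ok x f) (asgVal lam f) + (if f x = l ∧ ok x f ∧
        ∀ y, y ≠ x → ok y f → asgVal lam f x < asgVal lam f y then 1 else 0) ≤
        lpa_mn (fun x => ok x f) (asgVal lam' f) := by
      intro f hf
      split_ifs with hf'
      · refine lpa_le_mn (hex f hf) fun y hy => ?_
        by_cases hyx : y = x
        · subst hyx
          have h4 := lpa_mn_le (v := asgVal lam f) (P := fun x => ok x f) hy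
          have h5 : asgVal lam' f y = asgVal lam f y + 1 := by
            unfold asgVal
            rw [hlam']
            simp only [hf'.1, and_self, if_true]
            omega
          omega
        · have h4 := lpa_mn_le (v := asgVal lam f) (P := fun x => ok x f) hf'.2.1
          have h5 := hf'.2.2 y hyx hy
          have h6 := hval f y
          omega
      · rw [add_zero]
        refine lpa_le_mn (hex f hf) fun y hy => ?_
        exact (lpa_mn_le (v := asgVal lam f) hy).trans (hval f y)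
    have h4 : ∑ f ∈ Λ, (lpa_mn (fun x => ok x f) (asgVal lam f) : ℤ) +
        ((Λ.filter fun f => f x = l ∧ ok x f ∧
          ∀ y, y ≠ x → ok y f → asgVal lam f x < asgVal lam f y).card : ℤ) ≤
        ∑ f ∈ Λ, (lpa_mn (fun x => ok x f) (asgVal lam' f) : ℤ) := by
      have h5 : ∑ f ∈ Λ, (lpa_mn (fun x => ok x f) (asgVal lam f) + (if f x = l ∧ ok x f ∧
        ∀ y, y ≠ x → ok y f → asgVal lam f x < asgVal lam f y then 1 else 0)) ≤
          ∑ f ∈ Λ, lpa_mn (fun x => ok x f) (asgVal lam' f) := Finset.sum_le_sum h3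
      rw [Finset.sum_add_distrib, ← Finset.sum_filter, ← Finset.card_eq_sum_ones] at h5
      exact_mod_cast h5
    rw [h2] at h1
    have h6 : ((Λ.filter fun f => f x = l ∧ ok x f ∧
      ∀ y, y ≠ x → ok y f → asgVal lam f x < asgVal lam f y).card : ℤ) ≤ C x l + 1 := by
      linarith
    exact_mod_cast h6
  -- ties
  have htie : ∀ (x x' : Fin d) (f f' : Fin d → Fin r), x' ≠ x → f x = f' x → f x' = f' x' →
      asgVal lam f x = asgVal lam f x' → asgVal lam f' x = asgVal lam f' x' → f = f' := by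
    intro x x' f f' hx h1 h2 h3 h4
    unfold asgVal at h3 h4
    rw [h1, h2] at h3
    have h5 : 3 ^ asgCode x f + 3 ^ asgCode x' f' = 3 ^ asgCode x f' + 3 ^ asgCode x' f := by
      omega
    rcases asg_sidon h5 with h6 | h6
    · have h7 := (asgCode_inj h6.1).2
      funext y
      by_cases hy : y = x
      · rw [hy, h1]
      · exact h7 y hy
    · exact absurd (asgCode_inj h6.1).1.symm hx
  have hT : ∀ x l, (Λ.filter fun f => f x = l ∧
      ∃ y, y ≠ x ∧ asgVal lam f x = asgVal lam f y).card ≤ (d - 1) * r := by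
    intro x l
    have hcard : ((Finset.univ.erase x) ×ˢ (Finset.univ : Finset (Fin r))).card =
        (d - 1) * r := by
      rw [Finset.card_product, Finset.card_erase_of_mem (Finset.mem_univ x), Finset.card_univ,
        Fintype.card_fin, Finset.card_univ, Fintype.card_fin]
    rw [← hcard]
    have hch : ∀ f : Fin d → Fin r, ∃ y : Fin d,
        (∃ y, y ≠ x ∧ asgVal lam f x = asgVal lam f y) →
        (y ≠ x ∧ asgVal lam f x = asgVal lam f y) := by
      intro f
      by_cases h : ∃ y, y ≠ x ∧ asgVal lam f x = asgVal lam f y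
      · obtain ⟨y, hy⟩ := h
        exact ⟨y, fun _ => hy⟩
      · exact ⟨x, fun h' => absurd h' h⟩
    choose Y hY using hch
    refine Finset.card_le_card_of_injOn (fun f => (Y f, f (Y f))) ?_ ?_
    · intro f hf
      rw [Finset.mem_coe, Finset.mem_filter] at hf
      rw [Finset.mem_coe, Finset.mem_product]
      have h1 := hY f hf.2.2
      exact ⟨Finset.mem_erase.2 ⟨h1.1, Finset.mem_univ _⟩, Finset.mem_univ _⟩
    · intro f hf f' hf' hff
      rw [Finset.mem_coe, Finset.mem_filter] at hf hf'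
      simp only [Prod.mk.injEq] at hff
      have h1 := hY f hf.2.2
      have h2 := hY f' hf'.2.2
      rw [← hff.1] at h2
      have h3 : f (Y f) = f' (Y f) := by
        rw [hff.2, hff.1]
      exact htie x (Y f) f f' h1.1 (by rw [hf.2.1, hf'.2.1]) h3 h1.2 h2.2
  -- the final exponents
  have hmin : ∀ f : Fin d → Fin r, ∃ x : Fin d, (∃ y, ok y f) → (ok x f ∧ ∀ y : Fin d, ok y f →
      d * asgVal lam f x + x.val ≤ d * asgVal lam f y + y.val) := by
    intro f
    by_cases h : ∃ y, ok y f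
    · obtain ⟨y, hy⟩ := h
      obtain ⟨x, hx1, hx⟩ := Finset.exists_min_image
        ((Finset.univ : Finset (Fin d)).filter fun x => ok x f)
        (fun x => d * asgVal lam f x + x.val)
        ⟨y, Finset.mem_filter.2 ⟨Finset.mem_univ _, hy⟩⟩
      exact ⟨x, fun _ => ⟨(Finset.mem_filter.1 hx1).2, fun y hy =>
        hx y (Finset.mem_filter.2 ⟨Finset.mem_univ _, hy⟩)⟩⟩
    · exact ⟨Classical.arbitrary _, fun h' => absurd h' h⟩
  choose θ hθ using hmin
  refine ⟨fun x f => d * 3 ^ asgCode x f + x.val, fun x l => d * lam x l, θ, ?_,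
    fun f hf => (hθ f (hex f hf)).1, ?_, ?_⟩
  · intro x f f' h
    have : asgCode x f = asgCode x f' := by
      unfold asgCode
      rw [asgKey_congr h]
    simp only [this]
  · intro f hf x hx hok
    have h1 := (hθ f (hex f hf)).2 x hok
    have e1 : ∀ y : Fin d, d * 3 ^ asgCode y f + y.val + d * lam y (f y) =
        d * asgVal lam f y + y.val := by
      intro y
      unfold asgVal
      ring
    simp only [e1]
    refine lt_of_le_of_ne h1 (fun h => hx ?_)
    have h2 : (d * asgVal lam f (θ f) + (θ f).val) % d = (d * asgVal lam f x + x.val) % d := by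
      rw [h]
    rw [Nat.mul_add_mod, Nat.mul_add_mod, Nat.mod_eq_of_lt (θ f).2, Nat.mod_eq_of_lt x.2] at h2
    exact (Fin.ext h2).symm
  · intro x l
    have hsub : (Λ.filter fun f => θ f = x ∧ f x = l) ⊆
        (Λ.filter fun f => f x = l ∧ ok x f ∧
          ∀ y, y ≠ x → ok y f → asgVal lam f x < asgVal lam f y) ∪
        (Λ.filter fun f => f x = l ∧ ∃ y, y ≠ x ∧ asgVal lam f x = asgVal lam f y) := by
      intro f hf
      rw [Finset.mem_filter] at hf
      obtain ⟨hf1, hf2, hf3⟩ := hf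
      obtain ⟨hok, hθf⟩ := hθ f (hex f hf1)
      rw [hf2] at hok hθf
      have hle : ∀ y, ok y f → asgVal lam f x ≤ asgVal lam f y := by
        intro y hy
        have h1 := hθf y hy
        by_contra hlt
        push Not at hlt
        have h2 : d * (asgVal lam f y + 1) ≤ d * asgVal lam f x := Nat.mul_le_mul_left d hlt
        have h3 := y.2
        rw [Nat.mul_add, Nat.mul_one] at h2
        omega
      rw [Finset.mem_union, Finset.mem_filter, Finset.mem_filter]
      by_cases h : ∃ y, y ≠ x ∧ asgVal lam f x = asgVal lam f y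
      · exact Or.inr ⟨hf1, hf3, h⟩
      · refine Or.inl ⟨hf1, hf3, hok, fun y hy hy' =>
          lt_of_le_of_ne (hle y hy') (fun h' => h ⟨y, hy, h'⟩)⟩
    calc (Λ.filter fun f => θ f = x ∧ f x = l).card ≤ _ := Finset.card_le_card hsub
      _ ≤ _ := Finset.card_union_le _ _
      _ ≤ C x l + 1 + (d - 1) * r := Nat.add_le_add (hU x l) (hT x l)

end Pool.Agent.BSubE
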