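import Mathlib
import Pool.Agent.Lib.MP_79bff1_ag_E.Defs

set_option autoImplicit false

/-!
# Loads of the gadget points
Define `θG (p (c, i)) = c.1` if `i < y c` and `(hub c).1` otherwise (`p` is injective). An entry
`p (c, i)` with `θG = x` and value `l` at `x` has either `i < y c`, `c.1 = x` and
`c.2 = p (c, i) c.1 = l`, so `c = (x, l)`: there are at most `y (x, l)` of these; or `i ≥ y c` and
`hub c = (x, l)` by the same argument: at most `∑_{hub c = (x, l)} (N - y c)`.
-/

namespace Pool.Agent.BSubE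

open Finset

theorem load_lt (N m : ℕ) :
    ((univ : Finset (Fin N)).filter fun i : Fin N => (i : ℕ) < m).card ≤ m := by
  have h1 : (((univ : Finset (Fin N)).filter fun i : Fin N => (i : ℕ) < m).card) ≤
      (Finset.range m).card := by
    apply Finset.card_le_card_of_injOn (fun i : Fin N => (i : ℕ))
    · intro i hi
      have h2 := (Finset.mem_filter.mp (Finset.mem_coe.mp hi)).2
      exact Finset.mem_coe.mpr (Finset.mem_range.mpr h2)
    · intro i _ j _ hij
      exact Fin.ext hij
  rwa [Finset.card_range] at h1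

theorem load_ge (N m : ℕ) :
    ((univ : Finset (Fin N)).filter fun i : Fin N => ¬ (i : ℕ) < m).card ≤ N - m := by
  have h1 : (((univ : Finset (Fin N)).filter fun i : Fin N => ¬ (i : ℕ) < m).card) ≤
      (Finset.Ico m N).card := by
    apply Finset.card_le_card_of_injOn (fun i : Fin N => (i : ℕ))
    · intro i hi
      have h2 := (Finset.mem_filter.mp (Finset.mem_coe.mp hi)).2
      exact Finset.mem_coe.mpr (Finset.mem_Ico.mpr ⟨not_lt.mp h2, i.2⟩)
    · intro i _ j _ hij
      exact Fin.ext hij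
  rwa [Nat.card_Ico] at h1

open Classical in
theorem gadget_loads {d r N : ℕ} (x₀ x₁ : Fin d) (Z : Fin r)
    (p : (Fin d × Fin r) × Fin N → (Fin d → Fin r)) (hinj : Function.Injective p)
    (hp : ∀ u, p u u.1.1 = u.1.2 ∧ p u (hub x₀ x₁ Z u.1).1 = (hub x₀ x₁ Z u.1).2)
    (y : Fin d × Fin r → ℕ) (hy : ∀ c, y c ≤ N) :
    ∃ θG : (Fin d → Fin r) → Fin d, ∀ x l,
      ((univ.image p).filter fun f => θG f = x ∧ f x = l).card ≤
        y (x, l) + ∑ c ∈ univ.filter (fun c => hub x₀ x₁ Z c = (x, l)), (N - y c) := by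
  let v : (Fin d × Fin r) × Fin N → Fin d := fun u =>
    if (u.2 : ℕ) < y u.1 then u.1.1 else (hub x₀ x₁ Z u.1).1
  let θG : (Fin d → Fin r) → Fin d := fun f =>
    if h : ∃ u, p u = f then v h.choose else x₀
  have hθ : ∀ u, θG (p u) = v u := by
    intro u
    have h : ∃ u', p u' = p u := ⟨u, rfl⟩
    have h1 : θG (p u) = v h.choose := dif_pos h
    rw [h1, hinj h.choose_spec]
  refine ⟨θG, fun x l => ?_⟩
  have hsub : ((univ.image p).filter fun f => θG f = x ∧ f x = l) ⊆
      (((univ : Finset (Fin N)).filter fun i : Fin N => (i : ℕ) < y (x, l)).image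
        fun i => p ((x, l), i)) ∪
      ((univ.filter (fun c => hub x₀ x₁ Z c = (x, l))).biUnion fun c =>
        ((univ : Finset (Fin N)).filter fun i : Fin N => ¬ (i : ℕ) < y c).image
          fun i => p (c, i)) := by
    intro f hf
    rw [Finset.mem_filter, Finset.mem_image] at hf
    obtain ⟨⟨⟨c, i⟩, _, rfl⟩, h1, h2⟩ := hf
    rw [hθ] at h1
    rw [Finset.mem_union]
    by_cases hi : (i : ℕ) < y c
    · left
      have h3 : v (c, i) = c.1 := if_pos hi
      rw [h3] at h1
      have h4 : p (c, i) c.1 = c.2 := (hp (c, i)).1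
      have hc : c = (x, l) := Prod.ext h1 (by rw [← h4, h1]; exact h2)
      rw [Finset.mem_image]
      refine ⟨i, Finset.mem_filter.mpr ⟨mem_univ i, ?_⟩, ?_⟩
      · rw [← hc]
        exact hi
      · rw [← hc]
    · right
      have h3 : v (c, i) = (hub x₀ x₁ Z c).1 := if_neg hi
      rw [h3] at h1
      have h4 : p (c, i) (hub x₀ x₁ Z c).1 = (hub x₀ x₁ Z c).2 := (hp (c, i)).2
      have hc : hub x₀ x₁ Z c = (x, l) := Prod.ext h1 (by rw [← h4, h1]; exact h2)
      rw [Finset.mem_biUnion]
      refine ⟨c, Finset.mem_filter.mpr ⟨mem_univ c, hc⟩, ?_⟩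
      rw [Finset.mem_image]
      exact ⟨i, Finset.mem_filter.mpr ⟨mem_univ i, hi⟩, rfl⟩
  refine (Finset.card_le_card hsub).trans ((Finset.card_union_le _ _).trans
    (add_le_add ?_ ?_))
  · exact Finset.card_image_le.trans (load_lt N _)
  · refine Finset.card_biUnion_le.trans (Finset.sum_le_sum fun c _ => ?_)
    exact Finset.card_image_le.trans (load_ge N _)

end Pool.Agent.BSubE
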