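import Mathlib
import Pool.Agent.Lib.MP_79bff1_ag_E.Defs

set_option autoImplicit false

/-!
# Hall's condition with the lines through the gadget points forbidden
Let `ok x f` mean that the line of `f` in direction `x` does not meet `G`.
* Every `f ∉ G` has an ok direction: if the lines in directions `x ≠ x'` both meet `G`, say in
  `p` and `q`, then `p = f` off `x`, `q = f` off `x'`; `p` and `q` agree off `{x, x'}`, so
  `p = q` by `hfar`, and then `p = f`, contradiction. Use `d ≥ 2`.
* `S = ∅` everywhere: the left side is `0`.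
* `S = univ` everywhere: left side `≤ |Ω| - |G| ≤ d r m - ∑ E = ∑ (m - E x l)` (here
  `E x l ≤ m`; this follows from `hslack` for a one-class box, which gives `M ≤ m`, and
  `E x l ≤ |G| ≤ M`; if `d = 0` or `r = 0` everything is trivial).
* Otherwise: an `f ∈ Ω` on the left side is in the box `S`, or it lies on a line through some
  `p ∈ G` (if `f x ∉ S x` then `x` is not ok), i.e. `f = p` with one coordinate changed: at most
  `|G| * (d * r)` such `f`. So the left side is at most
  `|inBox Ω S| + |G| d r ≤ m |S| - M + |G| d r ≤ m |S| - |G| ≤ ∑_{S} (m - E)`.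
-/

namespace Pool.Agent.BSubE

open Finset

theorem rh_ok {d r : ℕ} (hd : 2 ≤ d) (G : Finset (Fin d → Fin r))
    (hfar : ∀ p ∈ G, ∀ q ∈ G, p ≠ q → Far p q) (f : Fin d → Fin r) (hf : f ∉ G) :
    ∃ x : Fin d, ∀ p ∈ G, ∃ y, y ≠ x ∧ f y ≠ p y := by
  by_contra hcon
  push Not at hcon
  obtain ⟨p, hp, hpf⟩ := hcon ⟨0, by omega⟩
  obtain ⟨q, hq, hqf⟩ := hcon ⟨1, by omega⟩
  have hpq : p = q := by
    by_contra hne
    obtain ⟨z, hz0, hz1, hz⟩ := hfar p hp q hq hne ⟨0, by omega⟩ ⟨1, by omega⟩
    exact hz ((hpf z hz0).symm.trans (hqf z hz1))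
  apply hf
  have : f = p := by
    funext y
    by_cases hy : y = ⟨0, by omega⟩
    · rw [hpq]
      apply hqf y
      rw [hy]
      intro h
      have := congrArg Fin.val h
      simp at this
    · exact hpf y hy
  rw [this]
  exact hp

open Classical in
theorem restricted_hall {d r : ℕ} (hd : 2 ≤ d) (Ω G : Finset (Fin d → Fin r)) (hG : G ⊆ Ω)
    (hfar : ∀ p ∈ G, ∀ q ∈ G, p ≠ q → Far p q) (m M : ℕ) (E : Fin d → Fin r → ℕ)
    (hE : ∑ x, ∑ l, E x l = G.card) (hM : G.card * (d * r + 1) ≤ M)
    (hcard : Ω.card ≤ d * r * m)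
    (hslack : ∀ S : Fin d → Finset (Fin r), (∃ x, (S x).Nonempty) → (∃ x, S x ≠ univ) →
      (inBox Ω S).card + M ≤ m * ∑ x, (S x).card) (S : Fin d → Finset (Fin r)) :
    ((Ω \ G).filter fun f => ∀ x, (∀ p ∈ G, ∃ y, y ≠ x ∧ f y ≠ p y) → f x ∈ S x).card ≤
      ∑ x, ∑ l ∈ S x, (m - E x l) := by
  have hsum : m * ∑ x, (S x).card ≤ ∑ x, ∑ l ∈ S x, (m - E x l) + ∑ x, ∑ l ∈ S x, E x l := by
    rw [← Finset.sum_add_distrib, Finset.mul_sum]
    refine Finset.sum_le_sum fun x _ => ?_
    rw [← Finset.sum_add_distrib]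
    calc m * (S x).card = ∑ _l ∈ S x, m := by rw [Finset.sum_const, smul_eq_mul, mul_comm]
      _ ≤ ∑ l ∈ S x, (m - E x l + E x l) := Finset.sum_le_sum fun l _ => by omega
  by_cases h1 : ∃ x, (S x).Nonempty
  · by_cases h2 : ∃ x, S x ≠ univ
    · have hs := hslack S h1 h2
      have hE2 : ∑ x, ∑ l ∈ S x, E x l ≤ G.card := by
        rw [← hE]
        refine Finset.sum_le_sum fun x _ => ?_
        exact Finset.sum_le_sum_of_subset (Finset.subset_univ _)
      have hsub : ((Ω \ G).filter fun f => ∀ x, (∀ p ∈ G, ∃ y, y ≠ x ∧ f y ≠ p y) → f x ∈ S x) ⊆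
          inBox Ω S ∪ (G ×ˢ ((univ : Finset (Fin d)) ×ˢ (univ : Finset (Fin r)))).image
            (fun q => Function.update q.1 q.2.1 q.2.2) := by
        intro f hf
        rw [Finset.mem_filter, Finset.mem_sdiff] at hf
        rw [Finset.mem_union]
        by_cases hb : ∀ x, f x ∈ S x
        · left
          unfold inBox
          rw [Finset.mem_filter]
          exact ⟨hf.1.1, hb⟩
        · right
          push Not at hb
          obtain ⟨x, hx⟩ := hb
          have hnot : ¬ ∀ p ∈ G, ∃ y, y ≠ x ∧ f y ≠ p y := fun h => hx (hf.2 x h)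
          push Not at hnot
          obtain ⟨p, hp, hpf⟩ := hnot
          rw [Finset.mem_image]
          refine ⟨(p, x, f x), by simp [hp], ?_⟩
          funext y
          by_cases hy : y = x
          · subst hy
            simp
          · simp only [Function.update_of_ne hy]
            exact (hpf y hy).symm
      have hcard2 := Finset.card_le_card hsub
      have hcu := Finset.card_union_le (inBox Ω S)
        ((G ×ˢ ((univ : Finset (Fin d)) ×ˢ (univ : Finset (Fin r)))).image
            (fun q => Function.update q.1 q.2.1 q.2.2))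
      have hci : ((G ×ˢ ((univ : Finset (Fin d)) ×ˢ (univ : Finset (Fin r)))).image
            (fun q => Function.update q.1 q.2.1 q.2.2)).card ≤ G.card * (d * r) := by
        refine Finset.card_image_le.trans ?_
        rw [Finset.card_product, Finset.card_product, Finset.card_univ, Finset.card_univ,
          Fintype.card_fin, Fintype.card_fin]
      have e1 : G.card * (d * r + 1) = G.card * (d * r) + G.card := by ring
      omega
    · push Not at h2
      have e1 : ((Ω \ G).filter fun f => ∀ x, (∀ p ∈ G, ∃ y, y ≠ x ∧ f y ≠ p y) →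
          f x ∈ S x).card ≤ (Ω \ G).card := Finset.card_filter_le _ _
      have e2 : (Ω \ G).card = Ω.card - G.card := Finset.card_sdiff_of_subset hG
      have e3 : ∑ x, ∑ l ∈ S x, E x l = G.card := by
        rw [← hE]
        refine Finset.sum_congr rfl fun x _ => ?_
        rw [h2 x]
      have e4 : m * ∑ x, (S x).card = d * r * m := by
        have : ∑ x, (S x).card = d * r := by
          calc ∑ x, (S x).card = ∑ _x : Fin d, r := by
                refine Finset.sum_congr rfl fun x _ => ?_
                rw [h2 x, Finset.card_univ, Fintype.card_fin]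
            _ = d * r := by simp
        rw [this, mul_comm]
      omega
  · push Not at h1
    have hz : ((Ω \ G).filter fun f => ∀ x, (∀ p ∈ G, ∃ y, y ≠ x ∧ f y ≠ p y) →
        f x ∈ S x) = ∅ := by
      apply Finset.filter_eq_empty_iff.mpr
      intro f hf hcon
      rw [Finset.mem_sdiff] at hf
      obtain ⟨x, hx⟩ := rh_ok hd G hfar f hf.2
      have := hcon x hx
      have h3 := h1 x
      simp [h3] at this
    rw [hz]
    simp

/-- the one-class bound used above and in the assembly -/
theorem slack_le {d r : ℕ} (hd : 2 ≤ d) (Ω : Finset (Fin d → Fin r)) (m M : ℕ)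
    (hslack : ∀ S : Fin d → Finset (Fin r), (∃ x, (S x).Nonempty) → (∃ x, S x ≠ univ) →
      (inBox Ω S).card + M ≤ m * ∑ x, (S x).card) (hr : 1 ≤ r) : M ≤ m := by
  have h := hslack (fun x => if x = ⟨0, by omega⟩ then {⟨0, by omega⟩} else ∅)
    ⟨⟨0, by omega⟩, by simp⟩ ⟨⟨1, by omega⟩, by
      have h10 : ¬ ((⟨1, by omega⟩ : Fin d) = ⟨0, by omega⟩) := by
        intro h
        have := congrArg Fin.val h
        simp at this
      rw [if_neg h10]
      intro h
      have : (⟨0, by omega⟩ : Fin r) ∈ (∅ : Finset (Fin r)) := by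
        rw [h]
        exact Finset.mem_univ _
      simp at this⟩
  have hs : ∑ x : Fin d, (if x = ⟨0, by omega⟩ then ({⟨0, by omega⟩} : Finset (Fin r)) else ∅).card
      = 1 := by
    rw [Finset.sum_eq_single (⟨0, by omega⟩ : Fin d)]
    · simp
    · intro b _ hb
      simp [hb]
    · simp
  rw [hs] at h
  omega

end Pool.Agent.BSubE
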