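import Mathlib
import Pool.Agent.Lib.MP_79bff1_ag_E.Defs
import Pool.Agent.Lib.MP_79bff1_ag_E.LPA
import Pool.Agent.Lib.MP_79bff1_ag_E.Comb
import Pool.Agent.Lib.MP_79bff1_ag_E.Bal
import Pool.Agent.Lib.MP_79bff1_ag_E.RH
import Pool.Agent.Lib.MP_79bff1_ag_E.Load

set_option autoImplicit false

/-!
# Assembly of the exponents
`t = 1 + (d - 1) r`, `K = (d r + 1) t`, `G = image p`, `|G| = 2 K d r`,
`E c = K + K * #{c' : hub c' = c}`, `∑ E = 2 K d r = |G|`. `restricted_hall` is the hypothesis of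
`exps_allowed` with capacities `m - E c`; loads `n c ≤ m - E c + t`. `e c = m - n c - E c ≥ -t`,
`∑ e = d r m - |Ω| ≥ 0` (`∑ n c = |Ω \\ G|`). `bal` gives `z`; `y c = K + z c`, `0 ≤ y c ≤ 2 K`;
`gadget_loads` gives `θG`; `exps_comb` the exponents. Loads: for `c = (x, l)` not a hub
`n c + K + z c ≤ m` (no `c'` has hub `c`, `E c = K`); for the hubs
`n c + K + z c + ∑_{hub c' = c} (K - z c') = n c + E c + z c - ∑ z c' ≤ m`.
-/

namespace Pool.Agent.BSubE

open Finset

open Classical in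
theorem asm_sum_fib {d r : ℕ} (Ω : Finset (Fin d → Fin r)) (θ : (Fin d → Fin r) → Fin d) :
    ∑ c : Fin d × Fin r, (Ω.filter fun f => θ f = c.1 ∧ f c.1 = c.2).card = Ω.card := by
  have h := Finset.card_eq_sum_card_fiberwise (s := Ω) (t := (univ : Finset (Fin d × Fin r)))
    (f := fun f => (θ f, f (θ f))) (fun f _ => by simp)
  rw [h]
  refine sum_congr rfl fun c _ => ?_
  congr 1
  apply filter_congr
  intro f _
  constructor
  · rintro ⟨h1, h2⟩
    rw [Prod.ext_iff]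
    refine ⟨h1, ?_⟩
    simp only
    rw [h1]
    exact h2
  · intro h1
    have h2 : θ f = c.1 := congrArg Prod.fst h1
    have h3 : f (θ f) = c.2 := congrArg Prod.snd h1
    exact ⟨h2, by rw [← h2]; exact h3⟩

theorem asm_hub_cases {d r : ℕ} (x₀ x₁ : Fin d) (Z : Fin r) (c : Fin d × Fin r) :
    hub x₀ x₁ Z c = (x₀, Z) ∨ hub x₀ x₁ Z c = (x₁, Z) := by
  unfold hub
  split_ifs
  · exact Or.inr rfl
  · exact Or.inl rfl

open Classical in
theorem asm_aux {d r N K t : ℕ} (hd : 2 ≤ d) (hr : 1 ≤ r) (ht : t = 1 + (d - 1) * r)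
    (hK : K = (d * r + 1) * t) (hN : N = 2 * K) (Ω : Finset (Fin d → Fin r))
    (m M : ℕ) (x₀ x₁ : Fin d) (h01 : x₀ ≠ x₁) (Z : Fin r)
    (p : (Fin d × Fin r) × Fin N → (Fin d → Fin r))
    (hp : ∀ u, p u ∈ Ω ∧ p u u.1.1 = u.1.2 ∧
      p u (hub x₀ x₁ Z u.1).1 = (hub x₀ x₁ Z u.1).2)
    (hfar : ∀ u v, u ≠ v → Far (p u) (p v)) (hcard : Ω.card ≤ d * r * m)
    (hslack : ∀ S : Fin d → Finset (Fin r), (∃ x, (S x).Nonempty) → (∃ x, S x ≠ univ) →
      (inBox Ω S).card + M ≤ m * ∑ x, (S x).card)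
    (hM : d * r * N * (d * r + 1) ≤ M) : Exps Ω m := by
  have hinj : Function.Injective p := by
    intro u v huv
    by_contra hne
    obtain ⟨z, -, -, hz⟩ := hfar u v hne x₀ x₀
    exact hz (congrFun huv z)
  obtain ⟨G, hG⟩ : ∃ G : Finset (Fin d → Fin r), G = univ.image p := ⟨_, rfl⟩
  have hGcard : G.card = d * r * N := by
    rw [hG, card_image_of_injective _ hinj, card_univ, Fintype.card_prod, Fintype.card_prod,
      Fintype.card_fin, Fintype.card_fin, Fintype.card_fin]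
  have hGΩ : G ⊆ Ω := by
    intro f hf
    rw [hG, mem_image] at hf
    obtain ⟨u, -, rfl⟩ := hf
    exact (hp u).1
  have hfarG : ∀ f ∈ G, ∀ g ∈ G, f ≠ g → Far f g := by
    intro f hf g hg hne
    rw [hG, mem_image] at hf hg
    obtain ⟨u, -, rfl⟩ := hf
    obtain ⟨v, -, rfl⟩ := hg
    exact hfar u v fun h => hne (by rw [h])
  obtain ⟨E, hEdef⟩ : ∃ E : Fin d → Fin r → ℕ, E = fun x l =>
    K + K * (univ.filter fun c => hub x₀ x₁ Z c = (x, l)).card := ⟨_, rfl⟩
  have hsumE : ∑ x, ∑ l, E x l = G.card := by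
    rw [hGcard, ← Fintype.sum_prod_type', hEdef]
    simp only
    rw [sum_add_distrib, ← mul_sum]
    have h1 : ∑ c : Fin d × Fin r, (univ.filter fun c' => hub x₀ x₁ Z c' = (c.1, c.2)).card =
        d * r := by
      have h := Finset.card_eq_sum_card_fiberwise (s := (univ : Finset (Fin d × Fin r)))
        (t := (univ : Finset (Fin d × Fin r))) (f := hub x₀ x₁ Z) (fun f _ => by simp)
      rw [card_univ, Fintype.card_prod, Fintype.card_fin, Fintype.card_fin] at h
      exact h.symm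
    rw [h1, sum_const, card_univ, Fintype.card_prod, Fintype.card_fin, Fintype.card_fin, hN,
      smul_eq_mul]
    ring
  have hMm : M ≤ m := slack_le hd Ω m M hslack hr
  have hGM : G.card * (d * r + 1) ≤ M := by rw [hGcard]; exact hM
  have hGm : G.card ≤ m :=
    le_trans (le_trans (Nat.le_mul_of_pos_right _ (by omega)) hGM) hMm
  have hEm : ∀ x l, E x l ≤ m := by
    intro x l
    refine le_trans ?_ hGm
    rw [← hsumE]
    exact le_trans (single_le_sum (f := fun l => E x l) (fun _ _ => Nat.zero_le _) (mem_univ l))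
      (single_le_sum (f := fun x => ∑ l, E x l) (fun _ _ => Nat.zero_le _) (mem_univ x))
  obtain ⟨W, lam, θ, hLD, hok, hmin, hload⟩ := exps_allowed (by omega : 1 ≤ d) (Ω \ G)
    (fun x f => ∀ g ∈ G, ∃ y, y ≠ x ∧ f y ≠ g y) (fun x l => m - E x l) (fun S => by
      have h := restricted_hall hd Ω G hGΩ hfarG m M E hsumE hGM hcard hslack S
      convert h)
  -- the loads of the rest
  obtain ⟨n, hn⟩ : ∃ n : Fin d × Fin r → ℕ, n = fun c =>
    ((Ω \ G).filter fun f => θ f = c.1 ∧ f c.1 = c.2).card := ⟨_, rfl⟩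
  have hsumn : ∑ c, n c = (Ω \ G).card := by
    rw [hn]
    exact asm_sum_fib (Ω \ G) θ
  have hnle : ∀ c, n c ≤ (m - E c.1 c.2) + t := by
    intro c
    have h := hload c.1 c.2
    rw [hn, ht]
    simp only
    have h2 : ((Ω \ G).filter fun f => θ f = c.1 ∧ f c.1 = c.2).card ≤
      m - E c.1 c.2 + 1 + (d - 1) * r := by convert h
    omega
  obtain ⟨e, he⟩ : ∃ e : Fin d × Fin r → ℤ, e = fun c =>
    (m : ℤ) - (n c : ℤ) - (E c.1 c.2 : ℤ) := ⟨_, rfl⟩
  have hcardGΩ : (Ω \ G).card + G.card = Ω.card := by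
    rw [card_sdiff_of_subset hGΩ]
    have := card_le_card hGΩ
    omega
  have hsume : 0 ≤ ∑ c, e c := by
    rw [he]
    simp only
    rw [sum_sub_distrib, sum_sub_distrib]
    have h1 : ∑ _c : Fin d × Fin r, (m : ℤ) = ((d * r * m : ℕ) : ℤ) := by
      rw [sum_const, card_univ, Fintype.card_prod, Fintype.card_fin, Fintype.card_fin]
      push_cast
      simp
    have h2 : ∑ c : Fin d × Fin r, (n c : ℤ) = (((Ω \ G).card : ℕ) : ℤ) := by
      rw [← hsumn]
      push_cast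
      rfl
    have h3 : ∑ c : Fin d × Fin r, (E c.1 c.2 : ℤ) = ((G.card : ℕ) : ℤ) := by
      rw [← hsumE, ← Fintype.sum_prod_type']
      push_cast
      rfl
    rw [h1, h2, h3]
    have h4 : (Ω \ G).card + G.card ≤ d * r * m := by rw [hcardGΩ]; exact hcard
    have h5 : (((Ω \ G).card + G.card : ℕ) : ℤ) ≤ ((d * r * m : ℕ) : ℤ) := by exact_mod_cast h4
    push_cast at h5 ⊢
    linarith
  have hh0 : hub x₀ x₁ Z (x₀, Z) = (x₁, Z) := by simp [hub]
  have hh1 : hub x₀ x₁ Z (x₁, Z) = (x₀, Z) := by simp [hub, h01.symm]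
  have hne : ((x₀, Z) : Fin d × Fin r) ≠ (x₁, Z) := by
    intro h
    exact h01 (congrArg Prod.fst h)
  obtain ⟨z, hz1, hz2, hz3, hz4⟩ := bal (x₀, Z) (x₁, Z) hne (hub x₀ x₁ Z)
    (asm_hub_cases x₀ x₁ Z) hh0 hh1 t e (by
      intro c
      have h1 := hnle c
      have h2 := hEm c.1 c.2
      rw [he]
      simp only
      omega) hsume
  have hKcard : (Fintype.card (Fin d × Fin r) + 1) * t = K := by
    rw [Fintype.card_prod, Fintype.card_fin, Fintype.card_fin, hK]
  rw [hKcard] at hz1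
  obtain ⟨y, hy⟩ : ∃ y : Fin d × Fin r → ℕ, y = fun c => ((K : ℤ) + z c).toNat := ⟨_, rfl⟩
  have hyz : ∀ c, (y c : ℤ) = K + z c := by
    intro c
    rw [hy]
    simp only
    have := abs_le.mp (hz1 c)
    rw [Int.toNat_of_nonneg (by linarith)]
  have hyN : ∀ c, y c ≤ N := by
    intro c
    have h1 := hyz c
    have h2 := abs_le.mp (hz1 c)
    omega
  obtain ⟨θG, hθG⟩ := gadget_loads x₀ x₁ Z p hinj (fun u => (hp u).2) y hyN
  obtain ⟨W', lam', hLD', hmin'⟩ := exps_comb Ω G hGΩ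
    (fun f hf g hg hfg x => by
      obtain ⟨w, hw1, -, hw2⟩ := hfarG f hf g hg hfg x x
      exact ⟨w, hw1, hw2⟩) W lam θ θG hLD
    (fun f hf hfG g hg => hok f (mem_sdiff.mpr ⟨hf, hfG⟩) g hg)
    (fun f hf hfG x hx hline => hmin f (mem_sdiff.mpr ⟨hf, hfG⟩) x hx hline)
  refine ⟨W', lam', fun f => if f ∈ G then θG f else θ f, hLD', hmin', fun x l => ?_⟩
  -- the total load
  have hsplit : (Ω.filter fun f => (if f ∈ G then θG f else θ f) = x ∧ f x = l).card ≤
      n (x, l) + ((univ.image p).filter fun f => θG f = x ∧ f x = l).card := by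
    rw [hn]
    simp only
    rw [← hG]
    refine le_trans (card_le_card ?_) (card_union_le _ _)
    intro f hf
    rw [mem_filter] at hf
    rw [mem_union, mem_filter, mem_filter, mem_sdiff]
    by_cases hfG : f ∈ G
    · right
      rw [if_pos hfG] at hf
      exact ⟨hfG, hf.2⟩
    · left
      rw [if_neg hfG] at hf
      exact ⟨⟨hf.1, hfG⟩, hf.2⟩
  have hload2 : ((univ.image p).filter fun f => θG f = x ∧ f x = l).card ≤
      y (x, l) + ∑ c ∈ univ.filter (fun c => hub x₀ x₁ Z c = (x, l)), (N - y c) := by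
    have h := hθG x l
    convert h
  refine le_trans (le_of_eq (by congr)) (le_trans hsplit ?_)
  refine le_trans (Nat.add_le_add_left hload2 _) ?_
  have hcast : (((n (x, l) + (y (x, l) +
      ∑ c ∈ univ.filter (fun c => hub x₀ x₁ Z c = (x, l)), (N - y c)) : ℕ)) : ℤ) ≤ (m : ℤ) := by
    push_cast
    have h1 : ∑ c ∈ univ.filter (fun c => hub x₀ x₁ Z c = (x, l)), ((N - y c : ℕ) : ℤ) =
        ((univ.filter (fun c => hub x₀ x₁ Z c = (x, l))).card : ℤ) * K -
          ∑ c ∈ univ.filter (fun c => hub x₀ x₁ Z c = (x, l)), z c := by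
      have h2 : ∀ c ∈ univ.filter (fun c => hub x₀ x₁ Z c = (x, l)),
          ((N - y c : ℕ) : ℤ) = (K : ℤ) - z c := by
        intro c _
        have h3 := hyz c
        have h4 := hyN c
        have h5 : ((N - y c : ℕ) : ℤ) = (N : ℤ) - (y c : ℤ) := by
          rw [Nat.cast_sub h4]
        rw [h5, h3, hN]
        push_cast
        ring
      rw [sum_congr rfl h2, sum_sub_distrib, sum_const, nsmul_eq_mul]
    rw [h1, hyz]
    have h6 : e (x, l) = (m : ℤ) - (n (x, l) : ℤ) - (E x l : ℤ) := by rw [he]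
    have h7 : (E x l : ℤ) = K + K * ((univ.filter fun c => hub x₀ x₁ Z c = (x, l)).card : ℤ) := by
      rw [hEdef]
      push_cast
      rfl
    by_cases hc0 : ((x, l) : Fin d × Fin r) = (x₀, Z)
    · rw [hc0] at h1 h6 h7 ⊢
      rw [show x = x₀ from congrArg Prod.fst hc0, show l = Z from congrArg Prod.snd hc0] at h6 h7
      rw [h6, h7] at hz3
      linarith [hz3]
    · by_cases hc1 : ((x, l) : Fin d × Fin r) = (x₁, Z)
      · rw [hc1] at h1 h6 h7 ⊢
        rw [show x = x₁ from congrArg Prod.fst hc1, show l = Z from congrArg Prod.snd hc1] at h6 h7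
        rw [h6, h7] at hz4
        linarith [hz4]
      · have h8 := hz2 (x, l) hc0 hc1
        have h9 : (univ.filter fun c => hub x₀ x₁ Z c = (x, l)) = ∅ := by
          rw [filter_eq_empty_iff]
          intro c _ hc
          rcases asm_hub_cases x₀ x₁ Z c with h | h
          · exact hc0 (hc.symm.trans h)
          · exact hc1 (hc.symm.trans h)
        rw [h9] at h7 ⊢
        rw [h6, h7] at h8
        simp only [card_empty, Nat.cast_zero, mul_zero, zero_mul, sum_empty] at h8 ⊢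
        linarith
  exact_mod_cast hcast

theorem exps_of_gadgets {d r : ℕ} (hd : 2 ≤ d) (hr : 1 ≤ r) (Ω : Finset (Fin d → Fin r))
    (m M : ℕ) (x₀ x₁ : Fin d) (h01 : x₀ ≠ x₁) (Z : Fin r)
    (p : (Fin d × Fin r) × Fin (2 * ((d * r + 1) * (1 + (d - 1) * r))) → (Fin d → Fin r))
    (hp : ∀ u, p u ∈ Ω ∧ p u u.1.1 = u.1.2 ∧
      p u (hub x₀ x₁ Z u.1).1 = (hub x₀ x₁ Z u.1).2)
    (hfar : ∀ u v, u ≠ v → Far (p u) (p v)) (hcard : Ω.card ≤ d * r * m)
    (hslack : ∀ S : Fin d → Finset (Fin r), (∃ x, (S x).Nonempty) → (∃ x, S x ≠ univ) →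
      (inBox Ω S).card + M ≤ m * ∑ x, (S x).card)
    (hM : d * r * (2 * ((d * r + 1) * (1 + (d - 1) * r))) * (d * r + 1) ≤ M) : Exps Ω m := by
  have hN : 2 * ((d * r + 1) * (1 + (d - 1) * r)) = 2 * ((d * r + 1) * (1 + (d - 1) * r)) := rfl
  exact asm_aux hd hr rfl rfl hN Ω m M x₀ x₁ h01 Z p hp hfar hcard hslack hM

end Pool.Agent.BSubE
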