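import Mathlib
import Pool.Agent.Lib.MP_79bff1_ag_E.Defs

set_option autoImplicit false

/-!
# Entries which are not far from a given entry
`¬ Far a b` means: there are coordinates `x, y` such that `b z = a z` for all `z ≠ x, y`. For
given `x, y` there are at most `r ^ 2` such `b` (determined by `b x`, `b y`), so in total at most
`d ^ 2 * r ^ 2`.
-/

namespace Pool.Agent.BSubE

open Finset

open Classical in
theorem ball_card {d r : ℕ} (a : Fin d → Fin r) :
    (univ.filter fun b : Fin d → Fin r => ¬ Far a b).card ≤ (d * r) ^ 2 := by
  have h1 : (univ.filter fun b : Fin d → Fin r => ¬ Far a b) ⊆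
      (univ : Finset ((Fin d × Fin r) × (Fin d × Fin r))).image
        (fun p => Function.update (Function.update a p.1.1 p.1.2) p.2.1 p.2.2) := by
    intro b hb
    have hb' : ¬ Far a b := (mem_filter.1 hb).2
    unfold Far at hb'
    push Not at hb'
    obtain ⟨x, y, h⟩ := hb'
    refine mem_image.2 ⟨((x, b x), (y, b y)), mem_univ _, ?_⟩
    funext z
    by_cases hy : z = y
    · subst hy
      simp
    · by_cases hx : z = x
      · subst hx
        simp [Function.update_of_ne hy]
      · simp [Function.update_of_ne hy, Function.update_of_ne hx, h z hx hy]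
  refine (card_le_card h1).trans (card_image_le.trans ?_)
  rw [card_univ, Fintype.card_prod, Fintype.card_prod, Fintype.card_fin, Fintype.card_fin]
  exact le_of_eq (by ring)

theorem far_symm {d r : ℕ} {a b : Fin d → Fin r} (h : Far a b) : Far b a := by
  intro x y
  obtain ⟨z, hx, hy, hz⟩ := h x y
  exact ⟨z, hx, hy, fun e => hz e.symm⟩

end Pool.Agent.BSubE
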