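import Mathlib

set_option autoImplicit false

/-!
# `(r - 1) ^ (d - 2) ≥ r ^ (d - 2) / 5`
`(r / (r - 1)) ^ (d - 2) ≤ (1 + 1 / (r - 1)) ^ (r - 1) ≤ exp 1 < 5` (`Real.add_one_le_exp`,
`Real.exp_one_lt_d9`).
-/

namespace Pool.Agent.BSubE

open Finset

theorem pow_pred_ge {d r : ℕ} (hd : 2 ≤ d) (hdr : d ≤ r) :
    (r : ℝ) ^ (d - 2) ≤ 5 * ((r : ℝ) - 1) ^ (d - 2) := by
  obtain ⟨m, rfl⟩ : ∃ m, r = m + 1 := ⟨r - 1, by omega⟩
  have hm : 1 ≤ m := by omega
  have hm' : (1 : ℝ) ≤ (m : ℝ) := by exact_mod_cast hm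
  have hm0 : (0 : ℝ) < m := by linarith
  have h1 : ((m : ℝ) + 1) / m = 1 / m + 1 := by field_simp; ring
  have h2 : (1 / (m : ℝ) + 1) ^ (d - 2) ≤ Real.exp 1 := by
    calc (1 / (m : ℝ) + 1) ^ (d - 2) ≤ (1 / (m : ℝ) + 1) ^ m :=
          pow_le_pow_right₀ (by have : 0 < 1 / (m : ℝ) := by positivity
                                linarith) (by omega)
      _ ≤ (Real.exp (1 / (m : ℝ))) ^ m :=
          pow_le_pow_left₀ (by positivity) (Real.add_one_le_exp _) m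
      _ = Real.exp 1 := by
          rw [← Real.exp_nat_mul]
          congr 1
          field_simp
  have h3 : Real.exp 1 ≤ 5 := by linarith [Real.exp_one_lt_d9]
  have h4 : (((m + 1 : ℕ) : ℝ)) - 1 = m := by push_cast; ring
  rw [h4]
  have h5 : (((m + 1 : ℕ) : ℝ)) = (1 / (m : ℝ) + 1) * m := by
    push_cast
    field_simp
    ring
  rw [h5, mul_pow]
  exact mul_le_mul_of_nonneg_right (h2.trans h3) (by positivity)

end Pool.Agent.BSubE
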