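import Mathlib
import Pool.Agent.Lib.MP_79bff1_ag_E.Defs
import Pool.Agent.Lib.MP_79bff1_ag_E.Fib

set_option autoImplicit false

/-!
# The two top levels
`LA = {f : f a = T}` has `r ^ (d - 1)` elements, `LB = {f : f b = U, f x ≤ U for all x}` has
`(r - 1) ^ (d - 1)` elements (`card_fib`); they are disjoint (`f a = T` versus `f a ≤ U`). An
`f ∈ LA ∪ LB` which is not near-diagonal satisfies `Hb τ f` (constant entries are
near-diagonal), so it is in `Om τ`. Hence `(LA ∪ LB) \\ (box S) ⊆ (Om τ \\ box S) ∪ {Nd}`, and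
there are at most `d * r ^ 2` near-diagonal entries (coordinate, value there, common value).
`LA` meets the box in at most `∏_{x ≠ a} |S x|` entries, in none if `T ∉ S a`; `LB` meets it in at
most `∏_{x ≠ b} |S x ∩ [0, U]|` entries.
-/

namespace Pool.Agent.BSubE

open Finset

open Classical in
private theorem hit_nd {d r : ℕ} :
    ((univ : Finset (Fin d → Fin r)).filter fun f => Nd f).card ≤ d * r ^ 2 := by
  have h1 : ((univ : Finset (Fin d → Fin r)).filter fun f => Nd f) ⊆
      (univ : Finset (Fin d × Fin r × Fin r)).image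
        fun p => fun y => if y = p.1 then p.2.1 else p.2.2 := by
    intro f hf
    obtain ⟨x, s, hs⟩ := (mem_filter.1 hf).2
    refine mem_image.2 ⟨(x, f x, s), mem_univ _, ?_⟩
    funext y
    dsimp only
    split_ifs with hy
    · rw [hy]
    · exact (hs y hy).symm
  refine (card_le_card h1).trans (card_image_le.trans (le_of_eq ?_))
  rw [card_univ, Fintype.card_prod, Fintype.card_prod, Fintype.card_fin, Fintype.card_fin]
  ring

open Classical in
theorem hit_lower {d r : ℕ} (hd : 2 ≤ d) (τ : Fin r → Fin d) (T U : Fin r)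
    (hT : T.val + 1 = r) (hU : U.val + 2 = r) (a b : Fin d) (hτT : τ T = a) (hτU : τ U = b)
    (S : Fin d → Finset (Fin r)) :
    r ^ (d - 1) + (r - 1) ^ (d - 1) + (inBox (Om τ) S).card ≤
      (Om τ).card + d * r ^ 2 + (if T ∈ S a then ∏ x ∈ univ.erase a, (S x).card else 0) +
        ∏ x ∈ univ.erase b, ((S x).filter fun l => l ≤ U).card := by
  obtain ⟨LA, hLA⟩ : ∃ LA : Finset (Fin d → Fin r), LA = univ.filter fun f => f a = T :=
    ⟨_, rfl⟩
  obtain ⟨LB, hLB⟩ : ∃ LB : Finset (Fin d → Fin r),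
      LB = univ.filter fun f => f b = U ∧ ∀ x, f x ≤ U := ⟨_, rfl⟩
  have hmA : ∀ f, f ∈ LA ↔ f a = T := fun f => by rw [hLA]; simp
  have hmB : ∀ f, f ∈ LB ↔ f b = U ∧ ∀ x, f x ≤ U := fun f => by rw [hLB]; simp
  have hUT : U < T := by
    rw [Fin.lt_def]
    omega
  have hmax : ∀ l : Fin r, l ≤ T := by
    intro l
    rw [Fin.le_def]
    omega
  -- the sizes
  have hcA : LA.card = r ^ (d - 1) := by
    have h1 := card_fib a T (fun _ => (univ : Finset (Fin r)))
    simp only [mem_univ, implies_true, and_true] at h1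
    rw [hLA]
    convert h1 using 1
    rw [prod_const, card_erase_of_mem (mem_univ a), card_univ, card_univ, Fintype.card_fin,
      Fintype.card_fin]
  have hcB : LB.card = (r - 1) ^ (d - 1) := by
    have h1 := card_fib b U (fun _ => Finset.Iic U)
    have h2 : LB = (univ : Finset (Fin d → Fin r)).filter
        fun f => f b = U ∧ ∀ x, x ≠ b → f x ∈ Finset.Iic U := by
      ext f
      rw [hmB]
      simp only [mem_filter, mem_univ, true_and, mem_Iic]
      constructor
      · rintro ⟨h3, h4⟩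
        exact ⟨h3, fun x _ => h4 x⟩
      · rintro ⟨h3, h4⟩
        refine ⟨h3, fun x => ?_⟩
        by_cases hx : x = b
        · rw [hx, h3]
        · exact h4 x hx
    rw [h2]
    convert h1 using 1
    rw [prod_const, card_erase_of_mem (mem_univ b), card_univ, Fintype.card_fin, Fin.card_Iic]
    congr 1
    omega
  have hdisj : Disjoint LA LB := by
    rw [disjoint_left]
    intro f hfA hfB
    rw [hmA] at hfA
    have := ((hmB f).1 hfB).2 a
    rw [hfA] at this
    exact absurd hUT (not_lt.2 this)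
  -- the box
  obtain ⟨Bx, hBx⟩ : ∃ Bx : Finset (Fin d → Fin r), Bx = univ.filter fun f => ∀ x, f x ∈ S x :=
    ⟨_, rfl⟩
  have hmX : ∀ f, f ∈ Bx ↔ ∀ x, f x ∈ S x := fun f => by rw [hBx]; simp
  have hmI : ∀ f, f ∈ inBox (Om τ) S ↔ f ∈ Om τ ∧ f ∈ Bx := by
    intro f
    rw [hmX]
    unfold inBox
    rw [mem_filter]
  have hOm : ∀ f, f ∈ LA ∪ LB → ¬ Nd f → f ∈ Om τ := by
    intro f hf hnd
    have hconst : ∀ k, ∃ x, f x ≠ k := by
      intro k
      by_contra hcon
      push Not at hcon
      exact hnd ⟨a, k, fun y _ => hcon y⟩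
    unfold Om
    rw [mem_filter]
    refine ⟨mem_univ _, ?_, hnd⟩
    rcases mem_union.1 hf with h1 | h1
    · exact ⟨T, by rw [hτT]; exact (hmA f).1 h1, fun x => hmax _, hconst T⟩
    · exact ⟨U, by rw [hτU]; exact ((hmB f).1 h1).1, ((hmB f).1 h1).2, hconst U⟩
  have hsub : (LA ∪ LB) \ Bx ⊆ (Om τ \ inBox (Om τ) S) ∪
      ((univ : Finset (Fin d → Fin r)).filter fun f => Nd f) := by
    intro f hf
    rw [mem_sdiff] at hf
    rw [mem_union, mem_sdiff, mem_filter]
    by_cases hnd : Nd f
    · exact Or.inr ⟨mem_univ _, hnd⟩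
    · exact Or.inl ⟨hOm f hf.1 hnd, fun h => hf.2 ((hmI f).1 h).2⟩
  have h1 : ((LA ∪ LB) \ Bx).card ≤ (Om τ \ inBox (Om τ) S).card + d * r ^ 2 :=
    (card_le_card hsub).trans ((card_union_le _ _).trans
      (Nat.add_le_add_left hit_nd _))
  have h2 : (Om τ \ inBox (Om τ) S).card + (inBox (Om τ) S).card = (Om τ).card := by
    refine card_sdiff_add_card_eq_card fun f hf => ?_
    exact ((hmI f).1 hf).1
  have h3 : (LA ∪ LB).card = LA.card + LB.card := card_union_of_disjoint hdisj
  have h4 : (LA ∪ LB).card ≤ ((LA ∪ LB) \ Bx).card + ((LA ∪ LB) ∩ Bx).card := by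
    rw [add_comm, card_inter_add_card_sdiff]
  have h5 : ((LA ∪ LB) ∩ Bx).card ≤ (LA ∩ Bx).card + (LB ∩ Bx).card := by
    rw [union_inter_distrib_right]
    exact card_union_le _ _
  have h6 : (LA ∩ Bx).card ≤ (if T ∈ S a then ∏ x ∈ univ.erase a, (S x).card else 0) := by
    split_ifs with hTS
    · rw [← card_fib a T S]
      refine card_le_card fun f hf => ?_
      rw [mem_inter, hmA, hmX] at hf
      rw [mem_filter]
      exact ⟨mem_univ _, hf.1, fun x _ => hf.2 x⟩
    · rw [Nat.le_zero, card_eq_zero]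
      ext f
      simp only [notMem_empty, iff_false, mem_inter]
      rintro ⟨h7, h8⟩
      rw [hmA] at h7
      rw [hmX] at h8
      exact hTS (h7 ▸ h8 a)
  have h7 : (LB ∩ Bx).card ≤ ∏ x ∈ univ.erase b, ((S x).filter fun l => l ≤ U).card := by
    rw [← card_fib b U (fun x => (S x).filter fun l => l ≤ U)]
    refine card_le_card fun f hf => ?_
    rw [mem_inter, hmB, hmX] at hf
    rw [mem_filter]
    exact ⟨mem_univ _, hf.1.1, fun x _ => mem_filter.2 ⟨hf.2 x, hf.1.2 x⟩⟩
  omega

end Pool.Agent.BSubE
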