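import Mathlib
import Pool.Agent.Lib.MP_79bff1_ag_E.Defs

set_option autoImplicit false

/-!
# The number of entries of the hierarchical pattern
For each `k : Fin r` the entries with `f (τ k) = k`, `f x ≤ k` for all `x` and `f` not constant
equal to `k`: there are `(k + 1) ^ (d - 1) - 1` of them (free values `≤ k` off `τ k`, minus the
constant one). The levels are disjoint, since `k` is the maximum of `f`.
-/

namespace Pool.Agent.BSubE

open Finset

open Classical in
/-- the entries of level `k` -/
noncomputable def cnth_lev {d r : ℕ} (τ : Fin r → Fin d) (k : Fin r) : Finset (Fin d → Fin r) :=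
  (Fintype.piFinset fun x => if x = τ k then {k} else Finset.Iic k).erase fun _ => k

theorem cnth_mem {d r : ℕ} {τ : Fin r → Fin d} {k : Fin r} {f : Fin d → Fin r} :
    f ∈ cnth_lev τ k ↔ f (τ k) = k ∧ (∀ x, f x ≤ k) ∧ ∃ x, f x ≠ k := by
  classical
  unfold cnth_lev
  rw [mem_erase, Fintype.mem_piFinset]
  constructor
  · rintro ⟨h1, h2⟩
    have h3 : f (τ k) = k := by simpa using h2 (τ k)
    refine ⟨h3, fun x => ?_, ?_⟩
    · by_cases hx : x = τ k
      · rw [hx, h3]
      · have h4 := h2 x
        rw [if_neg hx, mem_Iic] at h4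
        exact h4
    · by_contra h4
      push Not at h4
      exact h1 (funext h4)
  · rintro ⟨h1, h2, x, hx⟩
    refine ⟨fun h3 => hx (congrFun h3 x), fun y => ?_⟩
    split_ifs with hy
    · rw [hy, h1]
      exact mem_singleton_self k
    · exact mem_Iic.2 (h2 y)

theorem cnth_card {d r : ℕ} (τ : Fin r → Fin d) (k : Fin r) :
    (cnth_lev τ k).card = ((k : ℕ) + 1) ^ (d - 1) - 1 := by
  classical
  unfold cnth_lev
  rw [card_erase_of_mem, Fintype.card_piFinset, ← mul_prod_erase univ _ (mem_univ (τ k)),
    if_pos rfl, card_singleton, one_mul]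
  · congr 1
    rw [prod_congr rfl fun x hx => by rw [if_neg (ne_of_mem_erase hx), Fin.card_Iic],
      prod_const, card_erase_of_mem (mem_univ _), card_univ, Fintype.card_fin]
  · rw [Fintype.mem_piFinset]
    intro x
    split_ifs
    · exact mem_singleton_self k
    · exact mem_Iic.2 le_rfl

open Classical in
theorem card_hb {d r : ℕ} (hd : 1 ≤ d) (τ : Fin r → Fin d) :
    (univ.filter fun f : Fin d → Fin r => Hb τ f).card =
      ∑ k ∈ range r, ((k + 1) ^ (d - 1) - 1) := by
  have _ := hd
  have h1 : (univ.filter fun f : Fin d → Fin r => Hb τ f) =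
      univ.biUnion (cnth_lev τ) := by
    ext f
    rw [mem_filter, mem_biUnion]
    constructor
    · rintro ⟨_, k, hk⟩
      exact ⟨k, mem_univ k, cnth_mem.2 hk⟩
    · rintro ⟨k, _, hk⟩
      exact ⟨mem_univ f, k, cnth_mem.1 hk⟩
  rw [h1, card_biUnion, sum_range]
  · exact sum_congr rfl fun k _ => cnth_card τ k
  · intro k _ k' _ hne
    change Disjoint (cnth_lev τ k) (cnth_lev τ k')
    rw [disjoint_left]
    intro f hf hf'
    obtain ⟨h2, h3, _⟩ := cnth_mem.1 hf
    obtain ⟨h4, h5, _⟩ := cnth_mem.1 hf'
    apply hne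
    apply le_antisymm
    · rw [← h2]
      exact h5 _
    · rw [← h4]
      exact h3 _

end Pool.Agent.BSubE
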