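import Mathlib
import Pool.Agent.Lib.MP_79bff1_ag_E.Defs

set_option autoImplicit false

/-!
# The number of near-diagonal entries of the hierarchical pattern
For a coordinate `x` and labels `i < j` consider `f = (j, ..., j)` with value `i` at `x` and
`g = (i, ..., i)` with value `j` at `x`. `Hb τ f` holds iff `τ j ≠ x`, `Hb τ g` holds iff
`τ j = x` (the label `j` occurs in `g` only at `x`). So exactly one of the two has `Hb`. As
`d ≥ 3`, a nonconstant near-diagonal entry determines its exceptional coordinate `x` and its main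
value; so the number is (number of `(x, i, j)` with `i < j`) `= d * (r (r - 1) / 2)`.
(Constant entries do not satisfy `Hb`.)
-/

namespace Pool.Agent.BSubE

open Finset

/-- the value `s`, except `t` at `x` -/
private def cntn_u {d r : ℕ} (x : Fin d) (s t : Fin r) : Fin d → Fin r :=
  fun y => if y = x then t else s

private theorem cntn_u_same {d r : ℕ} (x : Fin d) (s t : Fin r) : cntn_u x s t x = t :=
  if_pos rfl

private theorem cntn_u_ne {d r : ℕ} {x y : Fin d} (s t : Fin r) (h : y ≠ x) :
    cntn_u x s t y = s := if_neg h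

private theorem cntn_u_inj {d r : ℕ} (hd : 3 ≤ d) {x x' : Fin d} {s t s' t' : Fin r}
    (h : cntn_u x s t = cntn_u x' s' t') (h1 : s ≠ t) : x = x' ∧ s = s' ∧ t = t' := by
  obtain ⟨y, hy1, hy2⟩ : ∃ y : Fin d, y ≠ x ∧ y ≠ x' := by
    have hcard : ({x, x'} : Finset (Fin d)).card < (univ : Finset (Fin d)).card := by
      rw [card_univ, Fintype.card_fin]
      exact lt_of_le_of_lt (card_le_two) (by omega)
    obtain ⟨y, -, hy⟩ := exists_mem_notMem_of_card_lt_card hcard
    rw [mem_insert, mem_singleton, not_or] at hy
    exact ⟨y, hy⟩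
  have hs : s = s' := by
    have := congrFun h y
    rwa [cntn_u_ne _ _ hy1, cntn_u_ne _ _ hy2] at this
  have hx : x = x' := by
    by_contra hcon
    have := congrFun h x
    rw [cntn_u_same, cntn_u_ne _ _ hcon] at this
    exact h1 (hs.trans this.symm)
  refine ⟨hx, hs, ?_⟩
  have := congrFun h x
  rw [cntn_u_same, hx, cntn_u_same] at this
  exact this

open Classical in
/-- the entry of the pattern -/
private noncomputable def cntn_e {d r : ℕ} (τ : Fin r → Fin d)
    (p : Fin d × Fin r × Fin r) : Fin d → Fin r :=
  if τ p.2.2 = p.1 then cntn_u p.1 p.2.1 p.2.2 else cntn_u p.1 p.2.2 p.2.1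

private theorem cntn_card (r : ℕ) :
    ((univ : Finset (Fin r × Fin r)).filter fun p => p.1 < p.2).card = r * (r - 1) / 2 := by
  classical
  have h1 : ((univ : Finset (Fin r × Fin r)).filter fun p => p.1 < p.2).card =
      ∑ j : Fin r, ((univ : Finset (Fin r)).filter fun i => i < j).card := by
    rw [card_eq_sum_card_fiberwise (f := Prod.snd) (t := univ) (fun _ _ => mem_coe.2 (mem_univ _))]
    refine sum_congr rfl fun j _ => ?_
    refine card_bij (fun p _ => p.1) ?_ ?_ ?_
    · intro p hp
      simp only [mem_filter, mem_univ, true_and] at hp ⊢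
      rw [← hp.2]
      exact hp.1
    · intro p hp q hq h
      simp only [mem_filter, mem_univ, true_and] at hp hq
      exact Prod.ext h (hp.2.trans hq.2.symm)
    · intro i hi
      simp only [mem_filter, mem_univ, true_and] at hi
      exact ⟨(i, j), by simp only [mem_filter, mem_univ, true_and]; exact ⟨hi, trivial⟩, rfl⟩
  rw [h1]
  have h2 : ∀ j : Fin r, ((univ : Finset (Fin r)).filter fun i => i < j).card = (j : ℕ) := by
    intro j
    have : ((univ : Finset (Fin r)).filter fun i => i < j) = Finset.Iio j := by
      ext i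
      simp
    rw [this, Fin.card_Iio]
  rw [sum_congr rfl fun j _ => h2 j, Fin.sum_univ_eq_sum_range (fun j => j) r,
    sum_range_id]

open Classical in
theorem card_hb_nd {d r : ℕ} (hd : 3 ≤ d) (τ : Fin r → Fin d) :
    (univ.filter fun f : Fin d → Fin r => Hb τ f ∧ Nd f).card = d * (r * (r - 1) / 2) := by
  have hother : ∀ x : Fin d, ∃ y : Fin d, y ≠ x := by
    intro x
    by_cases h : x = ⟨0, by omega⟩
    · exact ⟨⟨1, by omega⟩, by rw [h]; simp⟩
    · exact ⟨⟨0, by omega⟩, fun h' => h h'.symm⟩
  rw [← cntn_card r]
  have h1 : d * ((univ : Finset (Fin r × Fin r)).filter fun p => p.1 < p.2).card =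
      ((univ : Finset (Fin d)) ×ˢ
        ((univ : Finset (Fin r × Fin r)).filter fun p => p.1 < p.2)).card := by
    rw [card_product, card_univ, Fintype.card_fin]
  rw [h1]
  symm
  refine card_bij (fun p _ => cntn_e τ p) ?_ ?_ ?_
  · rintro ⟨x, i, j⟩ hp
    simp only [mem_product, mem_filter, mem_univ, true_and] at hp ⊢
    unfold cntn_e
    dsimp only
    split_ifs with hx
    · refine ⟨⟨j, ?_, fun y => ?_, ?_⟩, x, i, fun y hy => cntn_u_ne _ _ hy⟩
      · rw [hx, cntn_u_same]
      · by_cases hy : y = x
        · rw [hy, cntn_u_same]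
        · rw [cntn_u_ne _ _ hy]
          exact hp.le
      · obtain ⟨y, hy⟩ := hother x
        exact ⟨y, by rw [cntn_u_ne _ _ hy]; exact hp.ne⟩
    · refine ⟨⟨j, cntn_u_ne _ _ hx, fun y => ?_, x, ?_⟩, x, j, fun y hy => cntn_u_ne _ _ hy⟩
      · by_cases hy : y = x
        · rw [hy, cntn_u_same]
          exact hp.le
        · rw [cntn_u_ne _ _ hy]
      · rw [cntn_u_same]
        exact hp.ne
  · rintro ⟨x, i, j⟩ hp ⟨x', i', j'⟩ hp' h
    simp only [mem_product, mem_filter, mem_univ, true_and] at hp hp'
    unfold cntn_e at h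
    dsimp only at h
    split_ifs at h with h2 h3 h3
    · obtain ⟨e1, e2, e3⟩ := cntn_u_inj hd h hp.ne
      rw [e1, e2, e3]
    · obtain ⟨e1, e2, e3⟩ := cntn_u_inj hd h hp.ne
      rw [e2, e3] at hp
      exact absurd (hp.trans hp') (lt_irrefl _)
    · obtain ⟨e1, e2, e3⟩ := cntn_u_inj hd h hp.ne'
      rw [e2, e3] at hp
      exact absurd (hp.trans hp') (lt_irrefl _)
    · obtain ⟨e1, e2, e3⟩ := cntn_u_inj hd h hp.ne'
      rw [e1, e2, e3]
  · intro f hf
    simp only [mem_filter, mem_univ, true_and] at hf
    obtain ⟨⟨k, hk1, hk2, z, hz⟩, x, s, hs⟩ := hf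
    have hfu : f = cntn_u x s (f x) := by
      funext y
      by_cases hy : y = x
      · rw [hy, cntn_u_same]
      · rw [cntn_u_ne _ _ hy, hs y hy]
    have hne : f x ≠ s := by
      intro h
      have hall : ∀ y, f y = s := by
        intro y
        by_cases hy : y = x
        · rw [hy, h]
        · exact hs y hy
      exact hz ((hall z).trans ((hall (τ k)).symm.trans hk1))
    obtain ⟨y, hy⟩ := hother x
    rcases lt_or_gt_of_ne hne with hlt | hlt
    · -- the label at `x` is the smaller one
      have hks : k = s := by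
        by_cases hx : τ k = x
        · rw [hx] at hk1
          have := hk2 y
          rw [hs y hy, ← hk1] at this
          exact absurd hlt (not_lt.2 this)
        · rw [← hk1, hs _ hx]
      have hx : τ s ≠ x := by
        intro hx
        rw [hks, hx] at hk1
        exact hne hk1
      refine ⟨(x, f x, s), ?_, ?_⟩
      · simp only [mem_product, mem_filter, mem_univ, true_and]
        exact hlt
      · unfold cntn_e
        dsimp only
        rw [if_neg hx]
        exact hfu.symm
    · have hkx : k = f x := by
        by_cases hx : τ k = x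
        · rw [← hk1, hx]
        · rw [hs _ hx] at hk1
          have := hk2 x
          rw [← hk1] at this
          exact absurd hlt (not_lt.2 this)
      have hx : τ (f x) = x := by
        by_contra hx
        rw [hkx, hs _ hx] at hk1
        exact hne hk1.symm
      refine ⟨(x, s, f x), ?_, ?_⟩
      · simp only [mem_product, mem_filter, mem_univ, true_and]
        exact hlt
      · unfold cntn_e
        dsimp only
        rw [if_pos hx]
        exact hfu.symm

end Pool.Agent.BSubE
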