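import Mathlib
import Pool.Agent.Lib.MP_79bff1_ag_E.Defs
import Pool.Agent.Lib.MP_79bff1_ag_E.CntH
import Pool.Agent.Lib.MP_79bff1_ag_E.CntN

set_option autoImplicit false

/-!
# The cardinality of `Om` and real bounds
`card_om` follows from `card_hb` and `card_hb_nd` (`Om` = those with `Hb` minus those with `Hb`
and `Nd`). Bounds: `r ^ d / d ≤ ∑_{k=1}^r k ^ (d - 1) ≤ r ^ d / d + r ^ (d - 1)` (induction on `r`,
`(r+1)^d - r^d` lies between `d r ^ (d-1)` and `d (r+1) ^ (d-1)`), the subtracted terms are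
`∑ 1 = r` and `d r (r - 1) / 2 ≤ d r ^ 2 / 2`.
-/

namespace Pool.Agent.BSubE

open Finset

theorem card_om {d r : ℕ} (hd : 3 ≤ d) (τ : Fin r → Fin d) :
    (Om τ).card + d * (r * (r - 1) / 2) = ∑ k ∈ range r, ((k + 1) ^ (d - 1) - 1) := by
  classical
  rw [← card_hb (by omega) τ, ← card_hb_nd hd τ]
  have h1 := Finset.card_filter_add_card_filter_not
    (s := univ.filter fun f : Fin d → Fin r => Hb τ f) (fun f => Nd f)
  rw [Finset.filter_filter, Finset.filter_filter] at h1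
  rw [add_comm]
  convert h1 using 2
  unfold Om
  congr

private theorem omb_diff_le (a : ℝ) (ha : 0 ≤ a) (k : ℕ) :
    (a + 1) ^ (k + 1) - a ^ (k + 1) ≤ (k + 1) * (a + 1) ^ k := by
  induction k with
  | zero => simp
  | succ k ih =>
    have h1 : a ^ (k + 1) ≤ (a + 1) ^ (k + 1) := pow_le_pow_left₀ ha (by linarith) _
    have h2 : (a + 1) ^ (k + 1 + 1) - a ^ (k + 1 + 1) =
        (a + 1) * ((a + 1) ^ (k + 1) - a ^ (k + 1)) + a ^ (k + 1) := by ring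
    have h3 : (a + 1) * ((a + 1) ^ (k + 1) - a ^ (k + 1)) ≤
        (a + 1) * ((k + 1) * (a + 1) ^ k) := mul_le_mul_of_nonneg_left ih (by linarith)
    rw [h2]
    push_cast
    calc (a + 1) * ((a + 1) ^ (k + 1) - a ^ (k + 1)) + a ^ (k + 1)
        ≤ (a + 1) * ((k + 1) * (a + 1) ^ k) + (a + 1) ^ (k + 1) := add_le_add h3 h1
      _ = ((k : ℝ) + 1 + 1) * (a + 1) ^ (k + 1) := by ring

private theorem omb_le_diff (a : ℝ) (ha : 0 ≤ a) (k : ℕ) :
    ((k : ℝ) + 1) * a ^ k ≤ (a + 1) ^ (k + 1) - a ^ (k + 1) := by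
  induction k with
  | zero => simp
  | succ k ih =>
    have h1 : a ^ (k + 1) ≤ (a + 1) ^ (k + 1) := pow_le_pow_left₀ ha (by linarith) _
    have h2 : (a + 1) ^ (k + 1 + 1) - a ^ (k + 1 + 1) =
        a * ((a + 1) ^ (k + 1) - a ^ (k + 1)) + (a + 1) ^ (k + 1) := by ring
    have h3 : a * (((k : ℝ) + 1) * a ^ k) ≤ a * ((a + 1) ^ (k + 1) - a ^ (k + 1)) :=
      mul_le_mul_of_nonneg_left ih ha
    rw [h2]
    push_cast
    calc ((k : ℝ) + 1 + 1) * a ^ (k + 1) = a * (((k : ℝ) + 1) * a ^ k) + a ^ (k + 1) := by ring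
      _ ≤ a * ((a + 1) ^ (k + 1) - a ^ (k + 1)) + (a + 1) ^ (k + 1) := add_le_add h3 h1

/-- lower bound for the power sum, also used for the range of `n` -/
theorem pow_sum_lower (r k : ℕ) :
    (r : ℝ) ^ (k + 1) / (k + 1) ≤ ∑ i ∈ range r, ((i : ℝ) + 1) ^ k := by
  have hk : (0 : ℝ) < (k : ℝ) + 1 := by positivity
  induction r with
  | zero => simp
  | succ r ih =>
    rw [Finset.sum_range_succ]
    have h1 := omb_diff_le (r : ℝ) (by positivity) k
    have h2 : ((r : ℝ) + 1) ^ (k + 1) / (k + 1) ≤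
        (r : ℝ) ^ (k + 1) / (k + 1) + ((r : ℝ) + 1) ^ k := by
      rw [div_add' _ _ _ hk.ne', div_le_div_iff_of_pos_right hk]
      linarith
    push_cast
    linarith

/-- upper bound for the power sum -/
theorem pow_sum_upper (r k : ℕ) :
    ∑ i ∈ range r, ((i : ℝ) + 1) ^ k ≤ (r : ℝ) ^ (k + 1) / (k + 1) + (r : ℝ) ^ k := by
  have hk : (0 : ℝ) < (k : ℝ) + 1 := by positivity
  induction r with
  | zero =>
    simp only [Finset.range_zero, Finset.sum_empty]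
    positivity
  | succ r ih =>
    rw [Finset.sum_range_succ]
    have h1 := omb_le_diff (r : ℝ) (by positivity) k
    have h2 : (r : ℝ) ^ (k + 1) / (k + 1) + (r : ℝ) ^ k ≤ ((r : ℝ) + 1) ^ (k + 1) / (k + 1) := by
      rw [div_add' _ _ _ hk.ne', div_le_div_iff_of_pos_right hk]
      linarith
    push_cast
    linarith

private theorem omb_sum {d : ℕ} (r : ℕ) :
    ((∑ k ∈ range r, ((k + 1) ^ (d - 1) - 1) : ℕ) : ℝ) =
      ∑ i ∈ range r, ((i : ℝ) + 1) ^ (d - 1) - r := by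
  rw [Nat.cast_sum]
  have h1 : ∀ k ∈ range r, (((k + 1) ^ (d - 1) - 1 : ℕ) : ℝ) = ((k : ℝ) + 1) ^ (d - 1) - 1 := by
    intro k _
    rw [Nat.cast_sub (Nat.one_le_pow _ _ (by omega))]
    push_cast
    rfl
  rw [Finset.sum_congr rfl h1, Finset.sum_sub_distrib, Finset.sum_const, Finset.card_range]
  simp

private theorem omb_d {d : ℕ} (hd : 3 ≤ d) : d - 1 + 1 = d ∧ (((d - 1 : ℕ) : ℝ) + 1) = d := by
  constructor
  · omega
  · rw [Nat.cast_sub (by omega)]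
    simp

theorem om_lower {d r : ℕ} (hd : 3 ≤ d) (τ : Fin r → Fin d) :
    (r : ℝ) ^ d / d - r - d * (r : ℝ) ^ 2 / 2 ≤ ((Om τ).card : ℝ) := by
  have h1 := congrArg (Nat.cast (R := ℝ)) (card_om hd τ)
  rw [omb_sum, Nat.cast_add, Nat.cast_mul] at h1
  have h2 := pow_sum_lower r (d - 1)
  rw [(omb_d hd).1, (omb_d hd).2] at h2
  have h3 : ((r * (r - 1) / 2 : ℕ) : ℝ) ≤ (r : ℝ) ^ 2 / 2 := by
    refine le_trans Nat.cast_div_le ?_
    have h4 : ((r * (r - 1) : ℕ) : ℝ) ≤ (r : ℝ) ^ 2 := by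
      have h5 : r * (r - 1) ≤ r ^ 2 := by
        rw [pow_two]
        exact Nat.mul_le_mul_left _ (Nat.sub_le _ _)
      exact_mod_cast h5
    rw [Nat.cast_ofNat]
    linarith
  have h6 : (d : ℝ) * ((r * (r - 1) / 2 : ℕ) : ℝ) ≤ d * ((r : ℝ) ^ 2 / 2) :=
    mul_le_mul_of_nonneg_left h3 (by positivity)
  have h7 : (d : ℝ) * ((r : ℝ) ^ 2 / 2) = d * (r : ℝ) ^ 2 / 2 := by ring
  linarith

theorem om_upper {d r : ℕ} (hd : 3 ≤ d) (τ : Fin r → Fin d) :
    ((Om τ).card : ℝ) ≤ (r : ℝ) ^ d / d + (r : ℝ) ^ (d - 1) := by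
  have h1 := congrArg (Nat.cast (R := ℝ)) (card_om hd τ)
  rw [omb_sum, Nat.cast_add, Nat.cast_mul] at h1
  have h2 := pow_sum_upper r (d - 1)
  rw [(omb_d hd).1, (omb_d hd).2] at h2
  have h3 : (0 : ℝ) ≤ (d : ℝ) * ((r * (r - 1) / 2 : ℕ) : ℝ) := by positivity
  have h4 : (0 : ℝ) ≤ (r : ℝ) := by positivity
  linarith

end Pool.Agent.BSubE
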