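import Mathlib

set_option autoImplicit false

/-!
# A product inequality
`(1 - t) * (1 + t) ≤ 1` and `∏ (1 + t i) ≥ 1 + ∑ t i`; or directly by induction on `s`:
`(1 - t)(1 + t + Σ) ≤ 1 + Σ` for `0 ≤ t ≤ 1`, `Σ ≥ 0`.
-/

namespace Pool.Agent.BSubE

open Finset

theorem prod_mul_le {ι : Type*} (s : Finset ι) (t : ι → ℝ) (h0 : ∀ i ∈ s, 0 ≤ t i)
    (h1 : ∀ i ∈ s, t i ≤ 1) : (∏ i ∈ s, (1 - t i)) * (1 + ∑ i ∈ s, t i) ≤ 1 := by
  classical
  induction s using Finset.induction_on with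
  | empty => simp
  | insert a s ha ih =>
    have ih' := ih (fun i hi => h0 i (mem_insert_of_mem hi)) (fun i hi => h1 i (mem_insert_of_mem hi))
    have ha0 := h0 a (mem_insert_self a s)
    have hP : 0 ≤ ∏ i ∈ s, (1 - t i) :=
      prod_nonneg fun i hi => by linarith [h1 i (mem_insert_of_mem hi)]
    have hS : 0 ≤ ∑ i ∈ s, t i := sum_nonneg fun i hi => h0 i (mem_insert_of_mem hi)
    rw [prod_insert ha, sum_insert ha]
    have e : (1 - t a) * (∏ i ∈ s, (1 - t i)) * (1 + (t a + ∑ i ∈ s, t i)) =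
        (∏ i ∈ s, (1 - t i)) * (1 + ∑ i ∈ s, t i) -
          (∏ i ∈ s, (1 - t i)) * (t a * (t a + ∑ i ∈ s, t i)) := by ring
    rw [e]
    have h2 : 0 ≤ (∏ i ∈ s, (1 - t i)) * (t a * (t a + ∑ i ∈ s, t i)) := by positivity
    linarith

end Pool.Agent.BSubE
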