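import Mathlib
import Pool.Agent.Lib.MP_79bff1_ag_E.Defs
import Pool.Agent.Lib.MP_79bff1_ag_E.OmB
import Pool.Agent.Lib.MP_79bff1_ag_E.Hit
import Pool.Agent.Lib.MP_79bff1_ag_E.ProdI
import Pool.Agent.Lib.MP_79bff1_ag_E.ExpI

set_option autoImplicit false

/-!
# Hall's inequality, case 1: at most `4 r` classes are missing
`ρ x = r - |S x|`, `ρ = ∑ ρ x = d r - |S|`, `1 ≤ ρ ≤ 4 r`. Work over the reals.
(i) `T ∉ S a`. By `hit_lower` (the last product is at most `(r - 1) ^ (d - 1)`)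
`|Om| - |Om ∩ S| ≥ r ^ (d - 1) - d r ^ 2`. Claim
`d r (r ^ (d-1) - d r ^ 2) ≥ |Om| * 4 r + d r * r ^ 9` from
`|Om| ≤ r ^ d / d + r ^ (d - 1)`: `4 r ^ (d+1) / d ≤ (2/3) d r ^ d` (as `6 r ≤ d ^ 2`),
`4 r ^ d ≤ (1/10) d r ^ d` (as `d ≥ 40`), and `d ^ 2 r ^ 3 + d r ^ 10 ≤ (1/10) d r ^ d`
(as `d ≥ 40`, `r ≥ d`). Since `|Om| |S| = |Om| (d r - ρ) ≥ |Om| d r - 4 r |Om|` we are done.
(ii) `T ∈ S a`. Then `|S a ∩ [0,U]| = |S a| - 1 = r - 1 - ρ a`, so the last product of `hit_lower`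
is at most `(r - 1 - ρ a) (r - 1) ^ (d - 2)` (note `a ≠ b`), and the bracket
`(r-1)^(d-1) - ... ≥ (r-1)^(d-2) ρ a ≥ r ^ (d-2) ρ a / 5` (`pow_pred_ge`). With
`t x = ρ x / r`, `y = ∑_{x ≠ a} t x ≤ 4`, `prod_mul_le` gives
`∏_{x≠a} |S x| = r^(d-1) ∏ (1 - t x) ≤ r^(d-1) / (1 + y)`, so
`r^(d-1) - ∏ ≥ r^(d-1) y / (1 + y) ≥ r^(d-1) y / 5 = r^(d-2) (ρ - ρ a) / 5`.
Together `|Om| - |Om ∩ S| ≥ ρ r^(d-2) / 5 - d r^2`, hence
`d r (|Om| - |Om ∩ S|) - |Om| ρ ≥ ρ r^(d-1) (d/5 - r/d - 1) - d^2 r^3 ≥ r^(d-1) / 3 - d^2 r^3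
≥ d r ^ 10`, using `r/d ≤ d/6` and `d/30 - 1 ≥ 1/3`.
-/

namespace Pool.Agent.BSubE

open Finset

private theorem cas1_erase {r : ℕ} (T U : Fin r) (hT : T.val + 1 = r) (hU : U.val + 2 = r)
    (X : Finset (Fin r)) : (X.filter fun l => l ≤ U) ⊆ X.erase T := by
  intro l hl
  rw [mem_filter] at hl
  rw [mem_erase]
  refine ⟨fun h => ?_, hl.1⟩
  have h1 := hl.2
  rw [h, Fin.le_def] at h1
  omega

private theorem cas1_card {r : ℕ} (T U : Fin r) (hT : T.val + 1 = r) (hU : U.val + 2 = r)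
    (X : Finset (Fin r)) : (X.filter fun l => l ≤ U).card ≤ r - 1 := by
  refine (card_le_card (cas1_erase T U hT hU X)).trans ?_
  refine (card_le_card (erase_subset_erase T (subset_univ X))).trans ?_
  rw [card_erase_of_mem (mem_univ T), card_univ, Fintype.card_fin]

private theorem cas1_B {d r : ℕ} (T U : Fin r) (hT : T.val + 1 = r) (hU : U.val + 2 = r)
    (b : Fin d) (S : Fin d → Finset (Fin r)) :
    ∏ x ∈ univ.erase b, ((S x).filter fun l => l ≤ U).card ≤ (r - 1) ^ (d - 1) := by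
  refine (prod_le_pow_card _ _ (r - 1) fun x _ => cas1_card T U hT hU (S x)).trans ?_
  rw [card_erase_of_mem (mem_univ b), card_univ, Fintype.card_fin]

private theorem cas1_B' {d r : ℕ} (T U : Fin r) (hT : T.val + 1 = r) (hU : U.val + 2 = r)
    (a b : Fin d) (hab : a ≠ b) (S : Fin d → Finset (Fin r)) (hTS : T ∈ S a) :
    ∏ x ∈ univ.erase b, ((S x).filter fun l => l ≤ U).card ≤
      ((S a).card - 1) * (r - 1) ^ (d - 2) := by
  have ha : a ∈ (univ : Finset (Fin d)).erase b := mem_erase.2 ⟨hab, mem_univ a⟩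
  rw [← mul_prod_erase _ _ ha]
  refine Nat.mul_le_mul ?_ ?_
  · refine (card_le_card (cas1_erase T U hT hU (S a))).trans ?_
    rw [card_erase_of_mem hTS]
  · refine (prod_le_pow_card _ _ (r - 1) fun x _ => cas1_card T U hT hU (S x)).trans ?_
    rw [card_erase_of_mem ha, card_erase_of_mem (mem_univ b), card_univ, Fintype.card_fin,
      Nat.sub_sub]

private theorem cas1_A {d r : ℕ} (hd : 2 ≤ d) (hr : 1 ≤ r) (a : Fin d)
    (S : Fin d → Finset (Fin r))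
    (h4 : ∑ x ∈ univ.erase a, ((r : ℝ) - ((S x).card : ℝ)) ≤ 4 * r) :
    (∏ x ∈ univ.erase a, ((S x).card : ℝ)) +
      (r : ℝ) ^ (d - 2) * ((∑ x ∈ univ.erase a, ((r : ℝ) - ((S x).card : ℝ))) / 5) ≤
      (r : ℝ) ^ (d - 1) := by
  have hr0 : (0 : ℝ) < r := by exact_mod_cast hr
  have hcard : ∀ x, ((S x).card : ℝ) ≤ r := fun x => by
    have h := card_le_univ (S x)
    rw [Fintype.card_fin] at h
    exact_mod_cast h
  set y : ℝ := ∑ x ∈ univ.erase a, ((r : ℝ) - ((S x).card : ℝ)) / r with hy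
  have hy0 : 0 ≤ y := sum_nonneg fun x _ => div_nonneg (sub_nonneg.2 (hcard x)) hr0.le
  have hyr : ∑ x ∈ univ.erase a, ((r : ℝ) - ((S x).card : ℝ)) = r * y := by
    rw [hy, ← sum_div]
    field_simp
  have hy4 : y ≤ 4 := by
    rw [hyr] at h4
    have h5 : (r : ℝ) * y ≤ r * 4 := by linarith
    exact le_of_mul_le_mul_left h5 hr0
  have h1 := prod_mul_le ((univ : Finset (Fin d)).erase a)
    (fun x => ((r : ℝ) - ((S x).card : ℝ)) / r)
    (fun x _ => div_nonneg (sub_nonneg.2 (hcard x)) hr0.le)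
    (fun x _ => by
      rw [div_le_one hr0]
      have h : (0 : ℝ) ≤ ((S x).card : ℝ) := Nat.cast_nonneg _
      linarith)
  have h2 : ∏ x ∈ univ.erase a, ((S x).card : ℝ) = (r : ℝ) ^ (d - 1) *
      ∏ x ∈ univ.erase a, (1 - ((r : ℝ) - ((S x).card : ℝ)) / r) := by
    have h3 : ∀ x ∈ (univ : Finset (Fin d)).erase a, ((S x).card : ℝ) =
        (r : ℝ) * (1 - ((r : ℝ) - ((S x).card : ℝ)) / r) := by
      intro x _
      field_simp
      ring
    rw [prod_congr rfl h3, prod_mul_distrib, prod_const, card_erase_of_mem (mem_univ a),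
      card_univ, Fintype.card_fin]
  set P : ℝ := ∏ x ∈ univ.erase a, (1 - ((r : ℝ) - ((S x).card : ℝ)) / r) with hP
  have hP0 : 0 ≤ P := prod_nonneg fun x _ => by
    have h : (1 : ℝ) - ((r : ℝ) - ((S x).card : ℝ)) / r = ((S x).card : ℝ) / r := by
      field_simp
      ring
    rw [h]
    positivity
  have h6 : P * (1 + y) ≤ 1 := h1
  have h7 : P + y / 5 ≤ 1 := by
    have h8 : 0 ≤ (1 - P) * (4 - y) := by
      have h9 : P ≤ 1 := by nlinarith
      exact mul_nonneg (by linarith) (by linarith)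
    nlinarith
  rw [hyr, h2]
  have h10 : (r : ℝ) ^ (d - 1) = r ^ (d - 2) * r := by
    rw [← pow_succ]
    congr 1
    omega
  have h11 : (0 : ℝ) < (r : ℝ) ^ (d - 1) := by positivity
  calc (r : ℝ) ^ (d - 1) * P + (r : ℝ) ^ (d - 2) * (r * y / 5)
      = (r : ℝ) ^ (d - 1) * (P + y / 5) := by rw [h10]; ring
    _ ≤ (r : ℝ) ^ (d - 1) * 1 := mul_le_mul_of_nonneg_left h7 h11.le
    _ = (r : ℝ) ^ (d - 1) := mul_one _

private theorem cas1_num_i (d r P O : ℝ) (hd : 40 ≤ d) (hdr : d ≤ r) (hr : 6 * r ≤ d ^ 2)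
    (hP : r ^ 10 ≤ P) (hO : O ≤ r ^ 2 * P / d + r * P) :
    O * (4 * r) + d * r * r ^ 9 + d * r * (d * r ^ 2) ≤ d * r * (r * P) := by
  have hd0 : 0 < d := by linarith
  have hr0 : 0 < r := by linarith
  have hP0 : 0 < P := lt_of_lt_of_le (by positivity) hP
  have h1 : O * (4 * r) ≤ (r ^ 2 * P / d + r * P) * (4 * r) :=
    mul_le_mul_of_nonneg_right hO (by positivity)
  have h2 : r ^ 2 * P / d ≤ r * P * d / 6 := by
    rw [div_le_iff₀ hd0]
    have h3 : r * P * (6 * r) ≤ r * P * d ^ 2 := mul_le_mul_of_nonneg_left hr (by positivity)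
    nlinarith
  have h4 : d * r * r ^ 9 ≤ d * r * (r * P / 20) := by
    have h5 : r ^ 9 ≤ r * P / 20 := by
      have h6 : r * r ^ 10 ≤ r * P := mul_le_mul_of_nonneg_left hP hr0.le
      have h7 : (20 : ℝ) * r ^ 9 ≤ r ^ 2 * r ^ 9 :=
        mul_le_mul_of_nonneg_right (by nlinarith) (by positivity)
      have h8 : r ^ 2 * r ^ 9 = r * r ^ 10 := by ring
      linarith
    exact mul_le_mul_of_nonneg_left h5 (by positivity)
  have h9 : d * r * (d * r ^ 2) ≤ d * r * (r * P / 20) := by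
    have h10 : d * r ^ 2 ≤ r * P / 20 := by
      have h11 : d * r ^ 2 ≤ r * r ^ 2 := mul_le_mul_of_nonneg_right hdr (by positivity)
      have h12 : (1 : ℝ) ≤ r ^ 6 := one_le_pow₀ (by linarith)
      have h13 : r ^ 3 * 20 ≤ r ^ 3 * (r ^ 2 * r ^ 6) := by
        refine mul_le_mul_of_nonneg_left ?_ (by positivity)
        nlinarith
      have h14 : r * r ^ 10 ≤ r * P := mul_le_mul_of_nonneg_left hP hr0.le
      have h15 : r ^ 3 * (r ^ 2 * r ^ 6) = r * r ^ 10 := by ring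
      have h16 : r * r ^ 2 = r ^ 3 := by ring
      linarith
    exact mul_le_mul_of_nonneg_left h10 (by positivity)
  have h17 : (r ^ 2 * P / d + r * P) * (4 * r) ≤ (r * P * d / 6 + r * P * (d / 40)) * (4 * r) := by
    refine mul_le_mul_of_nonneg_right ?_ (by positivity)
    have h18 : r * P * 1 ≤ r * P * (d / 40) :=
      mul_le_mul_of_nonneg_left (by linarith) (by positivity)
    linarith
  have h19 : (0 : ℝ) < d * r * (r * P) := by positivity
  nlinarith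

private theorem cas1_num_ii (d r P O ρ : ℝ) (hd : 40 ≤ d) (hdr : d ≤ r) (hr : 6 * r ≤ d ^ 2)
    (hP : r ^ 11 ≤ P) (hO : O ≤ r ^ 2 * P / d + r * P) (hρ : 1 ≤ ρ) :
    O * ρ + d * r * r ^ 9 + d * r * (d * r ^ 2) ≤ d * r * (P * (ρ / 5)) := by
  have hd0 : 0 < d := by linarith
  have hr0 : 0 < r := by linarith
  have hP0 : 0 < P := lt_of_lt_of_le (by positivity) hP
  have h1 : O * ρ ≤ (r ^ 2 * P / d + r * P) * ρ :=
    mul_le_mul_of_nonneg_right hO (by positivity)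
  have h2 : r ^ 2 * P / d ≤ r * P * d / 6 := by
    rw [div_le_iff₀ hd0]
    have h3 : r * P * (6 * r) ≤ r * P * d ^ 2 := mul_le_mul_of_nonneg_left hr (by positivity)
    nlinarith
  have h3 : (r ^ 2 * P / d + r * P) * ρ ≤ (r * P * d / 6 + r * P) * ρ :=
    mul_le_mul_of_nonneg_right (by linarith) (by linarith)
  have h4 : r * P * (1 / 3) ≤ r * P * ((d / 30 - 1) * ρ) := by
    refine mul_le_mul_of_nonneg_left ?_ (by positivity)
    nlinarith
  have h5 : d * r * r ^ 9 ≤ r * P / 6 := by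
    have h6 : d * r ^ 9 ≤ r * r ^ 9 := mul_le_mul_of_nonneg_right hdr (by positivity)
    have h7 : r ^ 10 * 6 ≤ r ^ 10 * r := mul_le_mul_of_nonneg_left (by linarith) (by positivity)
    have h8 : d * r ^ 9 ≤ P / 6 := by
      have e1 : r * r ^ 9 = r ^ 10 := by ring
      have e2 : r ^ 10 * r = r ^ 11 := by ring
      linarith
    have h9 : r * (d * r ^ 9) ≤ r * (P / 6) := mul_le_mul_of_nonneg_left h8 hr0.le
    linarith
  have h10 : d * r * (d * r ^ 2) ≤ r * P / 6 := by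
    have h6 : d * (d * r ^ 2) ≤ r * (r * r ^ 2) := by
      refine mul_le_mul hdr ?_ (by positivity) hr0.le
      exact mul_le_mul_of_nonneg_right hdr (by positivity)
    have h12 : (1 : ℝ) ≤ r ^ 6 := one_le_pow₀ (by linarith)
    have h7 : r ^ 4 * 6 ≤ r ^ 4 * (r * r ^ 6) := by
      refine mul_le_mul_of_nonneg_left ?_ (by positivity)
      nlinarith
    have h8 : d * (d * r ^ 2) ≤ P / 6 := by
      have e1 : r * (r * r ^ 2) = r ^ 4 := by ring
      have e2 : r ^ 4 * (r * r ^ 6) = r ^ 11 := by ring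
      linarith
    have h9 : r * (d * (d * r ^ 2)) ≤ r * (P / 6) := mul_le_mul_of_nonneg_left h8 hr0.le
    linarith
  have e3 : d * r * (P * (ρ / 5)) = (r * P * d / 6 + r * P) * ρ +
      r * P * ((d / 30 - 1) * ρ) := by ring
  rw [e3]
  linarith

theorem case_one {d r : ℕ} (hd : 40 ≤ d) (hdr : d ≤ r) (hr : 6 * r ≤ d ^ 2)
    (τ : Fin r → Fin d) (T U : Fin r) (hT : T.val + 1 = r) (hU : U.val + 2 = r) (a b : Fin d)
    (hτT : τ T = a) (hτU : τ U = b) (hab : a ≠ b) (S : Fin d → Finset (Fin r))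
    (h1 : ∃ x, S x ≠ univ) (hρ : d * r ≤ ∑ x, (S x).card + 4 * r) :
    d * r * (inBox (Om τ) S).card + d * r * r ^ 9 ≤ (Om τ).card * ∑ x, (S x).card := by
  classical
  have hd' : (40 : ℝ) ≤ d := by exact_mod_cast hd
  have hdr' : (d : ℝ) ≤ r := by exact_mod_cast hdr
  have hr' : 6 * (r : ℝ) ≤ (d : ℝ) ^ 2 := by exact_mod_cast hr
  have hr0 : (0 : ℝ) < r := by linarith
  have hr1 : (1 : ℝ) ≤ r := by linarith
  have hcard : ∀ x, (S x).card ≤ r := fun x => by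
    have h := card_le_univ (S x)
    rwa [Fintype.card_fin] at h
  have hcard' : ∀ x, ((S x).card : ℝ) ≤ r := fun x => by exact_mod_cast hcard x
  have hO0 : (0 : ℝ) ≤ ((Om τ).card : ℝ) := Nat.cast_nonneg _
  have hup := om_upper (by omega) τ
  have ed : (r : ℝ) ^ d = r ^ 2 * r ^ (d - 2) := by
    rw [← pow_add]
    congr 1
    omega
  have ed1 : (r : ℝ) ^ (d - 1) = r * r ^ (d - 2) := by
    rw [← pow_succ']
    congr 1
    omega
  have hhit := hit_lower (by omega) τ T U hT hU a b hτT hτU S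
  -- the missing classes
  set ρ : ℝ := ∑ x, ((r : ℝ) - ((S x).card : ℝ)) with hρdef
  have hρs : ρ = d * r - ((∑ x, (S x).card : ℕ) : ℝ) := by
    rw [hρdef, sum_sub_distrib, sum_const, card_univ, Fintype.card_fin, nsmul_eq_mul,
      Nat.cast_sum]
  have hρ4 : ρ ≤ 4 * r := by
    have h : (d : ℝ) * r ≤ ((∑ x, (S x).card : ℕ) : ℝ) + 4 * r := by exact_mod_cast hρ
    linarith
  have hρ1 : 1 ≤ ρ := by
    obtain ⟨x, hx⟩ := h1
    have h2 : (S x).card < r := by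
      refine lt_of_le_of_ne (hcard x) fun h => hx ?_
      exact (card_eq_iff_eq_univ _).1 (by rw [h, Fintype.card_fin])
    have h3 : ((S x).card : ℝ) + 1 ≤ r := by exact_mod_cast h2
    have h4 : (r : ℝ) - ((S x).card : ℝ) ≤ ρ :=
      single_le_sum (f := fun x => (r : ℝ) - ((S x).card : ℝ))
        (fun x _ => sub_nonneg.2 (hcard' x)) (mem_univ x)
    linarith
  have hP10 : (r : ℝ) ^ 11 ≤ r ^ (d - 2) := pow_le_pow_right₀ hr1 (by omega)
  have hP9 : (r : ℝ) ^ 10 ≤ r ^ (d - 2) := pow_le_pow_right₀ hr1 (by omega)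
  rw [ed, ed1] at hup
  suffices H : (d : ℝ) * r * ((inBox (Om τ) S).card : ℝ) + d * r * (r : ℝ) ^ 9 ≤
      ((Om τ).card : ℝ) * ((∑ x, (S x).card : ℕ) : ℝ) by exact_mod_cast H
  have hs : ((∑ x, (S x).card : ℕ) : ℝ) = d * r - ρ := by rw [hρs]; ring
  rw [hs]
  by_cases hTa : T ∈ S a
  · rw [if_pos hTa] at hhit
    have hB := cas1_B' T U hT hU a b hab S hTa
    have h2 : r ^ (d - 1) + (r - 1) ^ (d - 1) + (inBox (Om τ) S).card ≤
        (Om τ).card + d * r ^ 2 + ∏ x ∈ univ.erase a, (S x).card +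
          ((S a).card - 1) * (r - 1) ^ (d - 2) := by omega
    have hSa : 1 ≤ (S a).card := card_pos.2 ⟨T, hTa⟩
    have h3 : (r : ℝ) ^ (d - 1) + ((r : ℝ) - 1) ^ (d - 1) + ((inBox (Om τ) S).card : ℝ) ≤
        ((Om τ).card : ℝ) + d * (r : ℝ) ^ 2 + ∏ x ∈ univ.erase a, ((S x).card : ℝ) +
          (((S a).card : ℝ) - 1) * ((r : ℝ) - 1) ^ (d - 2) := by
      have h4 := (Nat.cast_le (α := ℝ)).2 h2
      push_cast [Nat.cast_sub hSa, Nat.cast_sub (show 1 ≤ r by omega)] at h4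
      exact h4
    have hsplit : ρ = ((r : ℝ) - ((S a).card : ℝ)) +
        ∑ x ∈ univ.erase a, ((r : ℝ) - ((S x).card : ℝ)) := by
      rw [hρdef]
      exact (add_sum_erase _ _ (mem_univ a)).symm
    have hA := cas1_A (show 2 ≤ d by omega) (show 1 ≤ r by omega) a S
      (by have := hcard' a; linarith)
    have hpp := pow_pred_ge (show 2 ≤ d by omega) hdr
    have h5 : ((r : ℝ) - 1) ^ (d - 1) = ((r : ℝ) - 1) ^ (d - 2) * ((r : ℝ) - 1) := by
      rw [← pow_succ]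
      congr 1
      omega
    have h6 : (r : ℝ) ^ (d - 2) * (((r : ℝ) - ((S a).card : ℝ)) / 5) ≤
        ((r : ℝ) - 1) ^ (d - 2) * ((r : ℝ) - ((S a).card : ℝ)) := by
      have h7 := mul_le_mul_of_nonneg_right hpp (sub_nonneg.2 (hcard' a))
      linarith
    have h8 : (r : ℝ) ^ (d - 2) * (ρ / 5) ≤
        ((Om τ).card : ℝ) - ((inBox (Om τ) S).card : ℝ) + d * (r : ℝ) ^ 2 := by
      have e1 : (r : ℝ) ^ (d - 2) * (ρ / 5) =
          (r : ℝ) ^ (d - 2) * (((r : ℝ) - ((S a).card : ℝ)) / 5) +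
          (r : ℝ) ^ (d - 2) * ((∑ x ∈ univ.erase a, ((r : ℝ) - ((S x).card : ℝ))) / 5) := by
        rw [hsplit]
        ring
      rw [e1]
      rw [h5] at h3
      linarith
    have h9 := cas1_num_ii d r (r ^ (d - 2)) _ ρ hd' hdr' hr' hP10 hup hρ1
    have h10 : (d : ℝ) * r * ((r : ℝ) ^ (d - 2) * (ρ / 5)) ≤
        d * r * (((Om τ).card : ℝ) - ((inBox (Om τ) S).card : ℝ) + d * (r : ℝ) ^ 2) :=
      mul_le_mul_of_nonneg_left h8 (by positivity)
    linarith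
  · rw [if_neg hTa] at hhit
    have hB := cas1_B T U hT hU b S
    have h2 : r ^ (d - 1) + (inBox (Om τ) S).card ≤ (Om τ).card + d * r ^ 2 := by omega
    have h3 : (r : ℝ) ^ (d - 1) + ((inBox (Om τ) S).card : ℝ) ≤
        ((Om τ).card : ℝ) + d * (r : ℝ) ^ 2 := by exact_mod_cast h2
    rw [ed1] at h3
    have h9 := cas1_num_i d r (r ^ (d - 2)) _ hd' hdr' hr' hP9 hup
    have h10 : (d : ℝ) * r * (r * (r : ℝ) ^ (d - 2)) ≤
        d * r * (((Om τ).card : ℝ) - ((inBox (Om τ) S).card : ℝ) + d * (r : ℝ) ^ 2) :=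
      mul_le_mul_of_nonneg_left (by linarith) (by positivity)
    have h11 : ((Om τ).card : ℝ) * ρ ≤ ((Om τ).card : ℝ) * (4 * r) :=
      mul_le_mul_of_nonneg_left hρ4 hO0
    linarith

end Pool.Agent.BSubE
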