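import Mathlib

set_option autoImplicit false

/-!
# The numerical inequality of case 2
Put `σ = β / r`, `y = 1 - σ`, so `3 / (d - 1) ≤ y < 1`. Divide the claim by
`d * r * β * r ^ (d - 1) / d`. It becomes
`σ^(d-2) (σ + d y + 2 d / r) + d r^(11 - d) * (...) ≤ (1 - 1/d) (1 - d r^(1-d) - (d^2/2) r^(2-d))`,
and it is enough that `(1 - y)^(d-2) (d y + 3) ≤ 0.8`, the remaining terms being tiny:
`β ≥ 1 / (d - 1)` gives `d r r ^ 9 / (β ...) ≤ d ^ 2 r ^ (11 - d)`, and `r ≥ d ≥ 40`.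
Indeed `(1-y)^(d-2) (1+y)^(d-2) ≤ 1` and
`(1+y)^(d-2) ≥ 1 + (d-2) y + (d-2)(d-3) y^2 / 2`, and
`d y + 3 ≤ 0.8 (1 + (d-2) y + (d-2)(d-3) y^2/2)`, i.e. `2.2 + (0.2 d + 1.6) y ≤
0.4 (d-2)(d-3) y^2`, holds for `y ≥ 3/(d-1)`, `d ≥ 40` (at `y = 3/(d-1)`, `d = 40`: `2.94 ≤ 3.32`).
-/

namespace Pool.Agent.BSubE

open Finset

theorem cas2n_bern {y : ℝ} (hy : 0 ≤ y) (n : ℕ) :
    1 + n * y + n * (n - 1) / 2 * y ^ 2 ≤ (1 + y) ^ n := by
  induction n with
  | zero => simp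
  | succ n ih =>
    have h1 : 0 ≤ 1 + y := by linarith
    have h2 := mul_le_mul_of_nonneg_right ih h1
    rw [pow_succ]
    refine le_trans ?_ h2
    push_cast
    have h3 : 0 ≤ (n : ℝ) * (n - 1) * y ^ 3 := by
      rcases Nat.eq_zero_or_pos n with h | h
      · subst h
        simp
      · have h4 : (1 : ℝ) ≤ n := by exact_mod_cast h
        have h5 : 0 ≤ (n : ℝ) - 1 := by linarith
        positivity
    nlinarith [h3]

theorem cas2n_key {n : ℕ} (hn : 38 ≤ n) {y : ℝ} (hy1 : y ≤ 1) (hy : 3 ≤ y * ((n : ℝ) + 1)) :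
    (1 - y) ^ n * (((n : ℝ) + 2) * y + 3) ≤ 0.8 := by
  have hN : (38 : ℝ) ≤ n := by exact_mod_cast hn
  have hy0 : 0 < y := by
    by_contra h
    have h1 : y ≤ 0 := not_lt.mp h
    nlinarith
  have h1 := cas2n_bern hy0.le n
  have h2 : (1 - y) ^ n * (1 + y) ^ n ≤ 1 := by
    rw [← mul_pow]
    apply pow_le_one₀
    · nlinarith
    · nlinarith
  have h3 : 0 ≤ (1 - y) ^ n := pow_nonneg (by linarith) n
  have h4 : ((n : ℝ) + 2) * y + 3 ≤ 0.8 * (1 + n * y + n * (n - 1) / 2 * y ^ 2) := by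
    have h5 : ((n : ℝ) - 2) * 3 * y ≤ (n : ℝ) * (n - 1) * y ^ 2 := by
      have h6 : ((n : ℝ) - 2) * 3 * y ≤ ((n : ℝ) - 2) * (y * ((n : ℝ) + 1)) * y := by
        have h7 : 0 ≤ (n : ℝ) - 2 := by linarith
        exact mul_le_mul_of_nonneg_right (mul_le_mul_of_nonneg_left hy h7) hy0.le
      nlinarith [sq_nonneg y]
    nlinarith
  calc (1 - y) ^ n * (((n : ℝ) + 2) * y + 3)
      ≤ (1 - y) ^ n * (0.8 * (1 + n * y + n * (n - 1) / 2 * y ^ 2)) :=
        mul_le_mul_of_nonneg_left h4 h3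
    _ ≤ (1 - y) ^ n * (0.8 * (1 + y) ^ n) :=
        mul_le_mul_of_nonneg_left (mul_le_mul_of_nonneg_left h1 (by norm_num)) h3
    _ = 0.8 * ((1 - y) ^ n * (1 + y) ^ n) := by ring
    _ ≤ 0.8 * 1 := mul_le_mul_of_nonneg_left h2 (by norm_num)
    _ = 0.8 := by norm_num

theorem case_two_num {d r : ℕ} (hd : 40 ≤ d) (hdr : d ≤ r) (β : ℝ)
    (hβ0 : 1 / ((d : ℝ) - 1) ≤ β) (hβ1 : β * ((d : ℝ) - 1) ≤ r * ((d : ℝ) - 4)) :
    (d : ℝ) * r * (β ^ (d - 1) * (β / d + r - β + 2)) + d * r * (r : ℝ) ^ 9 ≤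
      ((r : ℝ) ^ d / d - r - d * (r : ℝ) ^ 2 / 2) * (((d : ℝ) - 1) * β) := by
  obtain ⟨n, rfl⟩ : ∃ n, d = n + 2 := ⟨d - 2, by omega⟩
  have hn : 38 ≤ n := by omega
  have hN : (38 : ℝ) ≤ n := by exact_mod_cast hn
  have hR : ((n : ℝ) + 2) ≤ r := by exact_mod_cast hdr
  have hR40 : (40 : ℝ) ≤ r := by linarith
  have hRpos : (0 : ℝ) < r := by linarith
  push_cast at hβ0 hβ1 ⊢
  set R : ℝ := (r : ℝ) with hRdef
  set N : ℝ := (n : ℝ) with hNdef
  have hβpos : 0 < β := lt_of_lt_of_le (one_div_pos.mpr (by linarith)) hβ0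
  have hβ0' : 1 ≤ β * (N + 1) := by
    rw [div_le_iff₀ (by linarith)] at hβ0
    nlinarith
  have hβ1' : β * (N + 1) ≤ R * (N - 2) := by nlinarith
  -- the variable y
  obtain ⟨y, hy⟩ : ∃ y, y = 1 - β / R := ⟨_, rfl⟩
  have hβy : β = R * (1 - y) := by
    rw [hy]
    field_simp
    ring
  have hy1 : y ≤ 1 := by
    rw [hy]
    have : 0 ≤ β / R := by positivity
    linarith
  have hy3 : 3 ≤ y * (N + 1) := by
    have h1 : R * (1 - y) * (N + 1) ≤ R * (N - 2) := by rw [← hβy]; exact hβ1'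
    have h2 : (1 - y) * (N + 1) ≤ N - 2 := by
      by_contra h
      have h3 : N - 2 < (1 - y) * (N + 1) := not_le.mp h
      have h4 := mul_lt_mul_of_pos_left h3 hRpos
      nlinarith
    nlinarith
  have hkey := cas2n_key hn hy1 hy3
  have hβR : β ≤ R := by nlinarith
  have hβn : 0 ≤ β ^ n := by positivity
  have hRn : 0 ≤ R ^ n := by positivity
  have hK : β ^ n * (β + (N + 2) * (R - β) + 2 * (N + 2)) ≤ 0.8 * (R ^ n * R) := by
    have h1 : β + (N + 2) * (R - β) + 2 * (N + 2) ≤ R * ((N + 2) * y + 3) := by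
      rw [hβy]
      nlinarith
    calc β ^ n * (β + (N + 2) * (R - β) + 2 * (N + 2))
        ≤ β ^ n * (R * ((N + 2) * y + 3)) := mul_le_mul_of_nonneg_left h1 hβn
      _ = (R ^ n * R) * ((1 - y) ^ n * ((N + 2) * y + 3)) := by
          rw [hβy, mul_pow]
          ring
      _ ≤ (R ^ n * R) * 0.8 := mul_le_mul_of_nonneg_left hkey (by positivity)
      _ = 0.8 * (R ^ n * R) := by ring
  have hD : (0 : ℝ) < N + 2 := by linarith
  have hL : (N + 2) * R * (β ^ (n + 1) * (β / (N + 2) + R - β + 2)) ≤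
      0.8 * (R ^ (n + 2) * β) := by
    have h1 : (N + 2) * R * (β ^ (n + 1) * (β / (N + 2) + R - β + 2)) =
        R * β * (β ^ n * (β + (N + 2) * (R - β) + 2 * (N + 2))) := by
      field_simp
      ring
    rw [h1]
    calc R * β * (β ^ n * (β + (N + 2) * (R - β) + 2 * (N + 2)))
        ≤ R * β * (0.8 * (R ^ n * R)) := mul_le_mul_of_nonneg_left hK (by positivity)
      _ = 0.8 * (R ^ (n + 2) * β) := by ring
  -- tiny terms
  have hbig : 1600 * R ^ 12 ≤ R ^ (n + 2) := by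
    have h1 : R ^ 14 ≤ R ^ (n + 2) := pow_le_pow_right₀ (by linarith) (by omega)
    have h2 : 1600 * R ^ 12 ≤ R ^ 14 := by
      have h3 : (1600 : ℝ) ≤ R ^ 2 := by nlinarith
      calc 1600 * R ^ 12 ≤ R ^ 2 * R ^ 12 := mul_le_mul_of_nonneg_right h3 (by positivity)
        _ = R ^ 14 := by ring
    linarith
  have ht1 : (N + 2) * R * R ^ 9 ≤ R ^ 12 * β := by
    calc (N + 2) * R * R ^ 9 = (N + 2) * R ^ 10 * 1 := by ring
      _ ≤ (N + 2) * R ^ 10 * (β * (N + 1)) := mul_le_mul_of_nonneg_left hβ0' (by positivity)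
      _ = ((N + 2) * (N + 1)) * (R ^ 10 * β) := by ring
      _ ≤ (R * R) * (R ^ 10 * β) := by
          apply mul_le_mul_of_nonneg_right _ (by positivity)
          apply mul_le_mul hR (by linarith) (by linarith) (by linarith)
      _ = R ^ 12 * β := by ring
  have ht2 : (R + (N + 2) * R ^ 2 / 2) * ((N + 2 - 1) * β) ≤ R ^ 12 * β := by
    have h1 : R + (N + 2) * R ^ 2 / 2 ≤ R ^ 3 := by
      have h2 : (N + 2) * R ^ 2 ≤ R * R ^ 2 := mul_le_mul_of_nonneg_right hR (by positivity)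
      have h3 : 2 * R ≤ R * R ^ 2 := by nlinarith
      nlinarith
    have h2 : N + 2 - 1 ≤ R := by linarith
    calc (R + (N + 2) * R ^ 2 / 2) * ((N + 2 - 1) * β) ≤ R ^ 3 * (R * β) := by
          apply mul_le_mul h1 (mul_le_mul_of_nonneg_right h2 hβpos.le) _ (by positivity)
          exact mul_nonneg (by linarith) hβpos.le
      _ = R ^ 4 * β := by ring
      _ ≤ R ^ 12 * β := by
          apply mul_le_mul_of_nonneg_right _ hβpos.le
          exact pow_le_pow_right₀ (by linarith) (by norm_num)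
  have hmain : (0.975 : ℝ) * (R ^ (n + 2) * β) ≤ R ^ (n + 2) / (N + 2) * ((N + 2 - 1) * β) := by
    have h1 : R ^ (n + 2) / (N + 2) * ((N + 2 - 1) * β) =
        ((N + 1) / (N + 2)) * (R ^ (n + 2) * β) := by
      field_simp
      ring
    rw [h1]
    apply mul_le_mul_of_nonneg_right _ (by positivity)
    rw [le_div_iff₀ hD]
    linarith
  have hexp : (R ^ (n + 2) / (N + 2) - R - (N + 2) * R ^ 2 / 2) * ((N + 2 - 1) * β) =
      R ^ (n + 2) / (N + 2) * ((N + 2 - 1) * β) -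
      (R + (N + 2) * R ^ 2 / 2) * ((N + 2 - 1) * β) := by ring
  rw [hexp]
  have hbig2 := mul_le_mul_of_nonneg_right hbig hβpos.le
  have hpos12 : 0 ≤ R ^ 12 * β := by positivity
  nlinarith

end Pool.Agent.BSubE
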