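import Mathlib
import Pool.Agent.Lib.MP_79bff1_ag_E.OmB

set_option autoImplicit false

/-!
# A sum of minima
Let `b = ⌊β⌋₊ ≤ r`. The terms `i < b` are at most `(i + 1) ^ k`, their sum is at most
`b ^ (k+1) / (k+1) + b ^ k ≤ β ^ k * (β / (k+1) + 1)` (`pow_sum_upper`). The other `r - b ≤ r - β + 1`
terms are at most `β ^ k`.
-/

namespace Pool.Agent.BSubE

open Finset

theorem sum_min_le (r k : ℕ) (β : ℝ) (h0 : 0 ≤ β) (h1 : β ≤ r) :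
    ∑ i ∈ range r, min (((i : ℝ) + 1) ^ k) (β ^ k) ≤ β ^ k * (β / ((k : ℝ) + 1) + r - β + 2) := by
  obtain ⟨b, hb⟩ : ∃ b : ℕ, b = ⌊β⌋₊ := ⟨_, rfl⟩
  have hbβ : (b : ℝ) ≤ β := by
    rw [hb]
    exact Nat.floor_le h0
  have hβb : β < b + 1 := by
    rw [hb]
    exact Nat.lt_floor_add_one β
  have hbr : b ≤ r := by
    have : (b : ℝ) ≤ r := hbβ.trans h1
    exact_mod_cast this
  have hb0 : (0 : ℝ) ≤ b := Nat.cast_nonneg b
  have hk : (0 : ℝ) ≤ β ^ k := pow_nonneg h0 k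
  have hk1 : (0 : ℝ) < (k : ℝ) + 1 := by positivity
  rw [← Finset.sum_range_add_sum_Ico _ hbr]
  have s1 : ∑ i ∈ range b, min (((i : ℝ) + 1) ^ k) (β ^ k) ≤
      β ^ (k + 1) / ((k : ℝ) + 1) + β ^ k := by
    calc ∑ i ∈ range b, min (((i : ℝ) + 1) ^ k) (β ^ k)
        ≤ ∑ i ∈ range b, ((i : ℝ) + 1) ^ k := Finset.sum_le_sum fun i _ => min_le_left _ _
      _ ≤ (b : ℝ) ^ (k + 1) / (k + 1) + (b : ℝ) ^ k := pow_sum_upper b k
      _ ≤ β ^ (k + 1) / ((k : ℝ) + 1) + β ^ k :=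
        add_le_add (div_le_div_of_nonneg_right (pow_le_pow_left₀ hb0 hbβ _) hk1.le)
          (pow_le_pow_left₀ hb0 hbβ _)
  have s2 : ∑ i ∈ Ico b r, min (((i : ℝ) + 1) ^ k) (β ^ k) ≤ ((r : ℝ) - b) * β ^ k := by
    calc ∑ i ∈ Ico b r, min (((i : ℝ) + 1) ^ k) (β ^ k)
        ≤ ∑ _i ∈ Ico b r, β ^ k := Finset.sum_le_sum fun i _ => min_le_right _ _
      _ = ((r : ℝ) - b) * β ^ k := by
        rw [Finset.sum_const, Nat.card_Ico, nsmul_eq_mul, Nat.cast_sub hbr]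
  have s3 : ((r : ℝ) - b) * β ^ k ≤ ((r : ℝ) - β + 1) * β ^ k :=
    mul_le_mul_of_nonneg_right (by linarith) hk
  have s4 : β ^ (k + 1) / ((k : ℝ) + 1) = β ^ k * (β / ((k : ℝ) + 1)) := by
    rw [pow_succ, mul_div_assoc]
  rw [s4] at s1
  nlinarith

end Pool.Agent.BSubE
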