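import Mathlib
import Pool.Agent.Lib.MP_79bff1_ag_E.Defs
import Pool.Agent.Lib.MP_79bff1_ag_E.OmB
import Pool.Agent.Lib.MP_79bff1_ag_E.AMG
import Pool.Agent.Lib.MP_79bff1_ag_E.SMin
import Pool.Agent.Lib.MP_79bff1_ag_E.Cas2N

set_option autoImplicit false

/-!
# Hall's inequality, case 2: at least `4 r` classes are missing
`β = |S| / (d - 1)`, `1 / (d-1) ≤ β ≤ r (d-4)/(d-1)`; combine `box_le_min`, `sum_min_le`
(with `k = d - 1`), `om_lower` and `case_two_num`.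
-/

namespace Pool.Agent.BSubE

open Finset

theorem case_two {d r : ℕ} (hd : 40 ≤ d) (hdr : d ≤ r) (τ : Fin r → Fin d)
    (S : Fin d → Finset (Fin r)) (h1 : ∃ x, (S x).Nonempty)
    (hρ : ∑ x, (S x).card + 4 * r ≤ d * r) :
    d * r * (inBox (Om τ) S).card + d * r * r ^ 9 ≤ (Om τ).card * ∑ x, (S x).card := by
  have hdR : (40 : ℝ) ≤ d := by exact_mod_cast hd
  have hd1 : (0 : ℝ) < (d : ℝ) - 1 := by linarith
  obtain ⟨s, hs⟩ : ∃ s : ℝ, s = ∑ x, ((S x).card : ℝ) := ⟨_, rfl⟩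
  have hs1 : 1 ≤ s := by
    obtain ⟨x, hx⟩ := h1
    have h2 : (1 : ℝ) ≤ (S x).card := by exact_mod_cast hx.card_pos
    rw [hs]
    exact h2.trans (Finset.single_le_sum (f := fun x => ((S x).card : ℝ))
      (fun _ _ => Nat.cast_nonneg _) (Finset.mem_univ x))
  have hsρ : s + 4 * r ≤ d * r := by
    rw [hs]
    exact_mod_cast hρ
  obtain ⟨β, hβ⟩ : ∃ β : ℝ, β = s / ((d : ℝ) - 1) := ⟨_, rfl⟩
  have hβs : ((d : ℝ) - 1) * β = s := by
    rw [hβ]
    field_simp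
  have hβ0 : 1 / ((d : ℝ) - 1) ≤ β := by
    rw [hβ]
    exact div_le_div_of_nonneg_right hs1 hd1.le
  have hβpos : 0 ≤ β := le_trans (by positivity) hβ0
  have hβ1 : β * ((d : ℝ) - 1) ≤ r * ((d : ℝ) - 4) := by
    rw [mul_comm, hβs]
    linarith
  have hr0 : (0 : ℝ) ≤ r := Nat.cast_nonneg r
  have hβr : β ≤ r := by
    have h2 : β * ((d : ℝ) - 1) ≤ r * ((d : ℝ) - 1) := by
      refine hβ1.trans ?_
      exact mul_le_mul_of_nonneg_left (by linarith) hr0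
    exact le_of_mul_le_mul_right h2 hd1
  have hbox := box_le_min (by omega) τ S
  rw [← hs, ← hβ] at hbox
  have hmin := sum_min_le r (d - 1) β hβpos hβr
  have hcast : (((d - 1 : ℕ)) : ℝ) + 1 = d := by
    rw [Nat.cast_sub (by omega)]
    simp
  rw [hcast] at hmin
  have hom := om_lower (by omega : 3 ≤ d) τ
  have hnum := case_two_num hd hdr β hβ0 hβ1
  rw [hβs] at hnum
  have h2 : (d : ℝ) * r * ((inBox (Om τ) S).card : ℝ) ≤
      d * r * (β ^ (d - 1) * (β / d + r - β + 2)) :=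
    mul_le_mul_of_nonneg_left (hbox.trans hmin) (by positivity)
  have h3 : ((r : ℝ) ^ d / d - r - d * (r : ℝ) ^ 2 / 2) * s ≤ ((Om τ).card : ℝ) * s :=
    mul_le_mul_of_nonneg_right hom (by linarith)
  have h4 : (d : ℝ) * r * ((inBox (Om τ) S).card : ℝ) + d * r * (r : ℝ) ^ 9 ≤
      ((Om τ).card : ℝ) * ∑ x, ((S x).card : ℝ) := by
    rw [← hs]
    linarith
  exact_mod_cast h4

end Pool.Agent.BSubE
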