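import Mathlib
import Pool.Agent.Lib.MP_79bff1_ag_E.Defs

set_option autoImplicit false

/-!
# Cyclic types
The labels `k` with `r - s ≤ k < r` and `k % d = x`: at most `(s - 1) / d + 1` of them (they are in
an interval of length `s` and differ by multiples of `d`; e.g. the map `k ↦ (r - 1 - k) / d` is
injective on them with values `≤ (s - 1) / d`). If `s ≤ d` this is `1 ≤ s / 3`; if `s > d ≥ 40`,
`3 ((s - 1) / d + 1) ≤ s`.
-/

namespace Pool.Agent.BSubE

open Finset

/-- cyclic types -/
def cyc {d r : ℕ} (hd : 0 < d) (l : Fin r) : Fin d := ⟨l.val % d, Nat.mod_lt _ hd⟩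

theorem cyc_count {d r s : ℕ} (hd : 40 ≤ d) (hs : 3 ≤ s) (x : Fin d) :
    3 * (univ.filter fun k : Fin r => r ≤ k.val + s ∧ cyc (by omega : 0 < d) k = x).card ≤ s := by
  have hd0 : 0 < d := by omega
  have hcard : (univ.filter fun k : Fin r => r ≤ k.val + s ∧ cyc (by omega : 0 < d) k = x).card ≤
      (range ((s - 1) / d + 1)).card := by
    refine card_le_card_of_injOn (fun k : Fin r => (r - 1 - k.val) / d) ?_ ?_
    · intro k hk
      have h1 := (mem_filter.1 (mem_coe.1 hk)).2.1
      refine mem_coe.2 (mem_range.2 (Nat.lt_succ_of_le ?_))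
      exact Nat.div_le_div_right (by omega)
    · intro k hk l hl hkl
      have h1 : k.val % d = x.val := congrArg Fin.val (mem_filter.1 (mem_coe.1 hk)).2.2
      have h2 : l.val % d = x.val := congrArg Fin.val (mem_filter.1 (mem_coe.1 hl)).2.2
      have key : ∀ a b : ℕ, a % d = x.val → b % d = x.val → a < b → b < r →
          (r - 1 - b) / d < (r - 1 - a) / d := by
        intro a b ha hb hab hbr
        have h3 := Nat.div_add_mod a d
        have h4 := Nat.div_add_mod b d
        rw [ha] at h3
        rw [hb] at h4
        have h5 : a / d < b / d := by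
          by_contra hcon
          have h6 := Nat.mul_le_mul_left d (Nat.le_of_not_lt hcon)
          omega
        have h6 : d * (a / d) + d ≤ d * (b / d) := by
          have := Nat.mul_le_mul_left d (Nat.succ_le_of_lt h5)
          rwa [Nat.mul_succ] at this
        have h7 : r - 1 - b + d ≤ r - 1 - a := by omega
        have h8 := Nat.div_le_div_right (c := d) h7
        rw [Nat.add_div_right _ hd0] at h8
        omega
      simp only at hkl
      rcases lt_trichotomy k.val l.val with h | h | h
      · have := key _ _ h1 h2 h l.isLt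
        omega
      · exact Fin.ext h
      · have := key _ _ h2 h1 h k.isLt
        omega
  rw [card_range] at hcard
  rcases Nat.lt_or_ge d s with h | h
  · have h1 : (s - 1) / d ≤ (s - 1) / 40 := Nat.div_le_div_left hd (by norm_num)
    omega
  · have h1 : (s - 1) / d = 0 := Nat.div_eq_of_lt (by omega)
    omega

end Pool.Agent.BSubE
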