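import Mathlib

set_option autoImplicit false

/-!
# Growth of power sums
Induction on `R` (`Nat.le_induction`); one step: `(∑_{k < R} (k+1)^e) (R+1)^e ≤
(∑_{k < R+1} (k+1)^e) R^e`. Drop the term `k = 0` on the right side:
`∑_{k < R+1} (k+1)^e ≥ ∑_{k < R} (k+2)^e`, and `(k+1) (R+1) ≤ (k+2) R` for `k + 1 ≤ R`.
-/

namespace Pool.Agent.BSubE

open Finset

theorem sig_step (R e : ℕ) :
    (∑ k ∈ range R, (k + 1) ^ e) * (R + 1) ^ e ≤ (∑ k ∈ range (R + 1), (k + 1) ^ e) * R ^ e := by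
  rw [sum_range_succ', add_mul]
  refine le_trans ?_ (Nat.le_add_right _ _)
  rw [sum_mul, sum_mul]
  refine sum_le_sum fun k hk => ?_
  have hk' := mem_range.1 hk
  rw [← mul_pow, ← mul_pow]
  refine Nat.pow_le_pow_left ?_ e
  nlinarith

theorem sum_ratio {r R e : ℕ} (hr : 1 ≤ r) (h : r ≤ R) :
    (∑ k ∈ range r, (k + 1) ^ e) * R ^ e ≤ (∑ k ∈ range R, (k + 1) ^ e) * r ^ e := by
  induction R, h using Nat.le_induction with
  | base => exact le_rfl
  | succ R h ih =>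
    have h1 := sig_step R e
    have hR : 0 < R ^ e := Nat.pow_pos (by omega)
    have h2 : (∑ k ∈ range r, (k + 1) ^ e) * (R + 1) ^ e * R ^ e ≤
        (∑ k ∈ range (R + 1), (k + 1) ^ e) * r ^ e * R ^ e := by
      calc (∑ k ∈ range r, (k + 1) ^ e) * (R + 1) ^ e * R ^ e
          = (∑ k ∈ range r, (k + 1) ^ e) * R ^ e * (R + 1) ^ e := by ring
        _ ≤ (∑ k ∈ range R, (k + 1) ^ e) * r ^ e * (R + 1) ^ e := Nat.mul_le_mul_right _ ih
        _ = (∑ k ∈ range R, (k + 1) ^ e) * (R + 1) ^ e * r ^ e := by ring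
        _ ≤ (∑ k ∈ range (R + 1), (k + 1) ^ e) * R ^ e * r ^ e := Nat.mul_le_mul_right _ h1
        _ = (∑ k ∈ range (R + 1), (k + 1) ^ e) * r ^ e * R ^ e := by ring
    exact Nat.le_of_mul_le_mul_right h2 hR

end Pool.Agent.BSubE
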