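import Mathlib
import Pool.Agent.Lib.MP_79bff1_ag_E.OmB
import Pool.Agent.Lib.MP_79bff1_ag_E.Sig

set_option autoImplicit false

/-!
# The numerical inequality for `r ≥ d ^ 2 / 7`
Let `Σ_r = ∑_{k ≤ r} k ^ (d - 1)`, `K = Σ_r / (d r)`. `H` gives `Σ_R - R ≤ d R n`, so
`n ≥ Σ_R / (d R) - 1 / d`. By `sum_ratio`, `Σ_R / (d R) ≥ K (R / r) ^ (d - 2)`, by Bernoulli
`(R / r) ^ (d - 2) ≥ 1 + (d - 2) (R - r) / r ≥ 1 + 27 (d - 2) / d ^ 3 ≥ 1 + 25.65 / d ^ 2`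
(`(R - r) / r ≥ (R - r) / R ≥ 27 / d ^ 3`). Take `C = ⌈(1 + 24 / d ^ 2) K⌉₊`. It is enough that
`1.65 K / d ^ 2 ≥ 3 + d r`, and `K ≥ r ^ (d - 1) / d ^ 2` (`pow_sum_lower`), `r ≥ d ≥ 40`.
-/

namespace Pool.Agent.BSubE

open Finset

theorem finn_sum {d R n : ℕ}
    (H : ∑ k ∈ range R, ((k + 1) ^ (d - 1) - 1) ≤ d * (R * n - R * (R + 1) / 2)) :
    ∑ i ∈ range R, ((i : ℝ) + 1) ^ (d - 1) - R ≤ d * (R * n) := by
  have h1 : ((∑ k ∈ range R, ((k + 1) ^ (d - 1) - 1) : ℕ) : ℝ) =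
      ∑ i ∈ range R, ((i : ℝ) + 1) ^ (d - 1) - R := by
    rw [Nat.cast_sum]
    have h2 : ∀ k ∈ range R, (((k + 1) ^ (d - 1) - 1 : ℕ) : ℝ) =
        ((k : ℝ) + 1) ^ (d - 1) - 1 := by
      intro k _
      rw [Nat.cast_sub (Nat.one_le_pow _ _ (by omega))]
      push_cast
      rfl
    rw [Finset.sum_congr rfl h2, Finset.sum_sub_distrib, Finset.sum_const, Finset.card_range]
    simp
  have h3 : ∑ k ∈ range R, ((k + 1) ^ (d - 1) - 1) ≤ d * (R * n) :=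
    H.trans (Nat.mul_le_mul_left _ (Nat.sub_le _ _))
  have h4 : ((∑ k ∈ range R, ((k + 1) ^ (d - 1) - 1) : ℕ) : ℝ) ≤ ((d * (R * n) : ℕ) : ℝ) :=
    Nat.cast_le.mpr h3
  rw [h1] at h4
  push_cast at h4
  exact h4

theorem finn_real {e : ℕ} {D x y n Sr SR K : ℝ} (he : D = e + 2) (hD : 40 ≤ D) (hx : D ≤ x)
    (hxy : x ≤ y) (hR : 27 * y ≤ D ^ 3 * (y - x)) (hSr : 0 ≤ Sr)
    (hn : SR - y ≤ D * (y * n)) (hrat : Sr * y ^ (e + 1) ≤ SR * x ^ (e + 1))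
    (hK : Sr = K * (D * x)) (hK2 : x ^ 6 ≤ K * D ^ 2) :
    (1 + 24 / D ^ 2) * K + 2 + D * x ≤ n := by
  have hD0 : 0 < D := by linarith
  have hx0 : 0 < x := by linarith
  have hy0 : 0 < y := by linarith
  have hK0 : 0 ≤ K := by
    have h1 : 0 ≤ K * (D * x) := by rw [← hK]; exact hSr
    by_contra h
    have h2 : K < 0 := not_le.mp h
    have h3 : K * (D * x) < 0 := mul_neg_of_neg_of_pos h2 (by positivity)
    linarith
  obtain ⟨q, hq⟩ : ∃ q, q = y / x := ⟨_, rfl⟩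
  have hyq : y = q * x := by rw [hq]; field_simp
  have hq1 : 1 ≤ q := by
    rw [hq, le_div_iff₀ hx0]
    linarith
  have hq0 : 0 < q := by linarith
  have h27 : 27 ≤ D ^ 3 * (q - 1) := by
    have h1 : 27 * (q * x) ≤ D ^ 3 * (q * x - x) := by rw [← hyq]; exact hR
    have h2 : (27 * q) * x ≤ (D ^ 3 * (q - 1)) * x := by
      have e1 : (27 * q) * x = 27 * (q * x) := by ring
      have e2 : (D ^ 3 * (q - 1)) * x = D ^ 3 * (q * x - x) := by ring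
      rw [e1, e2]
      exact h1
    have h3 := le_of_mul_le_mul_right h2 hx0
    linarith
  have hber : 1 + (e : ℝ) * (q - 1) ≤ q ^ e := by
    have h1 := one_add_mul_le_pow (show -2 ≤ q - 1 by linarith) e
    have h2 : 1 + (q - 1) = q := by ring
    rw [h2] at h1
    exact h1
  have hq2 : 1 + 25.65 / D ^ 2 ≤ q ^ e := by
    refine le_trans ?_ hber
    have h1 : 25.65 / D ^ 2 ≤ (e : ℝ) * (q - 1) := by
      rw [div_le_iff₀ (by positivity)]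
      have h2 : (25.65 * D) ≤ ((e : ℝ) * (q - 1) * D ^ 2) * D := by
        have h3 : ((e : ℝ) * (q - 1) * D ^ 2) * D = (D - 2) * (D ^ 3 * (q - 1)) := by
          rw [he]
          ring
        rw [h3]
        have h4 : (D - 2) * 27 ≤ (D - 2) * (D ^ 3 * (q - 1)) :=
          mul_le_mul_of_nonneg_left h27 (by linarith)
        linarith
      exact le_of_mul_le_mul_right h2 hD0
    linarith
  -- the lower bound for n
  have hSR : Sr * q ^ (e + 1) ≤ SR := by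
    have h1 : (Sr * q ^ (e + 1)) * x ^ (e + 1) ≤ SR * x ^ (e + 1) := by
      have h2 : (Sr * q ^ (e + 1)) * x ^ (e + 1) = Sr * y ^ (e + 1) := by
        rw [hyq, mul_pow]
        ring
      rw [h2]
      exact hrat
    exact le_of_mul_le_mul_right h1 (by positivity)
  have hn2 : K * q ^ e - 1 ≤ n := by
    have h1 : (K * q ^ e * D - 1) * (q * x) ≤ (D * n) * (q * x) := by
      have h2 : (K * q ^ e * D - 1) * (q * x) = Sr * q ^ (e + 1) - y := by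
        rw [hK, hyq]
        ring
      have h3 : (D * n) * (q * x) = D * (y * n) := by
        rw [hyq]
        ring
      rw [h2, h3]
      linarith
    have h4 := le_of_mul_le_mul_right h1 (by positivity)
    have h5 : (K * q ^ e - 1) * D ≤ n * D := by
      have h6 : (K * q ^ e - 1) * D = K * q ^ e * D - D := by ring
      rw [h6]
      linarith
    exact le_of_mul_le_mul_right h5 hD0
  have hn3 : K * (1 + 25.65 / D ^ 2) - 1 ≤ n := by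
    have h1 := mul_le_mul_of_nonneg_left hq2 hK0
    linarith
  refine le_trans ?_ hn3
  -- the final inequality
  have h1 : D ^ 2 * (3 + D * x) ≤ 1.65 * K := by
    have h3 : D ^ 2 ≤ x ^ 2 := by nlinarith
    have h7 : (1600 : ℝ) ≤ x ^ 2 := by nlinarith
    have h4 : 3 + D * x ≤ 1.65 * x ^ 2 := by nlinarith
    have h5 : D ^ 2 * (3 + D * x) ≤ x ^ 2 * (1.65 * x ^ 2) :=
      mul_le_mul h3 h4 (by positivity) (by positivity)
    have h8 : (D ^ 2 * (3 + D * x)) * D ^ 2 ≤ (x ^ 2 * (1.65 * x ^ 2)) * x ^ 2 :=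
      mul_le_mul h5 h3 (by positivity) (by positivity)
    have h9 : (x ^ 2 * (1.65 * x ^ 2)) * x ^ 2 ≤ (1.65 * K) * D ^ 2 := by
      have e1 : (x ^ 2 * (1.65 * x ^ 2)) * x ^ 2 = 1.65 * x ^ 6 := by ring
      have e2 : (1.65 * K) * D ^ 2 = 1.65 * (K * D ^ 2) := by ring
      rw [e1, e2]
      linarith
    exact le_of_mul_le_mul_right (h8.trans h9) (by positivity)
  have h2 : 25.65 / D ^ 2 = 24 / D ^ 2 + 1.65 / D ^ 2 := by
    rw [← add_div]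
    norm_num
  have h3 : 3 + D * x ≤ K * (1.65 / D ^ 2) := by
    rw [← mul_div_assoc, le_div_iff₀ (by positivity)]
    linarith
  rw [h2]
  linarith

theorem fin_num {d n r R : ℕ} (hd : 40 ≤ d) (hr : d ^ 2 ≤ 7 * r) (hrR : r ≤ R)
    (hR : 27 * R ≤ d ^ 3 * (R - r))
    (H : ∑ k ∈ range R, ((k + 1) ^ (d - 1) - 1) ≤ d * (R * n - R * (R + 1) / 2)) :
    ∃ C : ℕ, (1 + 24 / (d : ℝ) ^ 2) * ((∑ i ∈ range r, ((i : ℝ) + 1) ^ (d - 1)) / (d * r)) ≤ C ∧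
      C + 1 + d * r ≤ n := by
  have hdr : d ≤ r := by
    by_contra h
    have h1 : r < d := not_le.mp h
    nlinarith
  obtain ⟨e, rfl⟩ : ∃ e, d = e + 2 := ⟨d - 2, by omega⟩
  have hD : (40 : ℝ) ≤ ((e + 2 : ℕ) : ℝ) := by exact_mod_cast hd
  have hx : ((e + 2 : ℕ) : ℝ) ≤ (r : ℝ) := by exact_mod_cast hdr
  have hxy : (r : ℝ) ≤ (R : ℝ) := by exact_mod_cast hrR
  have hR' : 27 * (R : ℝ) ≤ ((e + 2 : ℕ) : ℝ) ^ 3 * ((R : ℝ) - r) := by
    have h1 : ((27 * R : ℕ) : ℝ) ≤ (((e + 2) ^ 3 * (R - r) : ℕ) : ℝ) := Nat.cast_le.mpr hR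
    rw [Nat.cast_mul, Nat.cast_mul, Nat.cast_sub hrR, Nat.cast_pow, Nat.cast_ofNat] at h1
    exact h1
  have hS0 : 0 ≤ ∑ i ∈ range r, ((i : ℝ) + 1) ^ (e + 2 - 1) :=
    Finset.sum_nonneg fun i _ => by positivity
  have hn := finn_sum H
  have hrat : (∑ i ∈ range r, ((i : ℝ) + 1) ^ (e + 2 - 1)) * (R : ℝ) ^ (e + 1) ≤
      (∑ i ∈ range R, ((i : ℝ) + 1) ^ (e + 2 - 1)) * (r : ℝ) ^ (e + 1) := by
    have h1 := sum_ratio (e := e + 1) (show 1 ≤ r by omega) hrR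
    exact_mod_cast h1
  have hr0 : (0 : ℝ) < r := by
    have : 0 < r := by omega
    exact_mod_cast this
  have hd0 : (0 : ℝ) < ((e + 2 : ℕ) : ℝ) := by linarith
  obtain ⟨K, hKdef⟩ : ∃ K, K = (∑ i ∈ range r, ((i : ℝ) + 1) ^ (e + 2 - 1)) /
      (((e + 2 : ℕ) : ℝ) * r) := ⟨_, rfl⟩
  have hK : (∑ i ∈ range r, ((i : ℝ) + 1) ^ (e + 2 - 1)) = K * (((e + 2 : ℕ) : ℝ) * r) := by
    rw [hKdef]
    field_simp
  have hK2 : (r : ℝ) ^ 6 ≤ K * ((e + 2 : ℕ) : ℝ) ^ 2 := by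
    have h1 := pow_sum_lower r (e + 2 - 1)
    rw [hK] at h1
    have h2 : e + 2 - 1 = e + 1 := by omega
    rw [h2] at h1
    have h3 : (((e + 1 : ℕ) : ℝ) + 1) = ((e + 2 : ℕ) : ℝ) := by push_cast; ring
    rw [h3, div_le_iff₀ hd0] at h1
    have h4 : (r : ℝ) ^ (e + 1) * r ≤ (K * ((e + 2 : ℕ) : ℝ) ^ 2) * r := by
      calc (r : ℝ) ^ (e + 1) * r = (r : ℝ) ^ (e + 1 + 1) := by ring
        _ ≤ K * (((e + 2 : ℕ) : ℝ) * r) * ((e + 2 : ℕ) : ℝ) := h1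
        _ = (K * ((e + 2 : ℕ) : ℝ) ^ 2) * r := by ring
    have h5 := le_of_mul_le_mul_right h4 hr0
    refine le_trans ?_ h5
    exact pow_le_pow_right₀ (by linarith) (by omega)
  have hfin := finn_real (e := e) (D := ((e + 2 : ℕ) : ℝ)) (x := r) (y := R) (n := n)
    (by push_cast; ring) hD hx hxy hR' hS0 hn hrat hK hK2
  rw [← hKdef]
  refine ⟨⌈(1 + 24 / ((e + 2 : ℕ) : ℝ) ^ 2) * K⌉₊, Nat.le_ceil _, ?_⟩
  have hK0 : 0 ≤ K := by
    rw [hKdef]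
    exact div_nonneg hS0 (mul_nonneg hd0.le hr0.le)
  have hc0 : 0 ≤ 1 + 24 / ((e + 2 : ℕ) : ℝ) ^ 2 :=
    add_nonneg zero_le_one (div_nonneg (by norm_num) (pow_nonneg hd0.le 2))
  have h1 := Nat.ceil_lt_add_one (mul_nonneg hc0 hK0)
  have h2 : ((⌈(1 + 24 / ((e + 2 : ℕ) : ℝ) ^ 2) * K⌉₊ + 1 + (e + 2) * r : ℕ) : ℝ) ≤ (n : ℝ) := by
    rw [Nat.cast_add, Nat.cast_add, Nat.cast_one, Nat.cast_mul]
    linarith
  exact Nat.cast_le.mp h2

end Pool.Agent.BSubE
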