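import Mathlib
import Pool.Agent.Lib.MP_79bff1_ag_E.Defs

set_option autoImplicit false

/-!
# Many entries in a class and its hub class
Let `(h, Z) = hub x₀ x₁ Z (j, l)`, so `h ∈ {x₀, x₁}`, `h ≠ j`, `h ≠ a`, `h ≠ b`.
* If `j ≠ a` or `l = T`: the entries with `f a = T`, `f j = l`, `f h = Z` and `f x < T` for all
  other `x` (free). Label `T` is the maximum, it occurs at `a = τ T`, and `f h = Z ≠ T`; so
  `Hb τ f` holds.
* If `j = a` and `l ≠ T`: the entries with `f a = l`, `f b = U`, `f h = Z`, `f x ≤ U` for all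
  other `x`. The maximum is `U`, it occurs at `b = τ U`, `f h = Z ≠ U` (`r ≥ 3`); `Hb τ f` holds.
In both cases at least `d - 3` coordinates are free with `r - 1` values, so there are at least
`(r - 1) ^ (d - 3) ≥ (r - 1) ^ (d - 4)` such entries, and at most `d * r ^ 2` entries are
near-diagonal (choose `x`, the value at `x` and the common value).
-/

namespace Pool.Agent.BSubE

open Finset

open Classical in
theorem gada_nd {d r : ℕ} :
    (univ.filter fun f : Fin d → Fin r => Nd f).card ≤ d * r ^ 2 := by
  have h : (univ.filter fun f : Fin d → Fin r => Nd f) ⊆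
      (univ : Finset (Fin d × Fin r × Fin r)).image
        (fun p => Function.update (fun _ => p.2.1) p.1 p.2.2) := by
    intro f hf
    obtain ⟨x, s, hs⟩ := (mem_filter.1 hf).2
    rw [mem_image]
    refine ⟨(x, s, f x), mem_univ _, ?_⟩
    funext y
    by_cases hy : y = x
    · subst hy
      simp
    · rw [Function.update_of_ne hy]
      exact (hs y hy).symm
  refine (card_le_card h).trans (card_image_le.trans ?_)
  rw [card_univ, Fintype.card_prod, Fintype.card_prod, Fintype.card_fin, Fintype.card_fin,
    pow_two]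

theorem gada_fam {d r : ℕ} (hr : 3 ≤ r) (S : Finset (Fin d)) (v : Fin d → Fin r)
    (G : Finset (Fin r)) (hG : G.card = r - 1) (hS : S.card ≤ 3) :
    (r - 1) ^ (d - 4) ≤ (Fintype.piFinset fun x => if x ∈ S then {v x} else G).card := by
  rw [Fintype.card_piFinset]
  have h1 : ∏ x : Fin d, (if x ∈ S then {v x} else G).card =
      ∏ x : Fin d, if x ∈ S then 1 else r - 1 := by
    refine prod_congr rfl fun x _ => ?_
    split_ifs
    · exact card_singleton _
    · exact hG
  rw [h1, prod_ite, prod_const_one, one_mul, prod_const]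
  refine Nat.pow_le_pow_right (by omega) ?_
  have h2 : (univ.filter fun x : Fin d => x ∉ S) = Sᶜ := by
    ext x
    simp
  rw [h2, card_compl, Fintype.card_fin]
  omega

open Classical in
theorem gad_card {d r : ℕ} (hd : 5 ≤ d) (hr : 3 ≤ r) (τ : Fin r → Fin d) (T U Z : Fin r)
    (hT : T.val + 1 = r) (hU : U.val + 2 = r) (hZ : Z.val = 0) (a b x₀ x₁ : Fin d)
    (hτT : τ T = a) (hτU : τ U = b) (hab : a ≠ b) (h01 : x₀ ≠ x₁) (h0a : x₀ ≠ a) (h0b : x₀ ≠ b)
    (h1a : x₁ ≠ a) (h1b : x₁ ≠ b) (c : Fin d × Fin r) :
    (r - 1) ^ (d - 4) ≤ ((Om τ).filter fun f => f c.1 = c.2 ∧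
      f (hub x₀ x₁ Z c).1 = (hub x₀ x₁ Z c).2).card + d * r ^ 2 := by
  have _ := hd
  obtain ⟨h, hh, hhj, hha, hhb⟩ : ∃ h : Fin d, hub x₀ x₁ Z c = (h, Z) ∧ h ≠ c.1 ∧ h ≠ a ∧
      h ≠ b := by
    unfold hub
    by_cases hc : c.1 = x₀
    · rw [if_pos hc]
      exact ⟨x₁, rfl, by rw [hc]; exact h01.symm, h1a, h1b⟩
    · rw [if_neg hc]
      exact ⟨x₀, rfl, fun h => hc h.symm, h0a, h0b⟩
  rw [hh]
  have hTm : ∀ x : Fin r, x ≤ T := by
    intro x
    rw [Fin.le_def]
    have := x.isLt
    omega
  have key : ∀ Fam : Finset (Fin d → Fin r), (r - 1) ^ (d - 4) ≤ Fam.card →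
      (∀ f ∈ Fam, Hb τ f ∧ f c.1 = c.2 ∧ f h = Z) →
      (r - 1) ^ (d - 4) ≤ ((Om τ).filter fun f => f c.1 = c.2 ∧
        f (h, Z).1 = (h, Z).2).card + d * r ^ 2 := by
    intro Fam h1 h2
    have h3 : Fam ⊆ ((Om τ).filter fun f => f c.1 = c.2 ∧ f (h, Z).1 = (h, Z).2) ∪
        (univ.filter fun f : Fin d → Fin r => Nd f) := by
      intro f hf
      obtain ⟨h4, h5, h6⟩ := h2 f hf
      rw [mem_union, mem_filter, mem_filter]
      by_cases hN : Nd f
      · exact Or.inr ⟨mem_univ _, hN⟩
      · refine Or.inl ⟨?_, h5, h6⟩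
        unfold Om
        rw [mem_filter]
        exact ⟨mem_univ _, h4, hN⟩
    have h4 := (card_le_card h3).trans (card_union_le _ _)
    have h5 := gada_nd (d := d) (r := r)
    omega
  have hval : ∀ (S : Finset (Fin d)) (v : Fin d → Fin r) (G : Finset (Fin r))
      (f : Fin d → Fin r), f ∈ (Fintype.piFinset fun x => if x ∈ S then {v x} else G) →
      (∀ x ∈ S, f x = v x) ∧ ∀ x, x ∉ S → f x ∈ G := by
    intro S v G f hf
    rw [Fintype.mem_piFinset] at hf
    constructor
    · intro x hx
      have h1 := hf x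
      rw [if_pos hx, mem_singleton] at h1
      exact h1
    · intro x hx
      have h1 := hf x
      rw [if_neg hx] at h1
      exact h1
  by_cases hc : c.1 ≠ a ∨ c.2 = T
  · refine key _ (gada_fam hr {a, c.1, h}
      (fun x => if x = a then T else if x = h then Z else c.2) (Finset.Iio T) ?_ card_le_three) ?_
    · rw [Fin.card_Iio]
      omega
    · intro f hf
      obtain ⟨h1, -⟩ := hval _ _ _ _ hf
      have fa : f a = T := by
        have h2 := h1 a (by simp)
        rw [if_pos rfl] at h2
        exact h2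
      have fh : f h = Z := by
        have h2 := h1 h (by simp)
        rw [if_neg hha, if_pos rfl] at h2
        exact h2
      refine ⟨⟨T, by rw [hτT]; exact fa, fun x => hTm _, h, ?_⟩, ?_, fh⟩
      · rw [fh]
        intro h2
        rw [h2] at hZ
        omega
      · by_cases hja : c.1 = a
        · rw [hja, fa]
          exact (hc.resolve_left (not_not.2 hja)).symm
        · have h2 := h1 c.1 (by simp)
          rw [if_neg hja, if_neg (Ne.symm hhj)] at h2
          exact h2
  · push Not at hc
    obtain ⟨hja, hlT⟩ := hc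
    have hlU : c.2 ≤ U := by
      rw [Fin.le_def]
      have h1 := c.2.isLt
      have h2 : c.2.val ≠ T.val := fun h => hlT (Fin.ext h)
      omega
    have hZU : Z ≤ U := by
      rw [Fin.le_def]
      omega
    refine key _ (gada_fam hr {a, b, h}
      (fun x => if x = a then c.2 else if x = b then U else Z) (Finset.Iic U) ?_
      card_le_three) ?_
    · rw [Fin.card_Iic]
      omega
    · intro f hf
      obtain ⟨h1, h1'⟩ := hval _ _ _ _ hf
      have fa : f a = c.2 := by
        have h2 := h1 a (by simp)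
        rw [if_pos rfl] at h2
        exact h2
      have fb : f b = U := by
        have h2 := h1 b (by simp)
        rw [if_neg hab.symm, if_pos rfl] at h2
        exact h2
      have fh : f h = Z := by
        have h2 := h1 h (by simp)
        rw [if_neg hha, if_neg hhb] at h2
        exact h2
      refine ⟨⟨U, by rw [hτU]; exact fb, fun x => ?_, h, ?_⟩, by rw [hja]; exact fa, fh⟩
      · by_cases hx : x ∈ ({a, b, h} : Finset (Fin d))
        · simp only [mem_insert, mem_singleton] at hx
          rcases hx with rfl | rfl | rfl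
          · rw [fa]
            exact hlU
          · rw [fb]
          · rw [fh]
            exact hZU
        · exact mem_Iic.1 (h1' x hx)
      · rw [fh]
        intro h2
        rw [h2] at hZ
        omega

end Pool.Agent.BSubE
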