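import Mathlib

set_option autoImplicit false

/-!
# Greedy choice
Choose the points one after the other (induction on finite sets of indices `s ⊆ β`: there is
`p : β → α` with `p i ∈ A i` for all `i` and `¬ R (p i) (p j)` for distinct `i, j ∈ s`). To add
an index `i` avoid the at most `#s * V ≤ card β * V` points `b` with `R (p j) b`, `j ∈ s`.
-/

namespace Pool.Agent.BSubE

open Finset

open Classical in
theorem greedy {α β : Type*} [Fintype α] [Fintype β] (A : β → Finset α) (R : α → α → Prop)
    (hsym : ∀ a b, R a b → R b a) (V : ℕ) (hV : ∀ a, (univ.filter fun b => R a b).card ≤ V)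
    (hA : ∀ i, Fintype.card β * V < (A i).card) :
    ∃ p : β → α, (∀ i, p i ∈ A i) ∧ ∀ i j, i ≠ j → ¬ R (p i) (p j) := by
  have key : ∀ s : Finset β, ∃ p : β → α, (∀ i, p i ∈ A i) ∧
      ∀ i ∈ s, ∀ j ∈ s, i ≠ j → ¬ R (p i) (p j) := by
    intro s
    induction s using Finset.induction_on with
    | empty =>
      have h1 : ∀ i, ∃ a, a ∈ A i := fun i =>
        Finset.card_pos.mp (lt_of_le_of_lt (Nat.zero_le _) (hA i))
      choose p hp using h1
      exact ⟨p, hp, fun i hi => absurd hi (Finset.notMem_empty i)⟩
    | insert i s his ih =>
      obtain ⟨p, hp, hR⟩ := ih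
      have h1 : (s.biUnion fun j => univ.filter fun b => R (p j) b).card ≤
          Fintype.card β * V := by
        refine (Finset.card_biUnion_le_card_mul _ _ V fun j _ => hV (p j)).trans ?_
        exact Nat.mul_le_mul_right V (Finset.card_le_univ s)
      obtain ⟨b, hb, hb'⟩ := Finset.exists_mem_notMem_of_card_lt_card
        (lt_of_le_of_lt h1 (hA i))
      have hb2 : ∀ j ∈ s, ¬ R (p j) b := by
        intro j hj hjb
        exact hb' (Finset.mem_biUnion.mpr ⟨j, hj, Finset.mem_filter.mpr ⟨mem_univ b, hjb⟩⟩)
      refine ⟨Function.update p i b, fun j => ?_, fun j hj l hl hjl => ?_⟩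
      · by_cases hji : j = i
        · subst hji
          rw [Function.update_self]
          exact hb
        · rw [Function.update_of_ne hji]
          exact hp j
      · by_cases hji : j = i
        · subst hji
          have hlj : l ≠ j := fun h => hjl h.symm
          rw [Function.update_self, Function.update_of_ne hlj]
          have hls : l ∈ s := (Finset.mem_insert.mp hl).resolve_left hlj
          exact fun h => hb2 l hls (hsym _ _ h)
        · have hjs : j ∈ s := (Finset.mem_insert.mp hj).resolve_left hji
          rw [Function.update_of_ne hji]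
          by_cases hli : l = i
          · subst hli
            rw [Function.update_self]
            exact hb2 j hjs
          · rw [Function.update_of_ne hli]
            exact hR j hjs l ((Finset.mem_insert.mp hl).resolve_left hli) hjl
  obtain ⟨p, hp, hR⟩ := key univ
  exact ⟨p, hp, fun i j hij => hR i (mem_univ i) j (mem_univ j) hij⟩

end Pool.Agent.BSubE
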