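import Mathlib
import Pool.Agent.Lib.MP_79bff1_ag_E.Defs
import Pool.Agent.Lib.MP_79bff1_ag_E.Grd
import Pool.Agent.Lib.MP_79bff1_ag_E.Ball
import Pool.Agent.Lib.MP_79bff1_ag_E.GadA

set_option autoImplicit false

/-!
# The gadget family
`greedy` with `β = (Fin d × Fin r) × Fin N` (cardinality `d * r * N`), `R a b = ¬ Far a b`,
`V = (d * r) ^ 2` (`ball_card`), `A u` the set of `gad_card` for the class `u.1`.
-/

namespace Pool.Agent.BSubE

open Finset

theorem gadgets {d r : ℕ} (hd : 5 ≤ d) (hr : 3 ≤ r) (τ : Fin r → Fin d) (T U Z : Fin r)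
    (hT : T.val + 1 = r) (hU : U.val + 2 = r) (hZ : Z.val = 0) (a b x₀ x₁ : Fin d)
    (hτT : τ T = a) (hτU : τ U = b) (hab : a ≠ b) (h01 : x₀ ≠ x₁) (h0a : x₀ ≠ a) (h0b : x₀ ≠ b)
    (h1a : x₁ ≠ a) (h1b : x₁ ≠ b) (N : ℕ)
    (hN : d * r * N * (d * r) ^ 2 + d * r ^ 2 < (r - 1) ^ (d - 4)) :
    ∃ p : (Fin d × Fin r) × Fin N → (Fin d → Fin r),
      (∀ u, p u ∈ Om τ ∧ p u u.1.1 = u.1.2 ∧
        p u (hub x₀ x₁ Z u.1).1 = (hub x₀ x₁ Z u.1).2) ∧
      ∀ u v, u ≠ v → Far (p u) (p v) := by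
  classical
  have hbc : Fintype.card ((Fin d × Fin r) × Fin N) = d * r * N := by
    rw [Fintype.card_prod, Fintype.card_prod, Fintype.card_fin, Fintype.card_fin,
      Fintype.card_fin]
  obtain ⟨p, hp1, hp2⟩ := greedy (α := Fin d → Fin r) (β := (Fin d × Fin r) × Fin N)
    (fun u => (Om τ).filter fun f => f u.1.1 = u.1.2 ∧
      f (hub x₀ x₁ Z u.1).1 = (hub x₀ x₁ Z u.1).2)
    (fun f g => ¬ Far f g) (fun f g h h' => h (far_symm h')) ((d * r) ^ 2)
    (fun f => by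
      have h := ball_card f
      convert h) (by
      intro u
      have h := gad_card hd hr τ T U Z hT hU hZ a b x₀ x₁ hτT hτU hab h01 h0a h0b h1a h1b u.1
      rw [hbc]
      have h2 : ((Om τ).filter fun f => f u.1.1 = u.1.2 ∧
          f (hub x₀ x₁ Z u.1).1 = (hub x₀ x₁ Z u.1).2).card + d * r ^ 2 >
          d * r * N * (d * r) ^ 2 + d * r ^ 2 := lt_of_lt_of_le hN (by convert h)
      omega)
  refine ⟨p, fun u => ?_, fun u v huv => ?_⟩
  · have h := hp1 u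
    rw [mem_filter] at h
    exact h
  · have h := hp2 u v huv
    exact not_not.mp h

end Pool.Agent.BSubE
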