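import Mathlib
import Pool.Agent.Lib.MP_79bff1_ag_E.Defs
import Pool.Agent.Lib.MP_79bff1_ag_E.Cas1
import Pool.Agent.Lib.MP_79bff1_ag_E.Cas2

set_option autoImplicit false

/-!
# Hall's inequality with slack
-/

namespace Pool.Agent.BSubE

open Finset

theorem hall_slack {d r : ℕ} (hd : 40 ≤ d) (hdr : d ≤ r) (hr : 6 * r ≤ d ^ 2)
    (τ : Fin r → Fin d) (T U : Fin r) (hT : T.val + 1 = r) (hU : U.val + 2 = r) (a b : Fin d)
    (hτT : τ T = a) (hτU : τ U = b) (hab : a ≠ b) (m : ℕ) (hm : (Om τ).card ≤ d * r * m)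
    (S : Fin d → Finset (Fin r)) (h1 : ∃ x, (S x).Nonempty) (h2 : ∃ x, S x ≠ univ) :
    (inBox (Om τ) S).card + r ^ 9 ≤ m * ∑ x, (S x).card := by
  have key : d * r * (inBox (Om τ) S).card + d * r * r ^ 9 ≤
      (Om τ).card * ∑ x, (S x).card := by
    rcases le_total (d * r) (∑ x, (S x).card + 4 * r) with h | h
    · exact case_one hd hdr hr τ T U hT hU a b hτT hτU hab S h2 h
    · exact case_two hd hdr τ S h1 h
  have h3 : (Om τ).card * ∑ x, (S x).card ≤ d * r * m * ∑ x, (S x).card :=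
    Nat.mul_le_mul_right _ hm
  have h4 : 0 < d * r := by
    have : 0 < d := by omega
    have : 0 < r := by omega
    positivity
  have h5 : d * r * ((inBox (Om τ) S).card + r ^ 9) ≤ d * r * (m * ∑ x, (S x).card) := by
    calc d * r * ((inBox (Om τ) S).card + r ^ 9)
        = d * r * (inBox (Om τ) S).card + d * r * r ^ 9 := by ring
      _ ≤ _ := key
      _ ≤ _ := h3
      _ = _ := by ring
  exact Nat.le_of_mul_le_mul_left h5 h4

end Pool.Agent.BSubE
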