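import Mathlib
import Pool.Agent.Lib.MP_79bff1_ag_E.Defs
import Pool.Agent.Lib.MP_79bff1_ag_E.Fib

set_option autoImplicit false

/-!
# Entries outside a box, level by level
For `k : Fin r` let `L k = {f : f (τ k) = k, f x ≤ k for x ≠ τ k}`. By `card_fib`,
`|L k| = (k + 1) ^ (d - 1)` and `|L k ∩ box| ≤ ∏_{x ≠ τ k} |S x ∩ [0, k]|`. The sets
`L k \ box` are disjoint (`k` is the maximum of `f`). An `f ∈ L k \ box` which is not
near-diagonal is in `Om τ` (if `f x = k` for all `x` then `f` is near-diagonal) and not in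
`inBox (Om τ) S`. There are at most `d * r ^ 2` near-diagonal entries (coordinate, value there,
common value). (Compare the proof of `hit_lower` in Hit.lean of this folder.)
-/

namespace Pool.Agent.BSubE

open Finset

open Classical in
private theorem lev_nd {d r : ℕ} :
    ((univ : Finset (Fin d → Fin r)).filter fun f => Nd f).card ≤ d * r ^ 2 := by
  have h1 : ((univ : Finset (Fin d → Fin r)).filter fun f => Nd f) ⊆
      (univ : Finset (Fin d × Fin r × Fin r)).image
        fun p => fun y => if y = p.1 then p.2.1 else p.2.2 := by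
    intro f hf
    obtain ⟨x, s, hs⟩ := (mem_filter.1 hf).2
    refine mem_image.2 ⟨(x, f x, s), mem_univ _, ?_⟩
    funext y
    dsimp only
    split_ifs with hy
    · rw [hy]
    · exact (hs y hy).symm
  refine (card_le_card h1).trans (card_image_le.trans (le_of_eq ?_))
  rw [card_univ, Fintype.card_prod, Fintype.card_prod, Fintype.card_fin, Fintype.card_fin]
  ring

theorem lev_sum {d r : ℕ} (hd : 2 ≤ d) (τ : Fin r → Fin d) (S : Fin d → Finset (Fin r))
    (L : Finset (Fin r)) :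
    ∑ k ∈ L, (((k.val : ℝ) + 1) ^ (d - 1) -
        ∏ x ∈ univ.erase (τ k), (((S x).filter fun l => l ≤ k).card : ℝ)) ≤
      ((Om τ).card : ℝ) - ((inBox (Om τ) S).card : ℝ) + d * (r : ℝ) ^ 2 := by
  classical
  obtain ⟨Lv, hLv⟩ : ∃ Lv : Fin r → Finset (Fin d → Fin r), Lv = fun k => univ.filter
      fun f => f (τ k) = k ∧ ∀ x, x ≠ τ k → f x ∈ Finset.Iic k := ⟨_, rfl⟩
  have hm : ∀ k f, f ∈ Lv k ↔ f (τ k) = k ∧ ∀ x, f x ≤ k := by
    intro k f
    rw [hLv]
    simp only [mem_filter, mem_univ, true_and, mem_Iic]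
    constructor
    · rintro ⟨h3, h4⟩
      refine ⟨h3, fun x => ?_⟩
      by_cases hx : x = τ k
      · rw [hx, h3]
      · exact h4 x hx
    · rintro ⟨h3, h4⟩
      exact ⟨h3, fun x _ => h4 x⟩
  obtain ⟨Bx, hBx⟩ : ∃ Bx : Finset (Fin d → Fin r), Bx = univ.filter fun f => ∀ x, f x ∈ S x :=
    ⟨_, rfl⟩
  have hmX : ∀ f, f ∈ Bx ↔ ∀ x, f x ∈ S x := fun f => by rw [hBx]; simp
  have hmI : ∀ f, f ∈ inBox (Om τ) S ↔ f ∈ Om τ ∧ f ∈ Bx := by
    intro f
    rw [hmX]
    unfold inBox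
    rw [mem_filter]
  have hcard : ∀ k, (Lv k).card = (k.val + 1) ^ (d - 1) := by
    intro k
    have h1 := card_fib (τ k) k (fun _ => Finset.Iic k)
    rw [hLv]
    refine h1.trans ?_
    rw [prod_const, card_erase_of_mem (mem_univ _), card_univ, Fintype.card_fin, Fin.card_Iic]
  have hbox : ∀ k, (Lv k ∩ Bx).card ≤
      ∏ x ∈ univ.erase (τ k), ((S x).filter fun l => l ≤ k).card := by
    intro k
    rw [← card_fib (τ k) k (fun x => (S x).filter fun l => l ≤ k)]
    refine card_le_card fun f hf => ?_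
    rw [mem_inter, hm, hmX] at hf
    rw [mem_filter]
    exact ⟨mem_univ _, hf.1.1, fun x _ => mem_filter.2 ⟨hf.2 x, hf.1.2 x⟩⟩
  have hterm : ∀ k, (((k.val : ℝ) + 1) ^ (d - 1) -
      ∏ x ∈ univ.erase (τ k), (((S x).filter fun l => l ≤ k).card : ℝ)) ≤
      ((Lv k \ Bx).card : ℝ) := by
    intro k
    have h1 : (Lv k ∩ Bx).card + (Lv k \ Bx).card = (k.val + 1) ^ (d - 1) := by
      rw [card_inter_add_card_sdiff, hcard]
    have h2 : ((Lv k ∩ Bx).card : ℝ) + ((Lv k \ Bx).card : ℝ) = ((k.val : ℝ) + 1) ^ (d - 1) := by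
      exact_mod_cast h1
    have h3 : ((Lv k ∩ Bx).card : ℝ) ≤
        ∏ x ∈ univ.erase (τ k), (((S x).filter fun l => l ≤ k).card : ℝ) := by
      exact_mod_cast hbox k
    linarith
  have hdis : (L : Set (Fin r)).PairwiseDisjoint (fun k => Lv k \ Bx) := by
    intro k _ k' _ hkk
    change Disjoint (Lv k \ Bx) (Lv k' \ Bx)
    rw [disjoint_left]
    intro f hf hf'
    obtain ⟨h1, h2⟩ := (hm k f).1 (mem_sdiff.1 hf).1
    obtain ⟨h3, h4⟩ := (hm k' f).1 (mem_sdiff.1 hf').1
    apply hkk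
    apply le_antisymm
    · have := h4 (τ k)
      rwa [h1] at this
    · have := h2 (τ k')
      rwa [h3] at this
  have hsub : (L.biUnion fun k => Lv k \ Bx) ⊆ (Om τ \ inBox (Om τ) S) ∪
      ((univ : Finset (Fin d → Fin r)).filter fun f => Nd f) := by
    intro f hf
    obtain ⟨k, _, hf⟩ := mem_biUnion.1 hf
    rw [mem_sdiff] at hf
    rw [mem_union, mem_sdiff, mem_filter]
    by_cases hnd : Nd f
    · exact Or.inr ⟨mem_univ _, hnd⟩
    · refine Or.inl ⟨?_, fun h => hf.2 ((hmI f).1 h).2⟩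
      unfold Om
      rw [mem_filter]
      refine ⟨mem_univ _, ?_, hnd⟩
      obtain ⟨h1, h2⟩ := (hm k f).1 hf.1
      refine ⟨k, h1, h2, ?_⟩
      by_contra hcon
      push Not at hcon
      exact hnd ⟨τ k, k, fun y _ => hcon y⟩
  have h1 : (L.biUnion fun k => Lv k \ Bx).card ≤ (Om τ \ inBox (Om τ) S).card + d * r ^ 2 :=
    (card_le_card hsub).trans ((card_union_le _ _).trans (Nat.add_le_add_left lev_nd _))
  have h2 : (Om τ \ inBox (Om τ) S).card + (inBox (Om τ) S).card = (Om τ).card := by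
    refine card_sdiff_add_card_eq_card fun f hf => ?_
    exact ((hmI f).1 hf).1
  rw [card_biUnion hdis] at h1
  have h3 : (∑ k ∈ L, ((Lv k \ Bx).card : ℝ)) ≤
      ((Om τ \ inBox (Om τ) S).card : ℝ) + d * (r : ℝ) ^ 2 := by
    exact_mod_cast h1
  have h4 : ((Om τ \ inBox (Om τ) S).card : ℝ) + ((inBox (Om τ) S).card : ℝ) =
      ((Om τ).card : ℝ) := by
    exact_mod_cast h2
  have h5 := sum_le_sum fun k (_ : k ∈ L) => hterm k
  linarith

end Pool.Agent.BSubE
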