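import Mathlib
import Pool.Agent.Lib.MP_79bff1_ag_E.ProdI

set_option autoImplicit false

/-!
# One level
Let `K = k + 1` (real), `ρ x = #{l : l + s < r, l ∉ S x}`. All these labels are `< k` (as
`r ≤ k + s`), so `ρ x ≤ K` and `|S x ∩ [0, k]| ≤ K - ρ x = K (1 - t x)` with `t x = ρ x / K`.
`prod_mul_le` gives `∏_{x ≠ a} |S x ∩ [0, k]| ≤ K ^ (d - 1) / (1 + y)`, `y = ∑_{x ≠ a} t x`. So the
bracket on the right side is at least `K ^ (d - 1) y / (1 + y)`. Since `∑ ρ x ≤ d r - ∑ |S x| ≤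
4 r` and `K ≥ r - s + 1`, `s ≤ 22 r / 1600`, we have `y ≤ 4 r / (r - s) ≤ 4.06`, `1 + y ≤ 5.1`, and
`K ^ (d - 1) y = K ^ (d - 2) ∑_{x ≠ a} ρ x ≥ (r - s) ^ (d - 2) ∑_{x ≠ a} ρ x` (`0 ≤ r - s ≤ K`).
-/

namespace Pool.Agent.BSubE

open Finset

theorem leva_card {r s : ℕ} (S : Finset (Fin r)) (k : Fin r) (hk : r ≤ k.val + s) :
    (univ.filter fun l : Fin r => l.val + s < r ∧ l ∉ S).card +
      (S.filter fun l => l ≤ k).card ≤ k.val + 1 := by
  have h1 : Disjoint (univ.filter fun l : Fin r => l.val + s < r ∧ l ∉ S)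
      (S.filter fun l => l ≤ k) := by
    rw [disjoint_left]
    intro l h2 h3
    exact (mem_filter.1 h2).2.2 (mem_filter.1 h3).1
  rw [← card_union_of_disjoint h1]
  have h2 : (univ.filter fun l : Fin r => l.val + s < r ∧ l ∉ S) ∪ (S.filter fun l => l ≤ k) ⊆
      Iic k := by
    intro l hl
    rw [mem_Iic]
    rcases mem_union.1 hl with h | h
    · have := (mem_filter.1 h).2.1
      exact Fin.le_def.2 (by omega)
    · exact (mem_filter.1 h).2
  refine (card_le_card h2).trans ?_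
  rw [Fin.card_Iic]

theorem leva_sum {d r s : ℕ} (S : Fin d → Finset (Fin r))
    (hρ : d * r ≤ ∑ x, (S x).card + 4 * r) :
    ∑ x, (univ.filter fun l : Fin r => l.val + s < r ∧ l ∉ S x).card ≤ 4 * r := by
  have h1 : ∀ x, (univ.filter fun l : Fin r => l.val + s < r ∧ l ∉ S x).card + (S x).card ≤ r := by
    intro x
    have h2 : Disjoint (univ.filter fun l : Fin r => l.val + s < r ∧ l ∉ S x) (S x) := by
      rw [disjoint_left]
      intro l h2 h3
      exact (mem_filter.1 h2).2.2 h3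
    rw [← card_union_of_disjoint h2]
    refine (card_le_univ _).trans ?_
    simp
  have h2 : ∑ x, ((univ.filter fun l : Fin r => l.val + s < r ∧ l ∉ S x).card + (S x).card) ≤
      ∑ _x : Fin d, r := sum_le_sum fun x _ => h1 x
  rw [sum_add_distrib, sum_const, card_univ, Fintype.card_fin, smul_eq_mul] at h2
  omega

theorem lev_real {d r s : ℕ} (hd : 40 ≤ d) (hr : 1 ≤ r) (hs : s * d ^ 2 ≤ 22 * r) (a : Fin d)
    (S : Fin d → Finset (Fin r)) (hρ : d * r ≤ ∑ x, (S x).card + 4 * r) (k : Fin r)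
    (hk : r ≤ k.val + s) :
    ((r : ℝ) - s) ^ (d - 2) * ∑ x ∈ univ.erase a,
        ((univ.filter fun l : Fin r => l.val + s < r ∧ l ∉ S x).card : ℝ) ≤
      5.1 * (((k.val : ℝ) + 1) ^ (d - 1) -
        ∏ x ∈ univ.erase a, (((S x).filter fun l => l ≤ k).card : ℝ)) := by
  obtain ⟨ρ, hρ'⟩ : ∃ ρ : Fin d → ℕ,
    ρ = fun x => (univ.filter fun l : Fin r => l.val + s < r ∧ l ∉ S x).card := ⟨_, rfl⟩
  obtain ⟨n, hn⟩ : ∃ n : Fin d → ℕ, n = fun x => ((S x).filter fun l => l ≤ k).card := ⟨_, rfl⟩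
  have e1 : ∑ x ∈ univ.erase a,
      ((univ.filter fun l : Fin r => l.val + s < r ∧ l ∉ S x).card : ℝ) =
      ∑ x ∈ univ.erase a, (ρ x : ℝ) := by rw [hρ']
  have e2 : ∏ x ∈ univ.erase a, (((S x).filter fun l => l ≤ k).card : ℝ) =
      ∏ x ∈ univ.erase a, (n x : ℝ) := by rw [hn]
  rw [e1, e2]
  have hc : ∀ x, ρ x + n x ≤ k.val + 1 := fun x => by
    rw [hρ', hn]
    exact leva_card (S x) k hk
  have hsum : ∑ x, ρ x ≤ 4 * r := by
    rw [hρ']
    exact leva_sum S hρ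
  obtain ⟨K, hK⟩ : ∃ K : ℝ, K = (k.val : ℝ) + 1 := ⟨_, rfl⟩
  rw [← hK]
  have hK0 : 0 < K := by rw [hK]; positivity
  have hs1 : s * 1600 ≤ 22 * r := by
    have : 40 ^ 2 ≤ d ^ 2 := Nat.pow_le_pow_left hd 2
    nlinarith
  have hs2 : (s : ℝ) * 1600 ≤ 22 * r := by exact_mod_cast hs1
  have hr' : (1 : ℝ) ≤ r := by exact_mod_cast hr
  have hks : (r : ℝ) ≤ k.val + s := by exact_mod_cast hk
  have hrs0 : 0 ≤ (r : ℝ) - s := by linarith
  have hrsK : (r : ℝ) - s ≤ K := by rw [hK]; linarith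
  have hSr : ∑ x ∈ univ.erase a, (ρ x : ℝ) ≤ 4 * r := by
    have h1 : ∑ x ∈ univ.erase a, (ρ x : ℝ) ≤ ∑ x, (ρ x : ℝ) :=
      sum_le_sum_of_subset_of_nonneg (erase_subset _ _) fun _ _ _ => by positivity
    have h2 : ∑ x, (ρ x : ℝ) ≤ 4 * r := by exact_mod_cast hsum
    linarith
  have hcK : ∀ x, (ρ x : ℝ) + n x ≤ K := fun x => by
    rw [hK]
    exact_mod_cast hc x
  have hP := prod_mul_le (univ.erase a) (fun x => (ρ x : ℝ) / K)
    (fun x _ => by positivity) (fun x _ => by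
      rw [div_le_one hK0]
      have := hcK x
      have h2 : (0 : ℝ) ≤ n x := by positivity
      linarith)
  rw [← sum_div] at hP
  obtain ⟨R, hR⟩ : ∃ R, R = ∑ x ∈ univ.erase a, (ρ x : ℝ) := ⟨_, rfl⟩
  rw [← hR] at hP hSr ⊢
  have hR0 : 0 ≤ R := by rw [hR]; exact sum_nonneg fun _ _ => by positivity
  have hcard : (univ.erase a : Finset (Fin d)).card = d - 1 := by
    rw [card_erase_of_mem (mem_univ a), card_univ, Fintype.card_fin]
  have hprod : ∏ x ∈ univ.erase a, (n x : ℝ) ≤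
      K ^ (d - 1) * ∏ x ∈ univ.erase a, (1 - (ρ x : ℝ) / K) := by
    rw [← hcard, ← prod_const, ← prod_mul_distrib]
    refine prod_le_prod (fun _ _ => by positivity) fun x _ => ?_
    have h2 : K * (1 - (ρ x : ℝ) / K) = K - ρ x := by field_simp
    rw [h2]
    have := hcK x
    linarith
  have hy : 0 ≤ R / K := by positivity
  have hy2 : 1 + R / K ≤ 5.1 := by
    have : R / K ≤ 4.1 := by
      rw [div_le_iff₀ hK0]
      nlinarith
    linarith
  obtain ⟨Q, hQ⟩ : ∃ Q, Q = ∏ x ∈ univ.erase a, (n x : ℝ) := ⟨_, rfl⟩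
  rw [← hQ] at hprod ⊢
  have hKd : 0 < K ^ (d - 1) := by positivity
  have hQ1 : Q * (1 + R / K) ≤ K ^ (d - 1) := by
    calc Q * (1 + R / K) ≤ (K ^ (d - 1) * ∏ x ∈ univ.erase a, (1 - (ρ x : ℝ) / K)) *
        (1 + R / K) := mul_le_mul_of_nonneg_right hprod (by positivity)
      _ = K ^ (d - 1) * ((∏ x ∈ univ.erase a, (1 - (ρ x : ℝ) / K)) * (1 + R / K)) := by ring
      _ ≤ K ^ (d - 1) * 1 := mul_le_mul_of_nonneg_left hP hKd.le
      _ = K ^ (d - 1) := mul_one _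
  have hQ0 : 0 ≤ Q := by rw [hQ]; exact prod_nonneg fun _ _ => by positivity
  have hQK : Q ≤ K ^ (d - 1) := by
    have : Q * 1 ≤ Q * (1 + R / K) := mul_le_mul_of_nonneg_left (by linarith) hQ0
    linarith
  have hKR : K ^ (d - 1) * (R / K) = K ^ (d - 2) * R := by
    have : d - 1 = (d - 2) + 1 := by omega
    rw [this, pow_succ]
    field_simp
  calc ((r : ℝ) - s) ^ (d - 2) * R ≤ K ^ (d - 2) * R :=
        mul_le_mul_of_nonneg_right (pow_le_pow_left₀ hrs0 hrsK _) hR0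
    _ = K ^ (d - 1) * (R / K) := hKR.symm
    _ ≤ (1 + R / K) * (K ^ (d - 1) - Q) := by nlinarith
    _ ≤ 5.1 * (K ^ (d - 1) - Q) := mul_le_mul_of_nonneg_right hy2 (by linarith)

end Pool.Agent.BSubE
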