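import Mathlib
import Pool.Agent.Lib.MP_79bff1_ag_E.Defs
import Pool.Agent.Lib.MP_79bff1_ag_E.Lev
import Pool.Agent.Lib.MP_79bff1_ag_E.LevA
import Pool.Agent.Lib.MP_79bff1_ag_E.CycC

set_option autoImplicit false

/-!
# The top `s` levels
`L = {k : r ≤ k + s}` has `s` elements (`s ≤ 22 r / d ^ 2 ≤ r`). Sum `lev_real` (with
`a = cyc k`) over `k ∈ L` and use `lev_sum`; by exchanging the sums
`∑_{k ∈ L} ∑_{x ≠ cyc k} ρ x = ∑_x ρ x (s - #{k ∈ L : cyc k = x}) ≥ (2 / 3) s ∑_x ρ x`
(`cyc_count`), and `5.1 * 3 / 2 = 7.65`.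
-/

namespace Pool.Agent.BSubE

open Finset

theorem par_cardL {r s : ℕ} (h : s ≤ r) :
    (univ.filter fun k : Fin r => r ≤ k.val + s).card = s := by
  rcases Nat.eq_zero_or_pos s with h0 | h0
  · subst h0
    rw [card_eq_zero, filter_eq_empty_iff]
    intro k _
    have := k.isLt
    omega
  · have h1 : (univ.filter fun k : Fin r => r ≤ k.val + s) =
        (univ : Finset (Fin s)).image fun i => (⟨r - 1 - i.val, by omega⟩ : Fin r) := by
      ext k
      rw [mem_filter, mem_image]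
      constructor
      · rintro ⟨_, h2⟩
        have h3 := k.isLt
        refine ⟨⟨r - 1 - k.val, by omega⟩, mem_univ _, Fin.ext ?_⟩
        change r - 1 - (r - 1 - k.val) = k.val
        omega
      · rintro ⟨i, _, hi⟩
        refine ⟨mem_univ _, ?_⟩
        rw [← hi]
        have := i.isLt
        change r ≤ r - 1 - i.val + s
        omega
    rw [h1, card_image_of_injective, card_univ, Fintype.card_fin]
    intro i j hij
    have h2 := congrArg Fin.val hij
    have h3 := i.isLt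
    have h4 := j.isLt
    dsimp only at h2
    exact Fin.ext (by omega)

theorem par_sum {d r s : ℕ} (hd : 40 ≤ d) (h3 : 3 ≤ s) (hsr : s ≤ r) (ρ : Fin d → ℝ)
    (h0 : ∀ x, 0 ≤ ρ x) :
    2 * (s : ℝ) * ∑ x, ρ x ≤
      3 * ∑ k ∈ univ.filter (fun k : Fin r => r ≤ k.val + s),
        ∑ x ∈ univ.erase (cyc (by omega : 0 < d) k), ρ x := by
  have h1 : ∀ k : Fin r, ∑ x ∈ univ.erase (cyc (by omega : 0 < d) k), ρ x =
      ∑ x, ρ x - ρ (cyc (by omega : 0 < d) k) := by
    intro k
    rw [← add_sum_erase univ ρ (mem_univ (cyc (by omega : 0 < d) k))]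
    ring
  rw [sum_congr rfl fun k _ => h1 k, sum_sub_distrib, sum_const, par_cardL hsr, nsmul_eq_mul,
    ← sum_fiberwise (univ.filter fun k : Fin r => r ≤ k.val + s)
      (fun k => cyc (by omega : 0 < d) k) (fun k => ρ (cyc (by omega : 0 < d) k))]
  have h4 : ∀ x : Fin d, 3 * ∑ k ∈ (univ.filter fun k : Fin r => r ≤ k.val + s) with
      cyc (by omega : 0 < d) k = x, ρ (cyc (by omega : 0 < d) k) ≤ (s : ℝ) * ρ x := by
    intro x
    have h5 : ∑ k ∈ (univ.filter fun k : Fin r => r ≤ k.val + s) with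
        cyc (by omega : 0 < d) k = x, ρ (cyc (by omega : 0 < d) k) =
        ((univ.filter fun k : Fin r => r ≤ k.val + s ∧
          cyc (by omega : 0 < d) k = x).card : ℝ) * ρ x := by
      rw [filter_filter, sum_congr rfl (g := fun _ => ρ x), sum_const, nsmul_eq_mul]
      intro k hk
      rw [(mem_filter.1 hk).2.2]
    rw [h5]
    have h6 : (3 : ℝ) * ((univ.filter fun k : Fin r => r ≤ k.val + s ∧
          cyc (by omega : 0 < d) k = x).card : ℝ) ≤ s := by
      exact_mod_cast cyc_count hd h3 x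
    nlinarith [h0 x]
  have h7 := sum_le_sum fun x (_ : x ∈ (univ : Finset (Fin d))) => h4 x
  rw [← mul_sum, ← mul_sum] at h7
  linarith

theorem par_lower {d r s : ℕ} (hd : 40 ≤ d) (hr : 1 ≤ r) (hs : s * d ^ 2 ≤ 22 * r) (h3 : 3 ≤ s)
    (S : Fin d → Finset (Fin r)) (hρ : d * r ≤ ∑ x, (S x).card + 4 * r) :
    (s : ℝ) * ((r : ℝ) - s) ^ (d - 2) *
        ∑ x, ((univ.filter fun l : Fin r => l.val + s < r ∧ l ∉ S x).card : ℝ) ≤
      7.65 * (((Om (cyc (r := r) (by omega : 0 < d))).card : ℝ) -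
        ((inBox (Om (cyc (r := r) (by omega : 0 < d))) S).card : ℝ) + d * (r : ℝ) ^ 2) := by
  have hs1 : s * 1600 ≤ 22 * r := by
    have : 40 ^ 2 ≤ d ^ 2 := Nat.pow_le_pow_left hd 2
    nlinarith
  have hsr : s ≤ r := by omega
  have hsum := par_sum hd h3 hsr
    (fun x => ((univ.filter fun l : Fin r => l.val + s < r ∧ l ∉ S x).card : ℝ))
    (fun x => Nat.cast_nonneg _)
  have hlev := lev_sum (by omega : 2 ≤ d) (cyc (r := r) (by omega : 0 < d)) S
    (univ.filter fun k : Fin r => r ≤ k.val + s)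
  have hre := sum_le_sum fun k (hk : k ∈ univ.filter (fun k : Fin r => r ≤ k.val + s)) =>
    lev_real hd hr hs (cyc (r := r) (by omega : 0 < d) k) S hρ k (mem_filter.1 hk).2
  rw [← mul_sum, ← mul_sum] at hre
  have hp : 0 ≤ ((r : ℝ) - s) ^ (d - 2) := by
    refine pow_nonneg ?_ _
    have : (s : ℝ) ≤ r := by exact_mod_cast hsr
    linarith
  have h5 := mul_le_mul_of_nonneg_left hsum hp
  nlinarith

end Pool.Agent.BSubE
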