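import Mathlib

set_option autoImplicit false

/-!
# The numerical inequality for the top levels
`A = |Om|`, `B = |Om ∩ S|`, `P` the removed classes with labels `< r - s`, `Q` all removed classes,
`Sg = ∑_{k ≤ r} k ^ (d - 1)`, `ε = 24 / d ^ 2`, `K = Sg / (d r)`. By `hmain`, `hA`
`B ≤ Sg + d r ^ 2 - s (r - s) ^ (d - 2) P / 7.65`, and the right side is at least
`(1 + ε) Sg - (1 + ε) K (P + s d)`. So it is enough that
(a) `s (r - s) ^ (d - 2) / 7.65 ≥ (1 + ε) K` and (b) `ε Sg ≥ (1 + ε) K s d + d r ^ 2`.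
(a): Bernoulli `(r - s) ^ (d - 2) ≥ r ^ (d - 2) (1 - (d - 2) s / r)`; with `σ = s d ^ 2 / r` in
`[15, 22]` the left side is at least `(r ^ (d - 1) / d ^ 2) σ (1 - σ (d - 2) / d ^ 2) / 7.65`, and
`K ≤ (r ^ (d - 1) / d ^ 2) (1 + d / r) ≤ (r ^ (d - 1) / d ^ 2) (1 + 7 / d)`. Finally
`(d - 2) / d ^ 2 ≤ 38 / 1600`, `σ ^ 2 ≤ 37 σ - 330` (from `(σ - 15) (22 - σ) ≥ 0`), so
`σ (1 - σ (d - 2) / d ^ 2) ≥ 0.12125 σ + 7.8375 ≥ 9.65`, while
`7.65 (1 + 24 / d ^ 2) (1 + 7 / d) ≤ 7.65 * 1.015 * 1.175 ≤ 9.13`.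
(b): `K s d = Sg s / r ≤ 22 Sg / d ^ 2`, `(1 + ε) 22 ≤ 22.33`, and `1.67 Sg / d ^ 2 ≥ d r ^ 2` since
`Sg ≥ r ^ d / d` and `r ^ (d - 2) ≥ d ^ 4` (`r ≥ d`, `d ≥ 40`).
-/

namespace Pool.Agent.BSubE

open Finset

theorem parn_core {D R S x y A B P Q Sg : ℝ} (hD : 40 ≤ D) (hR : D ^ 2 ≤ 7 * R)
    (h1 : 15 * R ≤ S * D ^ 2) (h2 : S * D ^ 2 ≤ 22 * R) (hx : D ^ 4 ≤ x)
    (hy : x * (1 - (D - 2) * (S / R)) ≤ y) (hA : A ≤ Sg) (hS1 : x * R ^ 2 / D ≤ Sg)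
    (hS2 : Sg ≤ x * R ^ 2 / D + x * R) (hP : 0 ≤ P) (hQ : Q ≤ P + S * D)
    (hmain : S * y * P ≤ 7.65 * (A - B + D * R ^ 2)) :
    B ≤ (1 + 24 / D ^ 2) * (Sg / (D * R)) * (D * R - Q) := by
  have hD0 : 0 < D := by linarith
  have hD2 : (1600 : ℝ) ≤ D ^ 2 := by nlinarith
  have hR0 : 0 < R := by nlinarith
  have hS0 : 0 < S := by
    by_contra h
    push Not at h
    nlinarith [mul_nonneg (neg_nonneg.2 h) (sq_nonneg D)]
  have hx0 : 0 < x := lt_of_lt_of_le (by positivity) hx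
  -- `e`
  obtain ⟨e, he⟩ : ∃ e, e = 1 + 24 / D ^ 2 := ⟨_, rfl⟩
  have he1 : 1 ≤ e := by
    rw [he]
    have : 0 ≤ 24 / D ^ 2 := by positivity
    linarith
  have he2 : e ≤ 1.015 := by
    rw [he]
    have : 24 / D ^ 2 ≤ 0.015 := by
      rw [div_le_iff₀ (by positivity)]
      linarith
    linarith
  -- `σ`
  obtain ⟨σ, hσ⟩ : ∃ σ, σ = S * D ^ 2 / R := ⟨_, rfl⟩
  have hσR : σ * R = S * D ^ 2 := by
    rw [hσ]
    field_simp
  have hσ1 : 15 ≤ σ := by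
    rw [hσ, le_div_iff₀ hR0]
    exact h1
  have hσ2 : σ ≤ 22 := by
    rw [hσ, div_le_iff₀ hR0]
    exact h2
  -- `q = D / R`
  have hq : D / R ≤ 0.175 := by
    rw [div_le_iff₀ hR0]
    nlinarith
  obtain ⟨k, hk⟩ : ∃ k, k = Sg / (D * R) := ⟨_, rfl⟩
  have hSg0 : 0 < Sg := lt_of_lt_of_le (by positivity) hS1
  have hk0 : 0 ≤ k := by
    rw [hk]
    positivity
  have hkS : k * (D * R) = Sg := by
    rw [hk]
    field_simp
  -- upper bound of `k`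
  have hk1 : k ≤ x * R / D ^ 2 * (1 + D / R) := by
    rw [hk, div_le_iff₀ (by positivity)]
    refine hS2.trans (le_of_eq ?_)
    field_simp
  have hk2 : k ≤ x * R / D ^ 2 * 1.175 :=
    hk1.trans (mul_le_mul_of_nonneg_left (by linarith) (by positivity))
  -- lower bound of `S y`
  have hSy : x * R / D ^ 2 * (σ * (1 - σ * ((D - 2) / D ^ 2))) ≤ S * y := by
    refine le_trans (le_of_eq ?_) (mul_le_mul_of_nonneg_left hy hS0.le)
    rw [hσ]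
    field_simp
  have hfr : (D - 2) / D ^ 2 ≤ 0.02375 := by
    rw [div_le_iff₀ (by positivity)]
    nlinarith [mul_nonneg (by linarith : (0:ℝ) ≤ D - 40) (by linarith : (0:ℝ) ≤ 38 * D - 80)]
  have hσb : (9.65 : ℝ) ≤ σ * (1 - σ * ((D - 2) / D ^ 2)) := by
    have h5 : σ * σ * ((D - 2) / D ^ 2) ≤ σ * σ * 0.02375 :=
      mul_le_mul_of_nonneg_left hfr (by positivity)
    nlinarith [mul_nonneg (by linarith : (0:ℝ) ≤ σ - 15) (by linarith : (0:ℝ) ≤ 22 - σ)]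
  have hM : 0 ≤ x * R / D ^ 2 := by positivity
  have ha : 7.65 * (e * k) ≤ S * y := by
    refine le_trans ?_ hSy
    have h5 : e * k ≤ 1.015 * (x * R / D ^ 2 * 1.175) :=
      mul_le_mul he2 hk2 hk0 (by norm_num)
    have h6 := mul_le_mul_of_nonneg_left hσb hM
    nlinarith
  -- (b)
  have hb : e * (k * (S * D)) + D * R ^ 2 ≤ (e - 1) * Sg := by
    have h5 : k * (S * D) = Sg / D ^ 2 * σ := by
      rw [hk, hσ]
      field_simp
    have h6 : 0 ≤ Sg / D ^ 2 := by positivity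
    have h7 : (e - 1) * Sg = 24 * (Sg / D ^ 2) := by
      rw [he]
      field_simp
      ring
    have h8 : e * (Sg / D ^ 2 * σ) ≤ 1.015 * (Sg / D ^ 2 * 22) :=
      mul_le_mul he2 (mul_le_mul_of_nonneg_left hσ2 h6) (mul_nonneg h6 (by linarith))
        (by norm_num)
    have h9 : D * R ^ 2 ≤ Sg / D ^ 2 := by
      rw [le_div_iff₀ (by positivity)]
      refine le_trans ?_ hS1
      rw [le_div_iff₀ hD0]
      have h10 : D ^ 4 * R ^ 2 ≤ x * R ^ 2 := mul_le_mul_of_nonneg_right hx (by positivity)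
      nlinarith
    rw [h5, h7]
    linarith
  have h3 : 7.65 * (e * k) * P ≤ S * y * P := mul_le_mul_of_nonneg_right ha hP
  have h4 : e * k * Q ≤ e * k * (P + S * D) :=
    mul_le_mul_of_nonneg_left hQ (mul_nonneg (by linarith) hk0)
  rw [← he, ← hk]
  have h5 : e * k * (D * R - Q) = e * Sg - e * k * Q := by
    rw [← hkS]
    ring
  rw [h5]
  nlinarith

theorem par_num {d r s : ℕ} (hd : 40 ≤ d) (hr : d ^ 2 ≤ 7 * r) (hs1 : 15 * r ≤ s * d ^ 2)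
    (hs2 : s * d ^ 2 ≤ 22 * r) (A B P Q Sg : ℝ) (hA : A ≤ Sg) (hS1 : (r : ℝ) ^ d / d ≤ Sg)
    (hS2 : Sg ≤ (r : ℝ) ^ d / d + (r : ℝ) ^ (d - 1)) (hP : 0 ≤ P) (hQ : Q ≤ P + s * d)
    (hmain : (s : ℝ) * ((r : ℝ) - s) ^ (d - 2) * P ≤ 7.65 * (A - B + d * (r : ℝ) ^ 2)) :
    B ≤ (1 + 24 / (d : ℝ) ^ 2) * (Sg / (d * r)) * (d * r - Q) := by
  have hd' : (40 : ℝ) ≤ d := by exact_mod_cast hd
  have hr' : (d : ℝ) ^ 2 ≤ 7 * r := by exact_mod_cast hr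
  have hs1' : 15 * (r : ℝ) ≤ s * (d : ℝ) ^ 2 := by exact_mod_cast hs1
  have hs2' : (s : ℝ) * (d : ℝ) ^ 2 ≤ 22 * r := by exact_mod_cast hs2
  have hr0 : (0 : ℝ) < r := by nlinarith
  have hrd : (d : ℝ) ≤ r := by nlinarith
  have hsr : (s : ℝ) ≤ r := by
    have h0 : (0 : ℝ) ≤ s := Nat.cast_nonneg s
    have h1 : (1600 : ℝ) ≤ (d : ℝ) ^ 2 := by nlinarith
    have h2 := mul_le_mul_of_nonneg_left h1 h0
    linarith
  obtain ⟨m, rfl⟩ : ∃ m, d = m + 2 := ⟨d - 2, by omega⟩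
  rw [Nat.add_sub_cancel] at hmain
  have hm1 : m + 2 - 1 = m + 1 := by omega
  rw [hm1] at hS2
  refine parn_core (x := (r : ℝ) ^ m) (y := ((r : ℝ) - s) ^ m) hd' hr' hs1' hs2' ?_ ?_ hA ?_ ?_
    hP hQ hmain
  · calc ((m + 2 : ℕ) : ℝ) ^ 4 ≤ (r : ℝ) ^ 4 := pow_le_pow_left₀ (by linarith) hrd 4
      _ ≤ (r : ℝ) ^ m := pow_le_pow_right₀ (by linarith) (by omega)
  · have h1 := one_add_mul_le_pow (a := -((s : ℝ) / r)) (by
      have : (s : ℝ) / r ≤ 1 := by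
        rw [div_le_one hr0]
        exact hsr
      linarith) m
    have h2 : ((r : ℝ) - s) ^ m = (r : ℝ) ^ m * (1 + -((s : ℝ) / r)) ^ m := by
      rw [← mul_pow]
      congr 1
      field_simp
      ring
    rw [h2]
    refine mul_le_mul_of_nonneg_left (le_trans (le_of_eq ?_) h1) (by positivity)
    push_cast
    ring
  · refine le_trans (le_of_eq ?_) hS1
    rw [← pow_add]
  · refine hS2.trans (le_of_eq ?_)
    rw [← pow_add, ← pow_succ]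

end Pool.Agent.BSubE
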