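import Mathlib
import Pool.Agent.Lib.MP_79bff1_ag_E.Defs
import Pool.Agent.Lib.MP_79bff1_ag_E.OmB
import Pool.Agent.Lib.MP_79bff1_ag_E.Cas2
import Pool.Agent.Lib.MP_79bff1_ag_E.Par
import Pool.Agent.Lib.MP_79bff1_ag_E.ParN

set_option autoImplicit false

/-!
# The density of boxes for `r ≥ d ^ 2 / 7`
-/

namespace Pool.Agent.BSubE

open Finset

theorem halle_top {r s : ℕ} : (univ.filter fun l : Fin r => r ≤ l.val + s).card ≤ s := by
  have h : (univ.filter fun l : Fin r => r ≤ l.val + s).card ≤ (range s).card := by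
    refine card_le_card_of_injOn (fun l => r - 1 - l.val) (fun l hl => ?_) ?_
    · have h1 := (mem_filter.mp (mem_coe.mp hl)).2
      have h2 := l.isLt
      rw [mem_coe, mem_range]
      show r - 1 - l.val < s
      omega
    · intro l _ l' _ h
      have h1 := l.isLt
      have h2 := l'.isLt
      simp only at h
      exact Fin.ext (by omega)
  rwa [card_range] at h

theorem halle_removed {d r s : ℕ} (S : Fin d → Finset (Fin r)) :
    (d : ℝ) * r - ∑ x, ((S x).card : ℝ) ≤
      ∑ x, ((univ.filter fun l : Fin r => l.val + s < r ∧ l ∉ S x).card : ℝ) + s * d := by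
  have h1 : ∀ x, r ≤ (S x).card +
      ((univ.filter fun l : Fin r => l.val + s < r ∧ l ∉ S x).card + s) := by
    intro x
    have h2 : (univ : Finset (Fin r)) ⊆ S x ∪
        ((univ.filter fun l : Fin r => l.val + s < r ∧ l ∉ S x) ∪
          (univ.filter fun l : Fin r => r ≤ l.val + s)) := by
      intro l _
      rw [mem_union, mem_union, mem_filter, mem_filter]
      by_cases hl : l ∈ S x
      · exact Or.inl hl
      · by_cases hs : l.val + s < r
        · exact Or.inr (Or.inl ⟨mem_univ _, hs, hl⟩)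
        · exact Or.inr (Or.inr ⟨mem_univ _, by omega⟩)
    have h3 := card_le_card h2
    rw [card_univ, Fintype.card_fin] at h3
    refine h3.trans ((card_union_le _ _).trans (Nat.add_le_add_left ?_ _))
    exact (card_union_le _ _).trans (Nat.add_le_add_left halle_top _)
  have h4 : ∑ _x : Fin d, (r : ℝ) ≤ ∑ x, (((S x).card : ℝ) +
      (((univ.filter fun l : Fin r => l.val + s < r ∧ l ∉ S x).card : ℝ) + s)) := by
    refine sum_le_sum fun x _ => ?_
    exact_mod_cast h1 x
  rw [sum_add_distrib, sum_add_distrib, sum_const, sum_const, card_univ, Fintype.card_fin,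
    nsmul_eq_mul, nsmul_eq_mul] at h4
  linarith

theorem density_le {d r : ℕ} (hd : 40 ≤ d) (hr : d ^ 2 ≤ 7 * r) (S : Fin d → Finset (Fin r)) :
    ((inBox (Om (cyc (r := r) (by omega : 0 < d))) S).card : ℝ) ≤
      (1 + 24 / (d : ℝ) ^ 2) * ((∑ i ∈ range r, ((i : ℝ) + 1) ^ (d - 1)) / (d * r)) *
        ∑ x, ((S x).card : ℝ) := by
  have hd0 : 0 < d := by omega
  have hdr : d ≤ r := by
    by_contra hc
    have h1 : 7 * r < 7 * d := by omega
    have h2 : 7 * d ≤ d ^ 2 := by
      rw [pow_two]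
      exact Nat.mul_le_mul_right _ (by omega)
    omega
  have hr0 : 0 < r := by omega
  have hdR : (0 : ℝ) < d := by exact_mod_cast hd0
  have hrR : (0 : ℝ) < r := by exact_mod_cast hr0
  obtain ⟨Sg, hSg⟩ : ∃ Sg : ℝ, Sg = ∑ i ∈ range r, ((i : ℝ) + 1) ^ (d - 1) := ⟨_, rfl⟩
  have hSg0 : 0 ≤ Sg := by
    rw [hSg]
    exact sum_nonneg fun i _ => by positivity
  have hA : ((Om (cyc (r := r) hd0)).card : ℝ) ≤ Sg := by
    have h1 := card_om (by omega : 3 ≤ d) (cyc (r := r) hd0)
    have h2 : (Om (cyc (r := r) hd0)).card ≤ ∑ k ∈ range r, (k + 1) ^ (d - 1) := by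
      refine le_trans (Nat.le_add_right _ _) (le_trans h1.le (sum_le_sum fun k _ => ?_))
      exact Nat.sub_le _ _
    rw [hSg]
    exact_mod_cast h2
  have hsum0 : 0 ≤ ∑ x, ((S x).card : ℝ) := sum_nonneg fun x _ => Nat.cast_nonneg _
  have heps : (1 : ℝ) ≤ 1 + 24 / (d : ℝ) ^ 2 := by
    have : 0 ≤ 24 / (d : ℝ) ^ 2 := by positivity
    linarith
  rw [← hSg]
  rcases le_total (∑ x, (S x).card + 4 * r) (d * r) with hρ | hρ
  · -- case two
    by_cases hne : ∃ x, (S x).Nonempty
    · have h1 := case_two hd hdr (cyc (r := r) hd0) S hne hρ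
      have h2 : d * r * (inBox (Om (cyc (r := r) hd0)) S).card ≤
          (Om (cyc (r := r) hd0)).card * ∑ x, (S x).card := le_trans (Nat.le_add_right _ _) h1
      have h3 : (d : ℝ) * r * ((inBox (Om (cyc (r := r) hd0)) S).card : ℝ) ≤
          ((Om (cyc (r := r) hd0)).card : ℝ) * ∑ x, ((S x).card : ℝ) := by exact_mod_cast h2
      have h4 : (d : ℝ) * r * ((inBox (Om (cyc (r := r) hd0)) S).card : ℝ) ≤
          Sg * ∑ x, ((S x).card : ℝ) := h3.trans (mul_le_mul_of_nonneg_right hA hsum0)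
      have h5 : ((inBox (Om (cyc (r := r) hd0)) S).card : ℝ) ≤
          Sg / (d * r) * ∑ x, ((S x).card : ℝ) := by
        rw [div_mul_eq_mul_div, le_div_iff₀ (by positivity)]
        linarith
      refine h5.trans ?_
      refine mul_le_mul_of_nonneg_right ?_ hsum0
      exact le_mul_of_one_le_left (by positivity) heps
    · have h1 : (inBox (Om (cyc (r := r) hd0)) S) = ∅ := by
        rw [eq_empty_iff_forall_notMem]
        intro f hf
        apply hne
        refine ⟨⟨0, hd0⟩, f ⟨0, hd0⟩, ?_⟩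
        unfold inBox at hf
        exact (mem_filter.mp hf).2 _
      rw [h1, card_empty, Nat.cast_zero]
      positivity
  · -- case one
    obtain ⟨s, hs1, hs2⟩ : ∃ s : ℕ, 15 * r ≤ s * d ^ 2 ∧ s * d ^ 2 ≤ 22 * r := by
      have hd2 : 0 < d ^ 2 := by positivity
      refine ⟨(15 * r + d ^ 2 - 1) / d ^ 2, ?_, ?_⟩
      · have h1 := Nat.lt_div_mul_add hd2 (a := 15 * r + d ^ 2 - 1)
        omega
      · have h1 := Nat.div_mul_le_self (15 * r + d ^ 2 - 1) (d ^ 2)
        omega
    have hs3 : 3 ≤ s := by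
      by_contra hc
      have h1 : s * d ^ 2 ≤ 2 * d ^ 2 := Nat.mul_le_mul_right _ (by omega)
      have hd2 : 0 < d ^ 2 := by positivity
      omega
    have h1 := par_lower hd (by omega : 1 ≤ r) hs2 hs3 S hρ
    have hk : (((d - 1 : ℕ) : ℝ) + 1) = d := by
      have : d - 1 + 1 = d := by omega
      exact_mod_cast congrArg (Nat.cast (R := ℝ)) this
    have hd1 : d - 1 + 1 = d := by omega
    have hS1 := pow_sum_lower r (d - 1)
    have hS2 := pow_sum_upper r (d - 1)
    rw [hk, hd1, ← hSg] at hS1 hS2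
    have h2 := par_num hd hr hs1 hs2 ((Om (cyc (r := r) hd0)).card : ℝ)
      ((inBox (Om (cyc (r := r) hd0)) S).card : ℝ)
      (∑ x, ((univ.filter fun l : Fin r => l.val + s < r ∧ l ∉ S x).card : ℝ))
      ((d : ℝ) * r - ∑ x, ((S x).card : ℝ)) Sg hA hS1 hS2
      (sum_nonneg fun x _ => Nat.cast_nonneg _) (halle_removed S) h1
    refine h2.trans (le_of_eq ?_)
    ring

end Pool.Agent.BSubE
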