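import Mathlib

set_option autoImplicit false

/-!
# Numerical facts
With `D = d r ≤ r ^ 2` and `1 + (d - 1) r ≤ D`: the first left side is at most
`2 D ^ 2 (D + 1) ^ 2 ≤ 2 r ^ 4 (r ^ 2 + 1) ^ 2 ≤ r ^ 9`. The second one is at most
`2 D ^ 4 (D + 1) + r ^ 3 ≤ 2 r ^ 8 (r ^ 2 + 1) + r ^ 3 < r ^ 11 ≤ (r - 1) ^ 12 ≤ (r - 1) ^ (d - 4)`.
-/

namespace Pool.Agent.BSubE

open Finset

theorem num_fac {d r : ℕ} (hd : 40 ≤ d) (hdr : d ≤ r) :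
    d * r ≤ r ^ 2 ∧ 1 + (d - 1) * r ≤ d * r := by
  constructor
  · rw [pow_two]
    exact Nat.mul_le_mul_right r hdr
  · obtain ⟨e, rfl⟩ : ∃ e, d = e + 1 := ⟨d - 1, by omega⟩
    rw [Nat.add_sub_cancel, Nat.succ_mul]
    omega

theorem num_one {d r : ℕ} (hd : 40 ≤ d) (hdr : d ≤ r) :
    d * r * (2 * ((d * r + 1) * (1 + (d - 1) * r))) * (d * r + 1) ≤ r ^ 9 := by
  obtain ⟨h1, h2⟩ := num_fac hd hdr
  have hr : 40 ≤ r := hd.trans hdr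
  calc d * r * (2 * ((d * r + 1) * (1 + (d - 1) * r))) * (d * r + 1)
      ≤ r ^ 2 * (2 * ((r ^ 2 + 1) * r ^ 2)) * (r ^ 2 + 1) := by
        gcongr
        exact h2.trans h1
    _ = 2 * r ^ 8 + 4 * r ^ 6 + 2 * r ^ 4 := by ring
    _ ≤ 2 * r ^ 8 + 4 * r ^ 8 + 2 * r ^ 8 := by
        gcongr <;> omega
    _ = 8 * r ^ 8 := by ring
    _ ≤ r * r ^ 8 := Nat.mul_le_mul_right _ (by omega)
    _ = r ^ 9 := by ring

theorem num_two {d r : ℕ} (hd : 40 ≤ d) (hdr : d ≤ r) :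
    d * r * (2 * ((d * r + 1) * (1 + (d - 1) * r))) * (d * r) ^ 2 + d * r ^ 2 <
      (r - 1) ^ (d - 4) := by
  obtain ⟨h1, h2⟩ := num_fac hd hdr
  have hr : 40 ≤ r := hd.trans hdr
  have h3 : 0 < r ^ 10 := by positivity
  have h4 : 39 * r ≤ 40 * (r - 1) := by omega
  have h5 : r ^ 11 ≤ (r - 1) ^ 12 := by
    have h6 : (39 * r) ^ 12 ≤ (40 * (r - 1)) ^ 12 := Nat.pow_le_pow_left h4 12
    rw [mul_pow, mul_pow] at h6
    have h7 : 40 ^ 12 * r ^ 11 ≤ 39 ^ 12 * r ^ 12 := by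
      calc 40 ^ 12 * r ^ 11 ≤ (39 ^ 12 * 40) * r ^ 11 := Nat.mul_le_mul_right _ (by norm_num)
        _ ≤ (39 ^ 12 * r) * r ^ 11 :=
          Nat.mul_le_mul_right _ (Nat.mul_le_mul_left _ hr)
        _ = 39 ^ 12 * r ^ 12 := by ring
    exact Nat.le_of_mul_le_mul_left (h7.trans h6) (by norm_num)
  calc d * r * (2 * ((d * r + 1) * (1 + (d - 1) * r))) * (d * r) ^ 2 + d * r ^ 2
      ≤ r ^ 2 * (2 * ((r ^ 2 + 1) * r ^ 2)) * (r ^ 2) ^ 2 + r * r ^ 2 := by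
        gcongr
        exact h2.trans h1
    _ = 2 * r ^ 10 + 2 * r ^ 8 + r ^ 3 := by ring
    _ ≤ 2 * r ^ 10 + 2 * r ^ 10 + r ^ 10 := by
        gcongr <;> omega
    _ = 5 * r ^ 10 := by ring
    _ < r * r ^ 10 := Nat.mul_lt_mul_of_pos_right (by omega) h3
    _ = r ^ 11 := by ring
    _ ≤ (r - 1) ^ 12 := h5
    _ ≤ (r - 1) ^ (d - 4) := Nat.pow_le_pow_right (by omega) (by omega)

end Pool.Agent.BSubE
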