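import Mathlib
import Pool.Agent.Lib.MP_79bff1_ag.WDefs
import Pool.Agent.Lib.MP_79bff1_ag_E.Defs
import Pool.Agent.Lib.MP_79bff1_ag_E.Alg
import Pool.Agent.Lib.MP_79bff1_ag_E.Asm
import Pool.Agent.Lib.MP_79bff1_ag_E.HS
import Pool.Agent.Lib.MP_79bff1_ag_E.GadF
import Pool.Agent.Lib.MP_79bff1_ag_E.Num
import Pool.Agent.Lib.MP_79bff1_ag_E.OmB

set_option autoImplicit false

/-!
# The lower bound
-/

namespace Pool.Agent.BSubE

open Finset Pool.Agent.BSub

theorem low {d n r : ℕ} (hd : 40 ≤ d) (hdr : d ≤ r) (hr : 6 * r ≤ d ^ 2) (hrn : r ≤ n)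
    (H : ∑ k ∈ range r, ((k + 1) ^ (d - 1) - 1) ≤ d * (r * n - r * (r + 1) / 2)) :
    Generic fun T : Tensor d n => Degenerates T (unitTensor d r) := by
  have hd0 : 0 < d := by omega
  have hr0 : 0 < r := by omega
  have hr40 : 40 ≤ r := by omega
  -- the four coordinates and the labels
  let x₀ : Fin d := ⟨0, by omega⟩
  let x₁ : Fin d := ⟨1, by omega⟩
  let a : Fin d := ⟨2, by omega⟩
  let b : Fin d := ⟨3, by omega⟩
  let T : Fin r := ⟨r - 1, by omega⟩
  let U : Fin r := ⟨r - 2, by omega⟩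
  let Z : Fin r := ⟨0, by omega⟩
  let τ : Fin r → Fin d := fun l => if l = T then a else if l = U then b else x₀
  have hUT : U ≠ T := by
    intro h
    have := congrArg Fin.val h
    simp only [U, T] at this
    omega
  have hτT : τ T = a := by simp [τ]
  have hτU : τ U = b := by simp [τ, hUT]
  have hT : T.val + 1 = r := by simp only [T]; omega
  have hU : U.val + 2 = r := by simp only [U]; omega
  have hZ : Z.val = 0 := rfl
  have hab : a ≠ b := by
    intro h
    have := congrArg Fin.val h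
    simp [a, b] at this
  have h01 : x₀ ≠ x₁ := by
    intro h
    have := congrArg Fin.val h
    simp [x₀, x₁] at this
  have h0a : x₀ ≠ a := by
    intro h
    have := congrArg Fin.val h
    simp [x₀, a] at this
  have h0b : x₀ ≠ b := by
    intro h
    have := congrArg Fin.val h
    simp [x₀, b] at this
  have h1a : x₁ ≠ a := by
    intro h
    have := congrArg Fin.val h
    simp [x₁, a] at this
  have h1b : x₁ ≠ b := by
    intro h
    have := congrArg Fin.val h
    simp [x₁, b] at this
  -- the cardinality of `Om`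
  have hcard : (Om τ).card ≤ d * r * (n - r) := by
    have h1 := card_om (by omega : 3 ≤ d) τ
    rw [← h1] at H
    obtain ⟨m, rfl⟩ : ∃ m, n = r + m := ⟨n - r, by omega⟩
    obtain ⟨c, hc⟩ : ∃ c, r * (r + 1) = 2 * c := by
      obtain ⟨c, hc⟩ := Nat.even_mul_succ_self r
      exact ⟨c, by omega⟩
    obtain ⟨e, he⟩ : ∃ e, r = e + 1 := ⟨r - 1, by omega⟩
    have h2 : r * (r + 1) / 2 = c := by omega
    have h3 : r * (r - 1) / 2 + c = r * r := by
      obtain ⟨c', hc'⟩ : ∃ c', e * (e + 1) = 2 * c' := by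
        obtain ⟨c', hc'⟩ := Nat.even_mul_succ_self e
        exact ⟨c', by omega⟩
      have h4 : r * (r - 1) = 2 * c' := by
        rw [he, Nat.add_sub_cancel, mul_comm]
        exact hc'
      rw [h4, Nat.mul_div_cancel_left _ (by norm_num)]
      have h5 : 2 * (c' + c) = 2 * (r * r) := by
        rw [mul_add, ← hc, ← hc', he]
        ring
      omega
    rw [h2] at H
    have h6 : r * (r + m) - c = r * (r - 1) / 2 + r * m := by
      rw [mul_add]
      omega
    rw [h6, mul_add] at H
    have h7 : r + m - r = m := by omega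
    rw [h7, mul_assoc]
    omega
  obtain ⟨p, hp1, hp2⟩ := gadgets (by omega : 5 ≤ d) (by omega : 3 ≤ r) τ T U Z hT hU hZ a b x₀ x₁
    hτT hτU hab h01 h0a h0b h1a h1b (2 * ((d * r + 1) * (1 + (d - 1) * r))) (num_two hd hdr)
  have hE : Exps (Om τ) (n - r) :=
    exps_of_gadgets (by omega) (by omega) (Om τ) (n - r) (r ^ 9) x₀ x₁ h01 Z p hp1 hp2 hcard
      (fun S h1 h2 => hall_slack hd hdr hr τ T U hT hU a b hτT hτU hab (n - r) hcard S h1 h2)
      (num_one hd hdr)
  exact generic_of_exps (by omega) hrn τ hE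

end Pool.Agent.BSubE
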