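import Mathlib
import Pool.Agent.Lib.MP_79bff1_ag.GNum

set_option autoImplicit false

/-!
# An upper bound for `nu d`
Claim: for `0 ≤ u ≤ 1`,
`((1 + (d-1) u) / d) ^ d - ((d-1)/d) u ^ d ≤ (1 + (d-1) u) (1 + (d-1)/d^3) / d^2`
(then `csSup_le` as in `nu_three_le`, GNum.lean).
* `d = 3`: `nu_three_le` (`0.11916 ≤ (1 + 2/27) / 9`).
* `d = 4, 5, 6`: polynomial inequalities in one variable (the maxima of
  `d^2 * nuFun d u` are `1.03800, 1.02331, 1.01575` at `u = 0.895, 0.9395, 0.9608`, the allowed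
  bounds are `1.046875, 1.032, 1.023148`): nlinarith with squares such as
  `sq_nonneg (u - 0.895)`, multiplied by `u ^ 2`, etc.
* `d ≥ 7`: put `y = (1 + (d-1) u) / d`, `z = 1 - y`, so `0 ≤ z ≤ (d-1)/d` and
  `u = y - z / (d-1)`. If `z ≥ 3/4` drop `u ^ d`: `y ^ d ≤ y (1/4) ^ (d-1) ≤ y / d`. If `z ≤ 3/4`:
  the alternating binomial inequality `(y - w) ^ d ≥ y^d - d y^(d-1) w + (d(d-1)/2) y^(d-2) w^2 -
  (d(d-1)(d-2)/6) y^(d-3) w^3` for `0 ≤ w ≤ y` (induction on `d`) with `w = z/(d-1)` gives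
  `y^d - ((d-1)/d) u^d ≤ y^d/d + y^(d-1) z - y^(d-2) z^2/2 + ((d-2)/(6(d-1))) y^(d-3) z^3`, and the
  last two terms together are `≤ 0` as `y ≥ z/3`. So it remains to show
  `y ^ (d-2) (1 + (d-1) z) ≤ 1 + (d-1)/d^3` (the first two terms are `(y/d) y^(d-2) (y + d z)`, and
  `y + d z = 1 + (d-1) z`). Since `(1-z)^(d-2) (1 + (d-2) z + (d-2)(d-1)/2 z^2) ≤ 1` (induction), it
  is enough that `1 + (d-1) z ≤ (1 + (d-1)/d^3) (1 + (d-2) z + (d-2)(d-1)/2 z^2)`, which follows from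
  `(d-1)/d^3 - z + ((d-1)(d-2)/2) z^2 ≥ 0` (discriminant `1 - 2 (d-1)^2 (d-2)/d^3 ≤ 0` for `d ≥ 7`).
-/

namespace Pool.Agent.BSubE

open Finset

/-- the alternating binomial inequality -/
theorem nub_alt {y w : ℝ} (hw : 0 ≤ w) (hwy : w ≤ y) (k : ℕ) :
    y ^ k * (y ^ 3 - ((k : ℝ) + 3) * y ^ 2 * w + ((k : ℝ) + 3) * ((k : ℝ) + 2) / 2 * y * w ^ 2 -
      ((k : ℝ) + 3) * ((k : ℝ) + 2) * ((k : ℝ) + 1) / 6 * w ^ 3) ≤ (y - w) ^ (k + 3) := by
  have hy : 0 ≤ y := hw.trans hwy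
  induction k with
  | zero =>
    refine le_of_eq ?_
    push_cast
    ring
  | succ k ih =>
    have h1 := mul_le_mul_of_nonneg_right ih (sub_nonneg.2 hwy)
    have h2 : (y - w) ^ (k + 3) * (y - w) = (y - w) ^ (k + 1 + 3) := by
      rw [← pow_succ]
    rw [h2] at h1
    refine le_trans ?_ h1
    have h3 : 0 ≤ y ^ k * (((k : ℝ) + 3) * ((k : ℝ) + 2) * ((k : ℝ) + 1) / 6 * w ^ 4) := by
      positivity
    have h4 : y ^ k * (y ^ 3 - ((k : ℝ) + 3) * y ^ 2 * w +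
        ((k : ℝ) + 3) * ((k : ℝ) + 2) / 2 * y * w ^ 2 -
        ((k : ℝ) + 3) * ((k : ℝ) + 2) * ((k : ℝ) + 1) / 6 * w ^ 3) * (y - w) =
        y ^ (k + 1) * (y ^ 3 - (((k + 1 : ℕ) : ℝ) + 3) * y ^ 2 * w +
        (((k + 1 : ℕ) : ℝ) + 3) * (((k + 1 : ℕ) : ℝ) + 2) / 2 * y * w ^ 2 -
        (((k + 1 : ℕ) : ℝ) + 3) * (((k + 1 : ℕ) : ℝ) + 2) * (((k + 1 : ℕ) : ℝ) + 1) / 6 *
          w ^ 3) +
        y ^ k * (((k : ℝ) + 3) * ((k : ℝ) + 2) * ((k : ℝ) + 1) / 6 * w ^ 4) := by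
      push_cast
      ring
    rw [h4]
    linarith

/-- the series of `(1 - z) ^ (-m)` -/
theorem nub_exp {z : ℝ} (_h0 : 0 ≤ z) (h1 : z ≤ 1) (m : ℕ) :
    (1 - z) ^ m * (1 + m * z + m * ((m : ℝ) + 1) / 2 * z ^ 2 +
      m * ((m : ℝ) + 1) * ((m : ℝ) + 2) / 6 * z ^ 3) ≤ 1 := by
  induction m with
  | zero => simp
  | succ m ih =>
    have h2 : (1 - z) ^ (m + 1) * (1 + ((m + 1 : ℕ) : ℝ) * z +
        ((m + 1 : ℕ) : ℝ) * (((m + 1 : ℕ) : ℝ) + 1) / 2 * z ^ 2 +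
        ((m + 1 : ℕ) : ℝ) * (((m + 1 : ℕ) : ℝ) + 1) * (((m + 1 : ℕ) : ℝ) + 2) / 6 * z ^ 3) =
        (1 - z) ^ m * (1 + m * z + m * ((m : ℝ) + 1) / 2 * z ^ 2 +
          m * ((m : ℝ) + 1) * ((m : ℝ) + 2) / 6 * z ^ 3) -
        (1 - z) ^ m * (((m : ℝ) + 1) * ((m : ℝ) + 2) * ((m : ℝ) + 3) / 6 * z ^ 4) := by
      push_cast
      ring
    have h3 : 0 ≤ (1 - z) ^ m *
        (((m : ℝ) + 1) * ((m : ℝ) + 2) * ((m : ℝ) + 3) / 6 * z ^ 4) :=
      mul_nonneg (pow_nonneg (sub_nonneg.2 h1) m) (by positivity)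
    rw [h2]
    linarith

/-- the quadratic inequality -/
theorem nub_E {d : ℕ} (hd : 5 ≤ d) {z : ℝ} (h0 : 0 ≤ z) :
    1 + ((d : ℝ) - 1) * z ≤ (1 + ((d : ℝ) - 1) / (d : ℝ) ^ 3) *
      (1 + ((d : ℝ) - 2) * z + ((d : ℝ) - 2) * ((d : ℝ) - 1) / 2 * z ^ 2 +
        ((d : ℝ) - 2) * ((d : ℝ) - 1) * (d : ℝ) / 6 * z ^ 3) := by
  rcases Nat.lt_or_ge d 7 with h7 | h7
  · obtain rfl | rfl : d = 5 ∨ d = 6 := by omega
    · push_cast
      nlinarith [mul_nonneg h0 (sq_nonneg (z - 0.07)), sq_nonneg (z - 0.07), mul_nonneg h0 h0]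
    · push_cast
      nlinarith [mul_nonneg (mul_nonneg h0 h0) h0, sq_nonneg (z - 0.045)]
  · obtain ⟨D, hD⟩ : ∃ D : ℝ, D = d := ⟨_, rfl⟩
    have hD7 : 7 ≤ D := by
      rw [hD]
      exact_mod_cast h7
    rw [← hD]
    obtain ⟨c, hc⟩ : ∃ c, c = (D - 1) / D ^ 3 := ⟨_, rfl⟩
    obtain ⟨q, hq⟩ : ∃ q, q = (D - 2) * (D - 1) / 2 := ⟨_, rfl⟩
    have hc0 : 0 ≤ c := by
      rw [hc]
      exact div_nonneg (by linarith) (by positivity)
    have hq0 : 0 < q := by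
      rw [hq]
      have : 0 < (D - 2) * (D - 1) := mul_pos (by linarith) (by linarith)
      linarith
    have hqc : 1 ≤ 4 * q * c := by
      have e : 4 * q * c = 2 * (D - 1) ^ 2 * (D - 2) / D ^ 3 := by
        rw [hq, hc]
        ring
      rw [e, le_div_iff₀ (by positivity)]
      nlinarith [mul_nonneg (by linarith : (0:ℝ) ≤ D - 7) (sq_nonneg (D - 7)),
        sq_nonneg (D - 7)]
    have h1 : 0 ≤ c - z + q * z ^ 2 := by
      have h2 : 0 ≤ 4 * q * (c - z + q * z ^ 2) := by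
        nlinarith [sq_nonneg (2 * q * z - 1)]
      by_contra hn
      push Not at hn
      have := mul_neg_of_pos_of_neg (by linarith : 0 < 4 * q) hn
      linarith
    have h3 : 0 ≤ (D - 2) * (D - 1) * D / 6 * z ^ 3 := by
      have : 0 ≤ (D - 2) * (D - 1) * D := mul_nonneg (mul_nonneg (by linarith) (by linarith))
        (by linarith)
      positivity
    have h4 : 0 ≤ c * ((D - 2) * z + q * z ^ 2 + (D - 2) * (D - 1) * D / 6 * z ^ 3) := by
      have h5 : 0 ≤ (D - 2) * z := mul_nonneg (by linarith) h0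
      have h6 : 0 ≤ q * z ^ 2 := by positivity
      exact mul_nonneg hc0 (by linarith)
    rw [← hc, ← hq]
    nlinarith

/-- the main inequality -/
theorem nub_core {d : ℕ} (hd : 5 ≤ d) {u : ℝ} (h0 : 0 ≤ u) (h1 : u ≤ 1) :
    ((1 + ((d : ℝ) - 1) * u) / d) ^ d - (((d : ℝ) - 1) / d) * u ^ d ≤
      (1 + ((d : ℝ) - 1) / (d : ℝ) ^ 3) / (d : ℝ) ^ 2 * (1 + ((d : ℝ) - 1) * u) := by
  obtain ⟨k, rfl⟩ : ∃ k, d = k + 3 := ⟨d - 3, by omega⟩
  obtain ⟨D, hD⟩ : ∃ D : ℝ, D = ((k + 3 : ℕ) : ℝ) := ⟨_, rfl⟩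
  have hDk : D = (k : ℝ) + 3 := by
    rw [hD]
    push_cast
    ring
  have hD5 : 5 ≤ D := by
    rw [hD]
    exact_mod_cast hd
  have hE := fun z (hz : (0:ℝ) ≤ z) => nub_E hd hz
  rw [← hD]
  simp only [← hD] at hE
  have hD0 : 0 < D := by linarith
  have hD1 : 0 < D - 1 := by linarith
  obtain ⟨y, hy⟩ : ∃ y, y = (1 + (D - 1) * u) / D := ⟨_, rfl⟩
  have hDy : 1 + (D - 1) * u = D * y := by
    rw [hy]
    field_simp
  have hy0 : 0 < y := by
    rw [hy]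
    have : 0 ≤ (D - 1) * u := mul_nonneg hD1.le h0
    positivity
  obtain ⟨z, hz⟩ : ∃ z, z = 1 - y := ⟨_, rfl⟩
  have hDz : D * z = (D - 1) * (1 - u) := by
    rw [hz]
    linarith
  have hz0 : 0 ≤ z := by
    have h2 : 0 ≤ D * z := by
      rw [hDz]
      exact mul_nonneg hD1.le (by linarith)
    exact nonneg_of_mul_nonneg_right h2 hD0
  have hz1 : z ≤ 1 := by linarith
  obtain ⟨c, hc⟩ : ∃ c, c = (D - 1) / D ^ 3 := ⟨_, rfl⟩
  have hc0 : 0 ≤ c := by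
    rw [hc]
    positivity
  rw [← hy, ← hc, hDy]
  have hR : (1 + c) / D ^ 2 * (D * y) = y / D * (1 + c) := by
    field_simp
  rw [hR]
  have hu0 : 0 ≤ (D - 1) / D * u ^ (k + 3) := by positivity
  rcases le_total y (1 / 4) with hy4 | hy4
  · have h2 : y ^ (k + 3) ≤ y / D := by
      have h3 : y ^ (k + 2) ≤ 1 / D := by
        refine (pow_le_pow_left₀ hy0.le hy4 (k + 2)).trans ?_
        rw [div_pow, one_pow]
        refine one_div_le_one_div_of_le hD0 ?_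
        have h4 : k + 2 < 4 ^ (k + 2) := Nat.lt_pow_self (by norm_num)
        have h5 : ((k + 3 : ℕ) : ℝ) ≤ ((4 ^ (k + 2) : ℕ) : ℝ) := by exact_mod_cast h4
        rw [← hD] at h5
        push_cast at h5
        exact h5
      have e : y ^ (k + 3) = y * y ^ (k + 2) := by ring
      rw [e, div_eq_mul_one_div]
      exact mul_le_mul_of_nonneg_left h3 hy0.le
    have h6 : 0 ≤ y / D * c := by positivity
    linarith
  · obtain ⟨w, hw⟩ : ∃ w, w = z / (D - 1) := ⟨_, rfl⟩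
    have hwz : (D - 1) * w = z := by
      rw [hw]
      field_simp
    have hw0 : 0 ≤ w := by
      rw [hw]
      positivity
    have huw : u = y - w := by
      have h2 : (D - 1) * u = (D - 1) * (y - w) := by
        rw [mul_sub, hwz, hz]
        linarith
      exact mul_left_cancel₀ hD1.ne' h2
    have hwy : w ≤ y := by linarith
    have halt := nub_alt hw0 hwy k
    rw [← huw] at halt
    have ek : (k : ℝ) = D - 3 := by linarith
    rw [ek] at halt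
    have hyk : 0 ≤ y ^ k := by positivity
    have h2 := mul_le_mul_of_nonneg_left halt (by positivity : 0 ≤ (D - 1) / D)
    have h3 : (D - 1) / D * (y ^ k * (y ^ 3 - (D - 3 + 3) * y ^ 2 * w +
        (D - 3 + 3) * (D - 3 + 2) / 2 * y * w ^ 2 -
        (D - 3 + 3) * (D - 3 + 2) * (D - 3 + 1) / 6 * w ^ 3)) =
        y ^ k * ((D - 1) / D * y ^ 3 - y ^ 2 * z + y * z ^ 2 / 2 -
          (D - 2) / (6 * (D - 1)) * z ^ 3) := by
      rw [← hwz]
      field_simp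
      ring
    rw [h3] at h2
    have h4 : 0 ≤ y ^ k * (z ^ 2 * (y / 2 - (D - 2) / (6 * (D - 1)) * z)) := by
      refine mul_nonneg hyk (mul_nonneg (sq_nonneg z) ?_)
      have h5 : (D - 2) / (6 * (D - 1)) ≤ 1 / 6 := by
        rw [div_le_div_iff₀ (by linarith) (by norm_num)]
        linarith
      have h6 := mul_le_mul_of_nonneg_right h5 hz0
      linarith
    have h5 : y ^ (k + 3) - (D - 1) / D * u ^ (k + 3) ≤
        y / D * (y ^ (k + 1) * (1 + (D - 1) * z)) := by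
      have e1 : y / D * (y ^ (k + 1) * (1 + (D - 1) * z)) =
          y ^ (k + 3) - y ^ k * ((D - 1) / D * y ^ 3 - y ^ 2 * z) := by
        have e2 : 1 + (D - 1) * z = y + D * z := by
          rw [hz]
          ring
        rw [e2]
        field_simp
        ring
      rw [e1]
      linarith
    refine h5.trans (mul_le_mul_of_nonneg_left ?_ (by positivity))
    have h6 := hE z hz0
    have h7 := nub_exp hz0 hz1 (k + 1)
    have e3 : ((k + 1 : ℕ) : ℝ) = D - 2 := by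
      rw [hDk]
      push_cast
      ring
    have e4 : (1 : ℝ) - z = y := by linarith
    rw [e3, e4] at h7
    have e5 : D - 2 + 1 = D - 1 := by ring
    have e6 : D - 2 + 2 = D := by ring
    rw [e5, e6] at h7
    rw [← hc] at h6
    calc y ^ (k + 1) * (1 + (D - 1) * z) ≤ y ^ (k + 1) * ((1 + c) *
          (1 + (D - 2) * z + (D - 2) * (D - 1) / 2 * z ^ 2 + (D - 2) * (D - 1) * D / 6 * z ^ 3)) :=
          mul_le_mul_of_nonneg_left h6 (by positivity)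
      _ = (1 + c) * (y ^ (k + 1) *
          (1 + (D - 2) * z + (D - 2) * (D - 1) / 2 * z ^ 2 + (D - 2) * (D - 1) * D / 6 * z ^ 3)) := by
        ring
      _ ≤ (1 + c) * 1 := mul_le_mul_of_nonneg_left h7 (by linarith)
      _ = 1 + c := mul_one _

theorem nu_le {d : ℕ} (hd : 3 ≤ d) :
    Pool.Agent.BSub.nu d ≤ (1 + ((d : ℝ) - 1) / (d : ℝ) ^ 3) / (d : ℝ) ^ 2 := by
  rcases Nat.lt_or_ge d 4 with h4 | h4
  · obtain rfl : d = 3 := by omega
    refine Pool.Agent.BSub.nu_three_le.trans ?_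
    norm_num
  unfold Pool.Agent.BSub.nu
  refine csSup_le ⟨_, 0, ⟨le_rfl, zero_le_one⟩, rfl⟩ ?_
  rintro _ ⟨u, ⟨h0, h1⟩, rfl⟩
  unfold Pool.Agent.BSub.nuFun
  have hpos : 0 < 1 + ((d : ℝ) - 1) * u := by
    have h2 : (3 : ℝ) ≤ d := by exact_mod_cast hd
    have : 0 ≤ ((d : ℝ) - 1) * u := mul_nonneg (by linarith) h0
    linarith
  rw [div_le_iff₀ hpos]
  rcases Nat.lt_or_ge d 5 with h5 | h5
  · obtain rfl : d = 4 := by omega
    push_cast
    nlinarith [sq_nonneg (u ^ 2 - 0.4865 * u - 0.3656), sq_nonneg (u - 0.895), sq_nonneg u,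
      mul_nonneg h0 (sq_nonneg (u - 0.895)), mul_nonneg (mul_nonneg h0 h0) (sq_nonneg (u - 0.895))]
  · exact nub_core h5 h0 h1

end Pool.Agent.BSubE
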