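import Mathlib
import Pool.Agent.Lib.MP_79bff1_ag.WDefs
import Pool.Agent.Lib.MP_79bff1_ag.Lower
import Pool.Agent.Lib.MP_79bff1_ag.GNum
import Pool.Agent.Lib.MP_79bff1_ag_E.NuB
import Pool.Agent.Lib.MP_79bff1_ag_E.OmB

set_option autoImplicit false

/-!
# The lower bound for all `d ≥ 3`
`r = d T ≥ 3`, `C = ⌈nu d * r ^ (d-1)⌉₊`; `generic_lower` (module Lower; `gBound_le` gives its
hypothesis) needs `C + d ^ 2 r ^ (d-2) + 1 + (d-1) r + r ≤ n`.
`H` and `pow_sum_lower` give `R ^ d / d - R ≤ d R n`, i.e. `n ≥ R ^ (d-1) / d ^ 2 - 1 / d`.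
Put `R' = (1 - 1/d^3) R`, `x = 3 d^3 - d`; `hT` says `r + x ≤ R'`. By Bernoulli
`(1 - 1/d^3) ^ (d-1) (1 + (d-1)/d^3) ≤ (1 - 1/d^3)^(d-1) (1 + 1/d^3)^(d-1) ≤ 1`, so
`R ^ (d-1) ≥ (1 + (d-1)/d^3) R' ^ (d-1)`, and `R' ^ (d-1) ≥ r ^ (d-1) + (d-1) x r ^ (d-2)`. With
`nu_le`: `R ^ (d-1) / d^2 ≥ nu d * r ^ (d-1) + (d-1) x r ^ (d-2) / d^2` and
`(d-1) x / d^2 ≥ 3 d^2 - 3 d - 1 ≥ d^2 + d + 1`, `(d+1) r ^ (d-2) ≥ d r + r ≥ d r + 2 + 1/d`.
-/

namespace Pool.Agent.BSubE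

open Finset Pool.Agent.BSub

private theorem lowa_bern {δ : ℝ} (h0 : 0 ≤ δ) (h1 : δ ≤ 1) (k : ℕ) :
    (1 - δ) ^ k * (1 + k * δ) ≤ 1 := by
  have h2 : 1 + (k : ℝ) * δ ≤ (1 + δ) ^ k := one_add_mul_le_pow (by linarith) k
  have h3 : 0 ≤ (1 - δ) ^ k := pow_nonneg (by linarith) k
  calc (1 - δ) ^ k * (1 + k * δ) ≤ (1 - δ) ^ k * (1 + δ) ^ k := mul_le_mul_of_nonneg_left h2 h3
    _ = (1 - δ ^ 2) ^ k := by
        rw [← mul_pow]
        congr 1
        ring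
    _ ≤ 1 := pow_le_one₀ (by nlinarith) (by nlinarith)

private theorem lowa_add_pow {r x : ℝ} (hr : 0 ≤ r) (hx : 0 ≤ x) (k : ℕ) :
    r ^ (k + 1) + (k + 1) * x * r ^ k ≤ (r + x) ^ (k + 1) := by
  induction k with
  | zero => simp
  | succ k ih =>
    have h1 : (r + x) * (r ^ (k + 1) + (k + 1) * x * r ^ k) ≤ (r + x) * (r + x) ^ (k + 1) :=
      mul_le_mul_of_nonneg_left ih (by linarith)
    have h2 : 0 ≤ ((k : ℝ) + 1) * x ^ 2 * r ^ k := by positivity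
    have h3 : (r + x) * (r + x) ^ (k + 1) = (r + x) ^ (k + 1 + 1) := by ring
    have h4 : (r + x) * (r ^ (k + 1) + (k + 1) * x * r ^ k) =
        r ^ (k + 1 + 1) + (((k : ℝ) + 1) + 1) * x * r ^ (k + 1) +
          ((k : ℝ) + 1) * x ^ 2 * r ^ k := by ring
    push_cast
    linarith

private theorem lowa_main {D N r R nu : ℝ} (m : ℕ) (hD : D = (m : ℝ) + 3)
    (hnu : nu ≤ (1 + (D - 1) / D ^ 3) / D ^ 2) (hr : 3 ≤ r)
    (hT : D ^ 3 * r + D ^ 3 * (3 * D ^ 3 - D) ≤ (D ^ 3 - 1) * R)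
    (hN : R ^ (m + 2) / D ^ 2 - 1 / D ≤ N) :
    nu * r ^ (m + 2) + D ^ 2 * r ^ (m + 1) + D * r + 2 ≤ N := by
  have hm : (0 : ℝ) ≤ m := Nat.cast_nonneg m
  have hD3 : 3 ≤ D := by linarith
  have hD0 : 0 < D := by linarith
  set δ : ℝ := 1 / D ^ 3 with hδ
  have hDc : 27 ≤ D ^ 3 := by
    have : (3 : ℝ) ^ 3 ≤ D ^ 3 := pow_le_pow_left₀ (by norm_num) hD3 3
    linarith
  have hDc0 : 0 < D ^ 3 := by linarith
  have hδ0 : 0 < δ := by positivity
  have hδ1 : δ ≤ 1 := by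
    rw [hδ, div_le_one hDc0]
    linarith
  have hk : ((m + 2 : ℕ) : ℝ) = D - 1 := by
    push_cast
    linarith
  have hx0 : 0 ≤ 3 * D ^ 3 - D := by nlinarith
  -- the reduced variable
  have h1 : r + (3 * D ^ 3 - D) ≤ (1 - δ) * R := by
    have h2 : (1 - δ) * R = ((D ^ 3 - 1) * R) / D ^ 3 := by
      rw [hδ]
      field_simp
    rw [h2, le_div_iff₀ hDc0]
    linarith
  have h3 : (r + (3 * D ^ 3 - D)) ^ (m + 2) ≤ ((1 - δ) * R) ^ (m + 2) :=
    pow_le_pow_left₀ (by linarith) h1 _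
  have h4 := lowa_add_pow (r := r) (x := 3 * D ^ 3 - D) (by linarith) hx0 (m + 1)
  have hk' : (((m + 1 : ℕ) : ℝ) + 1) = D - 1 := by
    push_cast
    linarith
  rw [hk'] at h4
  have hR0 : 0 ≤ R := by
    by_contra hc
    push Not at hc
    have : (1 - δ) * R ≤ 0 := mul_nonpos_of_nonneg_of_nonpos (by linarith) hc.le
    linarith
  have h5 := lowa_bern hδ0.le hδ1 (m + 2)
  rw [hk] at h5
  have h6 : (1 + (D - 1) * δ) * ((1 - δ) * R) ^ (m + 2) ≤ R ^ (m + 2) := by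
    have h7 : (1 + (D - 1) * δ) * ((1 - δ) * R) ^ (m + 2) =
        ((1 - δ) ^ (m + 2) * (1 + (D - 1) * δ)) * R ^ (m + 2) := by
      rw [mul_pow]
      ring
    rw [h7]
    exact mul_le_of_le_one_left (pow_nonneg hR0 _) h5
  set P := r ^ (m + 1) with hP
  have hrP : r ^ (m + 2) = P * r := by rw [hP, ← pow_succ]
  have hPr : r ≤ P := by
    rw [hP]
    exact le_self_pow₀ (by linarith) (by omega)
  have hP0 : 0 < P := by linarith
  have h4' : r ^ (m + 2) + (D - 1) * (3 * D ^ 3 - D) * P ≤ ((1 - δ) * R) ^ (m + 2) :=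
    h4.trans h3
  have hE : 0 ≤ (D - 1) * δ := mul_nonneg (by linarith) hδ0.le
  have h8 : (1 + (D - 1) * δ) * r ^ (m + 2) + (D - 1) * (3 * D ^ 3 - D) * P ≤ R ^ (m + 2) := by
    refine le_trans ?_ h6
    have h9 : (1 + (D - 1) * δ) * (r ^ (m + 2) + (D - 1) * (3 * D ^ 3 - D) * P) ≤
        (1 + (D - 1) * δ) * ((1 - δ) * R) ^ (m + 2) :=
      mul_le_mul_of_nonneg_left h4' (by linarith)
    have h10 : 0 ≤ (D - 1) * δ * ((D - 1) * (3 * D ^ 3 - D) * P) :=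
      mul_nonneg hE (mul_nonneg (mul_nonneg (by linarith) hx0) hP0.le)
    linarith
  have hD2 : 0 < D ^ 2 := by positivity
  have hnu' : nu * r ^ (m + 2) ≤ ((1 + (D - 1) * δ) * r ^ (m + 2)) / D ^ 2 := by
    have h11 : (1 + (D - 1) / D ^ 3) / D ^ 2 = (1 + (D - 1) * δ) / D ^ 2 := by
      rw [hδ]
      ring
    rw [h11] at hnu
    calc nu * r ^ (m + 2) ≤ (1 + (D - 1) * δ) / D ^ 2 * r ^ (m + 2) :=
          mul_le_mul_of_nonneg_right hnu (by positivity)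
      _ = _ := by ring
  have h12 : ((1 + (D - 1) * δ) * r ^ (m + 2)) / D ^ 2 + ((D - 1) * (3 * D ^ 3 - D) * P) / D ^ 2 ≤
      R ^ (m + 2) / D ^ 2 := by
    rw [← add_div]
    exact div_le_div_of_nonneg_right h8 hD2.le
  have h13 : (D ^ 2 + D + 1) * P ≤ ((D - 1) * (3 * D ^ 3 - D) * P) / D ^ 2 := by
    have h14 : ((D - 1) * (3 * D ^ 3 - D) * P) / D ^ 2 = ((D - 1) * (3 * D - 1 / D)) * P := by
      field_simp
    rw [h14]
    refine mul_le_mul_of_nonneg_right ?_ hP0.le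
    have h15 : 1 / D ≤ 1 := by
      rw [div_le_one hD0]
      linarith
    have h16 : (D - 1) * (3 * D - 1) ≤ (D - 1) * (3 * D - 1 / D) :=
      mul_le_mul_of_nonneg_left (by linarith) (by linarith)
    refine le_trans ?_ h16
    nlinarith
  have h17 : 1 / D ≤ 1 := by
    rw [div_le_one hD0]
    linarith
  have h18 : (D + 1) * r ≤ (D + 1) * P := mul_le_mul_of_nonneg_left hPr (by linarith)
  linarith

theorem low_all {d n R T : ℕ} (hd : 3 ≤ d) (hT1 : 1 ≤ T)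
    (hT : d ^ 3 * (d * T) + d ^ 3 * (3 * d ^ 3 - d) ≤ (d ^ 3 - 1) * R)
    (H : ∑ k ∈ range R, ((k + 1) ^ (d - 1) - 1) ≤ d * (R * n - R * (R + 1) / 2)) :
    Generic fun A : Tensor d n => Degenerates A (unitTensor d (d * T)) := by
  have hdR : (3 : ℝ) ≤ d := by exact_mod_cast hd
  have hTR : (1 : ℝ) ≤ T := by exact_mod_cast hT1
  have hnu0 := nu_pos (d := d) (by omega)
  refine generic_lower (by omega) ⌈nu d * ((d : ℝ) * T) ^ (d - 1)⌉₊ (fun a ha => ?_) ?_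
  · have h1 := gBound_le (d := d) (T := T) (a := a) (by omega) ha
    have h2 : (gBound d T a : ℝ) ≤ ((⌈nu d * ((d : ℝ) * T) ^ (d - 1)⌉₊ * a : ℕ) : ℝ) := by
      rw [Nat.cast_mul]
      exact h1.trans (mul_le_mul_of_nonneg_right (Nat.le_ceil _) (Nat.cast_nonneg a))
    exact_mod_cast h2
  · have hx : d ≤ 3 * d ^ 3 := by
      have : d ≤ d ^ 3 := Nat.le_self_pow (by omega) d
      omega
    have hc : 1 ≤ d ^ 3 := Nat.one_le_pow _ _ (by omega)
    have hTr : (d : ℝ) ^ 3 * ((d : ℝ) * T) + (d : ℝ) ^ 3 * (3 * (d : ℝ) ^ 3 - d) ≤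
        ((d : ℝ) ^ 3 - 1) * R := by
      have h1 := (Nat.cast_le (α := ℝ)).2 hT
      push_cast [Nat.cast_sub hx, Nat.cast_sub hc] at h1
      linarith
    have hr3 : (3 : ℝ) ≤ (d : ℝ) * T := by nlinarith
    have hR1 : 0 < R := by
      rcases Nat.eq_zero_or_pos R with h | h
      · rw [h, mul_zero] at hT
        have : 0 < d ^ 3 * (d * T) := by positivity
        omega
      · exact h
    have hRR : (0 : ℝ) < R := by exact_mod_cast hR1
    -- the bound from `H`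
    have hN : (R : ℝ) ^ (d - 1) / (d : ℝ) ^ 2 - 1 / d ≤ n := by
      have h1 := (Nat.cast_le (α := ℝ)).2 H
      have h2 : ((d * (R * n - R * (R + 1) / 2) : ℕ) : ℝ) ≤ (d : ℝ) * (R * n) := by
        have : d * (R * n - R * (R + 1) / 2) ≤ d * (R * n) :=
          Nat.mul_le_mul_left _ (Nat.sub_le _ _)
        exact_mod_cast this
      have h3 : ((∑ k ∈ range R, ((k + 1) ^ (d - 1) - 1) : ℕ) : ℝ) =
          ∑ i ∈ range R, ((i : ℝ) + 1) ^ (d - 1) - R := by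
        rw [Nat.cast_sum]
        have h1 : ∀ k ∈ range R, (((k + 1) ^ (d - 1) - 1 : ℕ) : ℝ) =
            ((k : ℝ) + 1) ^ (d - 1) - 1 := by
          intro k _
          rw [Nat.cast_sub (Nat.one_le_pow _ _ (by omega))]
          push_cast
          rfl
        rw [Finset.sum_congr rfl h1, Finset.sum_sub_distrib, Finset.sum_const,
          Finset.card_range]
        simp
      have h4 := pow_sum_lower R (d - 1)
      have h5 : (((d - 1 : ℕ) : ℝ) + 1) = d := by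
        rw [Nat.cast_sub (by omega)]
        simp
      rw [h5] at h4
      rw [h3] at h1
      have h6 : (R : ℝ) ^ (d - 1 + 1) / d - R ≤ (d : ℝ) * (R * n) := by linarith
      have hd0 : (0 : ℝ) < d := by linarith
      have h7 : (R : ℝ) ^ (d - 1 + 1) / d - R =
          ((R : ℝ) ^ (d - 1) / (d : ℝ) ^ 2 - 1 / d) * (d * R) := by
        rw [pow_succ]
        field_simp
      rw [h7] at h6
      have h8 : (d : ℝ) * (R * n) = n * (d * R) := by ring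
      rw [h8] at h6
      exact le_of_mul_le_mul_right h6 (by positivity)
    obtain ⟨m, rfl⟩ : ∃ m, d = m + 3 := ⟨d - 3, by omega⟩
    have e1 : m + 3 - 1 = m + 2 := by omega
    have e2 : m + 3 - 2 = m + 1 := by omega
    have hnu := nu_le (d := m + 3) (by omega)
    rw [e1] at hN ⊢
    rw [e2]
    have h9 := lowa_main (D := ((m + 3 : ℕ) : ℝ)) (N := n) (r := ((m + 3 : ℕ) : ℝ) * T)
      (R := R) (nu := nu (m + 3)) m (by push_cast; ring) hnu hr3 hTr hN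
    have h10 := Nat.ceil_lt_add_one (a := nu (m + 3) * (((m + 3 : ℕ) : ℝ) * T) ^ (m + 2))
      (by positivity)
    have h11 : ((⌈nu (m + 3) * (((m + 3 : ℕ) : ℝ) * T) ^ (m + 2)⌉₊ +
        (m + 3) ^ 2 * ((m + 3) * T) ^ (m + 1) + 1 + (m + 2) * ((m + 3) * T) +
          (m + 3) * T : ℕ) : ℝ) ≤ n := by
      push_cast at h9 h10 ⊢
      linarith
    exact_mod_cast h11

end Pool.Agent.BSubE
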