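import Mathlib
import Pool.Agent.Lib.MP_79bff1_ag.WDefs
import Pool.Agent.Lib.MP_79bff1_ag_E.Defs
import Pool.Agent.Lib.MP_79bff1_ag_E.Alg
import Pool.Agent.Lib.MP_79bff1_ag.Assign

set_option autoImplicit false

/-!
# The simple lower bound
-/

namespace Pool.Agent.BSubE

open Finset Pool.Agent.BSub

theorem low_of_hall {d n r C : ℕ} (hd : 3 ≤ d) (τ : Fin r → Fin d)
    (H : ∀ S : Fin d → Finset (Fin r), (inBox (Om τ) S).card ≤ C * ∑ x, (S x).card)
    (hn : C + 1 + d * r ≤ n) :
    Generic fun T : Tensor d n => Degenerates T (unitTensor d r) := by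
  have hdr : d * r = (d - 1) * r + r := by
    obtain ⟨e, rfl⟩ : ∃ e, d = e + 1 := ⟨d - 1, by omega⟩
    rw [Nat.add_sub_cancel]
    ring
  obtain ⟨W, lam, θ, hW, hθ, hload⟩ := exists_exponents (n := r) (by omega : 1 ≤ d) (Om τ) C r
    (fun f _ x => (f x).isLt) (fun S => by
      have h := H S
      unfold inBox at h
      convert h)
  refine generic_of_exps hd (by rw [hdr] at hn; omega) τ ⟨W, lam, θ, hW, hθ, fun x l => ?_⟩
  refine le_trans ?_ ((hload x l).trans (by rw [hdr] at hn; omega))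
  exact le_of_eq (by congr)

end Pool.Agent.BSubE
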