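import Mathlib
import Pool.Agent.Lib.MP_79bff1_ag.WDefs
import Pool.Agent.Lib.MP_79bff1_ag_E.Defs
import Pool.Agent.Lib.MP_79bff1_ag_E.Simp
import Pool.Agent.Lib.MP_79bff1_ag_E.HallE
import Pool.Agent.Lib.MP_79bff1_ag_E.FinN

set_option autoImplicit false

/-!
# The lower bound for `r ≥ d ^ 2 / 7`
-/

namespace Pool.Agent.BSubE

open Finset Pool.Agent.BSub

theorem low_large {d n r R : ℕ} (hd : 40 ≤ d) (hr : d ^ 2 ≤ 7 * r) (hrR : r ≤ R)
    (hR : 27 * R ≤ d ^ 3 * (R - r))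
    (H : ∑ k ∈ range R, ((k + 1) ^ (d - 1) - 1) ≤ d * (R * n - R * (R + 1) / 2)) :
    Generic fun T : Tensor d n => Degenerates T (unitTensor d r) := by
  obtain ⟨C, h1, h2⟩ := fin_num hd hr hrR hR H
  refine low_of_hall (C := C) (by omega) (cyc (by omega : 0 < d)) (fun S => ?_) h2
  have h3 := density_le hd hr S
  have h4 : ((inBox (Om (cyc (r := r) (by omega : 0 < d))) S).card : ℝ) ≤
      (C : ℝ) * ∑ x, ((S x).card : ℝ) :=
    h3.trans (mul_le_mul_of_nonneg_right h1 (sum_nonneg fun x _ => Nat.cast_nonneg _))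
  exact_mod_cast h4

end Pool.Agent.BSubE
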