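import Mathlib
import Pool.Agent.Lib.MP_79bff1_ag_E.Defs
import Pool.Agent.Lib.MP_79bff1_ag_E.AMG

set_option autoImplicit false

/-!
# A linear bound for boxes
From `box_le_min` (with `β = |S| / (d - 1)`): `min (a ^ (d - 1)) (β ^ (d - 1)) ≤ a ^ (d - 2) * β`
for `a, β ≥ 0` (two cases), so `|Om ∩ S| ≤ β * ∑ (k + 1) ^ (d - 2)`. Cast to the reals and back.
-/

namespace Pool.Agent.BSubE

open Finset

theorem sma_min {a β : ℝ} (ha : 0 ≤ a) (hβ : 0 ≤ β) (e : ℕ) :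
    min (a ^ (e + 1)) (β ^ (e + 1)) ≤ a ^ e * β := by
  rcases le_total a β with h | h
  · refine (min_le_left _ _).trans ?_
    rw [pow_succ]
    exact mul_le_mul_of_nonneg_left h (pow_nonneg ha e)
  · refine (min_le_right _ _).trans ?_
    rw [pow_succ]
    exact mul_le_mul_of_nonneg_right (pow_le_pow_left₀ hβ h e) hβ

theorem box_le_lin {d r : ℕ} (hd : 2 ≤ d) (τ : Fin r → Fin d) (S : Fin d → Finset (Fin r)) :
    (inBox (Om τ) S).card * (d - 1) ≤ (∑ k ∈ range r, (k + 1) ^ (d - 2)) * ∑ x, (S x).card := by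
  obtain ⟨e, rfl⟩ : ∃ e : ℕ, d = e + 2 := ⟨d - 2, by omega⟩
  have h1 := box_le_min hd τ S
  have hd1 : (((e + 2 : ℕ) : ℝ) - 1) = (e : ℝ) + 1 := by
    push_cast
    ring
  have he : e + 2 - 1 = e + 1 := rfl
  have he2 : e + 2 - 2 = e := rfl
  rw [hd1, he] at h1
  rw [he, he2]
  have hpos : (0 : ℝ) < (e : ℝ) + 1 := by positivity
  obtain ⟨s, hs⟩ : ∃ s : ℝ, s = ∑ x, ((S x).card : ℝ) := ⟨_, rfl⟩
  have hs0 : 0 ≤ s := by
    rw [hs]
    exact sum_nonneg fun _ _ => Nat.cast_nonneg _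
  rw [← hs] at h1
  have h2 : ∑ k ∈ range r, min (((k : ℝ) + 1) ^ (e + 1)) ((s / ((e : ℝ) + 1)) ^ (e + 1)) ≤
      (∑ k ∈ range r, ((k : ℝ) + 1) ^ e) * (s / ((e : ℝ) + 1)) := by
    rw [sum_mul]
    exact sum_le_sum fun k _ => sma_min (by positivity) (div_nonneg hs0 hpos.le) e
  have h3 := h1.trans h2
  rw [← mul_div_assoc, le_div_iff₀ hpos, hs] at h3
  exact_mod_cast h3

end Pool.Agent.BSubE
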