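import Mathlib

set_option autoImplicit false

/-!
# The numerical inequality for `r < d`
Put `s = ∑_{k=1}^{r} k ^ (d - 2)`.
* `5 (k + 1) ^ (d - 1) ≥ 11 d k ^ (d - 2)` for `k ≥ 1`: three terms of the binomial expansion give
  `2 k (k + 1) ^ (d - 1) ≥ k ^ (d - 2) (2 k ^ 2 + 2 (d - 1) k + (d - 1) (d - 2))` and
  `2 k ^ 2 + 2 (d - 1) k + (d - 1) (d - 2) ≥ (22 / 5) d k` (negative discriminant for `d ≥ 15`).
* Hence the left side of `H` is at least `(11 / 5) d s + 1 - (r + 1)`, and the right side is at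
  most `d (r + 1) n ≤ d ^ 2 n`, so `n ≥ (11 / 5) s / d - 1 / d`.
* `C = s / (d - 1) + 1` (integer division). For `r ≥ 2` we have
  `s * (11 / (5 d) - 1 / (d - 1)) ≥ (11 / 10) s / d ≥ 3 + d r`, because
  `s ≥ r ^ (d - 2) ≥ r * 2 ^ (d - 3)` and `2 ^ (d - 3) ≥ 3 d + d ^ 2`.
* For `r = 1`: `s = 1`, `C = 1`, and `H` gives `2 ^ (d - 1) - 1 ≤ 2 d n`, so `n ≥ d + 2`.
-/

namespace Pool.Agent.BSubE

open Finset

theorem smn_three (k e : ℕ) : (k : ℤ) ^ e * (2 * k ^ 2 + 2 * e * k + e * (e - 1)) ≤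
    2 * k ^ 2 * (k + 1) ^ e := by
  induction e with
  | zero => simp
  | succ e ih =>
    have hk : (0 : ℤ) ≤ k := Int.natCast_nonneg k
    have h1 := mul_le_mul_of_nonneg_right ih (by linarith : (0 : ℤ) ≤ (k : ℤ) + 1)
    have h2 : (0 : ℤ) ≤ (k : ℤ) ^ e * (e * (e - 1)) := by
      apply mul_nonneg (pow_nonneg hk e)
      rcases Nat.eq_zero_or_pos e with h | h
      · subst h
        simp
      · have : (1 : ℤ) ≤ e := by exact_mod_cast h
        exact mul_nonneg (by linarith) (by linarith)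
    have h3 : (k : ℤ) ^ (e + 1) * (2 * k ^ 2 + 2 * ((e + 1 : ℕ) : ℤ) * k +
        ((e + 1 : ℕ) : ℤ) * (((e + 1 : ℕ) : ℤ) - 1)) =
        (k : ℤ) ^ e * (2 * k ^ 2 + 2 * e * k + e * (e - 1)) * (k + 1) -
          (k : ℤ) ^ e * (e * (e - 1)) := by
      push_cast
      ring
    rw [h3]
    have h4 : 2 * (k : ℤ) ^ 2 * (k + 1) ^ (e + 1) = 2 * (k : ℤ) ^ 2 * (k + 1) ^ e * (k + 1) := by
      ring
    rw [h4]
    linarith

theorem smn_key {k d : ℕ} (hk : 1 ≤ k) (hd : 15 ≤ d) :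
    11 * d * k ^ (d - 2) ≤ 5 * (k + 1) ^ (d - 1) := by
  obtain ⟨e, rfl⟩ : ∃ e, d = e + 2 := ⟨d - 2, by omega⟩
  have e1 : e + 2 - 2 = e := by omega
  have e2 : e + 2 - 1 = e + 1 := by omega
  rw [e1, e2]
  have h1 := smn_three k (e + 1)
  have hk' : (1 : ℤ) ≤ k := by exact_mod_cast hk
  have he : (13 : ℤ) ≤ e := by
    have : 13 ≤ e := by omega
    exact_mod_cast this
  have h2 : 22 * ((e : ℤ) + 2) * k ≤ 5 * (2 * k ^ 2 + 2 * ((e + 1 : ℕ) : ℤ) * k +
      ((e + 1 : ℕ) : ℤ) * (((e + 1 : ℕ) : ℤ) - 1)) := by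
    push_cast
    nlinarith [sq_nonneg (20 * (k : ℤ) - (12 * (e + 2) + 10)), sq_nonneg ((e : ℤ) - 13)]
  have hp : (0 : ℤ) ≤ (k : ℤ) ^ (e + 1) := pow_nonneg (by linarith) _
  have h3 := mul_le_mul_of_nonneg_left h2 hp
  have h4 : (2 * (k : ℤ) ^ 2) * (11 * ((e : ℤ) + 2) * k ^ e) ≤
      (2 * (k : ℤ) ^ 2) * (5 * (k + 1) ^ (e + 1)) := by
    have e3 : (k : ℤ) ^ (e + 1) * (22 * ((e : ℤ) + 2) * k) =
      (2 * (k : ℤ) ^ 2) * (11 * ((e : ℤ) + 2) * k ^ e) := by ring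
    rw [← e3]
    refine h3.trans ?_
    have e4 : (k : ℤ) ^ (e + 1) * (5 * (2 * k ^ 2 + 2 * ((e + 1 : ℕ) : ℤ) * k +
      ((e + 1 : ℕ) : ℤ) * (((e + 1 : ℕ) : ℤ) - 1))) = 5 * ((k : ℤ) ^ (e + 1) *
      (2 * k ^ 2 + 2 * ((e + 1 : ℕ) : ℤ) * k +
      ((e + 1 : ℕ) : ℤ) * (((e + 1 : ℕ) : ℤ) - 1))) := by ring
    rw [e4]
    have h5 := mul_le_mul_of_nonneg_left h1 (by norm_num : (0 : ℤ) ≤ 5)
    refine h5.trans (le_of_eq ?_)
    ring
  have h5 := le_of_mul_le_mul_left h4 (by positivity)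
  exact_mod_cast h5

theorem smn_pow {d : ℕ} (hd : 40 ≤ d) : 3 * d + d ^ 2 ≤ 2 ^ (d - 3) := by
  obtain ⟨t, rfl⟩ : ∃ t, d = t + 40 := ⟨d - 40, by omega⟩
  have e1 : t + 40 - 3 = t + 37 := by omega
  rw [e1]
  clear e1 hd
  induction t with
  | zero => norm_num
  | succ t ih =>
    have h1 : 2 ^ (t + 1 + 37) = 2 * 2 ^ (t + 37) := by ring
    rw [h1]
    nlinarith

theorem small_num {d n r : ℕ} (hd : 40 ≤ d) (hr : 1 ≤ r) (hrd : r < d)
    (H : ∑ k ∈ range (r + 1), ((k + 1) ^ (d - 1) - 1) ≤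
      d * ((r + 1) * n - (r + 1) * (r + 1 + 1) / 2)) :
    ∃ C : ℕ, ∑ k ∈ range r, (k + 1) ^ (d - 2) ≤ C * (d - 1) ∧ C + 1 + d * r ≤ n := by
  set s : ℕ := ∑ k ∈ range r, (k + 1) ^ (d - 2) with hs
  set S : ℕ := ∑ k ∈ range (r + 1), ((k + 1) ^ (d - 1) - 1) with hS
  have hSr : S + r = ∑ k ∈ range r, (k + 1 + 1) ^ (d - 1) := by
    rw [hS, sum_range_succ']
    have h0 : (0 + 1) ^ (d - 1) - 1 = 0 := by simp
    rw [h0, add_zero]
    have h1 : ∑ k ∈ range r, (k + 1 + 1) ^ (d - 1) =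
        ∑ k ∈ range r, (((k + 1 + 1) ^ (d - 1) - 1) + 1) := by
      refine sum_congr rfl fun k _ => ?_
      have : 1 ≤ (k + 1 + 1) ^ (d - 1) := Nat.one_le_pow _ _ (by omega)
      omega
    rw [h1, sum_add_distrib]
    simp
  have hlow : 11 * d * s ≤ 5 * (S + r) := by
    rw [hSr, hs, mul_sum, mul_sum]
    exact sum_le_sum fun k _ => smn_key (by omega) (by omega)
  have hup : S ≤ d * (d * n) := by
    refine H.trans (Nat.mul_le_mul_left d ?_)
    refine (Nat.sub_le _ _).trans (Nat.mul_le_mul_right n hrd)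
  have hmain : 11 * s ≤ 5 * (d * n) + 4 := by
    have h1 : d * (11 * s) < d * (5 * (d * n) + 5) := by
      calc d * (11 * s) = 11 * d * s := by ring
        _ ≤ 5 * (S + r) := hlow
        _ < 5 * (d * (d * n) + d) := by omega
        _ = d * (5 * (d * n) + 5) := by ring
    have h2 := lt_of_mul_lt_mul_left h1 (Nat.zero_le d)
    omega
  rcases Nat.lt_or_ge r 2 with hr2 | hr2
  · have hr1 : r = 1 := by omega
    have hs1 : s = 1 := by
      rw [hs, hr1]
      simp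
    refine ⟨1, by omega, ?_⟩
    rw [hr1, mul_one]
    by_contra hcon
    have hn : n ≤ d + 1 := by omega
    have hS1 : 2 ^ (d - 1) ≤ S + 1 := by
      have h1 := hSr
      rw [hr1] at h1
      simp only [sum_range_one, zero_add] at h1
      rw [h1]
    have hS2 : S ≤ d * (2 * n) := by
      refine H.trans (Nat.mul_le_mul_left d ?_)
      rw [hr1]
      exact Nat.sub_le _ _
    have h3 : d * (2 * n) ≤ d * (2 * (d + 1)) :=
      Nat.mul_le_mul_left d (Nat.mul_le_mul_left 2 hn)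
    have h4 := smn_pow hd
    have h5 : 2 ^ (d - 1) = 4 * 2 ^ (d - 3) := by
      have : d - 1 = (d - 3) + 2 := by omega
      rw [this, pow_add]
      ring
    nlinarith
  · have hsr : r * (3 * d + d ^ 2) ≤ s := by
      have h1 : r ^ (d - 2) ≤ s := by
        rw [hs]
        have h2 : (r - 1 + 1) ^ (d - 2) ≤ ∑ k ∈ range r, (k + 1) ^ (d - 2) :=
          single_le_sum (f := fun k => (k + 1) ^ (d - 2)) (fun k _ => Nat.zero_le _)
            (mem_range.2 (by omega))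
        have h3 : r - 1 + 1 = r := by omega
        rwa [h3] at h2
      have h2 : r ^ (d - 2) = r * r ^ (d - 3) := by
        have : d - 2 = (d - 3) + 1 := by omega
        rw [this, pow_succ]
        ring
      refine (Nat.mul_le_mul_left r ((smn_pow hd).trans (Nat.pow_le_pow_left hr2 (d - 3)))).trans ?_
      rw [← h2]
      exact h1
    obtain ⟨q, hq⟩ : ∃ q, q = s / (d - 1) := ⟨_, rfl⟩
    have hq1 : (d - 1) * q ≤ s := by
      rw [hq]
      exact Nat.mul_div_le s (d - 1)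
    have hq2 : s ≤ (q + 1) * (d - 1) := by
      rw [hq]
      have h1 := Nat.div_add_mod s (d - 1)
      have h2 := Nat.mod_lt s (by omega : 0 < d - 1)
      calc s = (d - 1) * (s / (d - 1)) + s % (d - 1) := h1.symm
        _ ≤ (d - 1) * (s / (d - 1)) + (d - 1) := by omega
        _ = (s / (d - 1) + 1) * (d - 1) := by ring
    refine ⟨q + 1, hq2, ?_⟩
    by_contra hcon
    have hn : n ≤ q + 1 + d * r := by omega
    have h39 : 39 * q ≤ s := by
      refine le_trans (Nat.mul_le_mul_right q (by omega : 39 ≤ d - 1)) hq1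
    have hdq : d * q ≤ s + q := by
      have : d * q = (d - 1) * q + q := by
        obtain ⟨t, rfl⟩ : ∃ t, d = t + 1 := ⟨d - 1, by omega⟩
        rw [Nat.add_sub_cancel]
        ring
      omega
    have hdn : d * n ≤ d * q + d + d * d * r := by
      calc d * n ≤ d * (q + 1 + d * r) := Nat.mul_le_mul_left d hn
        _ = d * q + d + d * d * r := by ring
    nlinarith [Nat.mul_le_mul_right d hr2]

end Pool.Agent.BSubE
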