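import Mathlib
import Pool.Agent.Lib.MP_79bff1_ag.WDefs
import Pool.Agent.Lib.MP_79bff1_ag_E.Defs
import Pool.Agent.Lib.MP_79bff1_ag_E.Simp
import Pool.Agent.Lib.MP_79bff1_ag_E.SmA
import Pool.Agent.Lib.MP_79bff1_ag_E.SmN

set_option autoImplicit false

/-!
# The lower bound for `r < d`
-/

namespace Pool.Agent.BSubE

open Finset Pool.Agent.BSub

theorem low_small {d n r : ℕ} (hd : 40 ≤ d) (hr : 1 ≤ r) (hrd : r < d)
    (H : ∑ k ∈ range (r + 1), ((k + 1) ^ (d - 1) - 1) ≤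
      d * ((r + 1) * n - (r + 1) * (r + 1 + 1) / 2)) :
    Generic fun T : Tensor d n => Degenerates T (unitTensor d r) := by
  obtain ⟨C, h1, h2⟩ := small_num hd hr hrd H
  refine low_of_hall (C := C) (by omega) (fun _ => ⟨0, by omega⟩) (fun S => ?_) h2
  have h3 := box_le_lin (by omega : 2 ≤ d) (fun _ : Fin r => (⟨0, by omega⟩ : Fin d)) S
  have h4 : (∑ k ∈ range r, (k + 1) ^ (d - 2)) * ∑ x, (S x).card ≤
      C * (d - 1) * ∑ x, (S x).card := Nat.mul_le_mul_right _ h1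
  have h5 : (inBox (Om fun _ : Fin r => (⟨0, by omega⟩ : Fin d)) S).card * (d - 1) ≤
      C * (∑ x, (S x).card) * (d - 1) := by
    refine h3.trans (h4.trans (le_of_eq ?_))
    ring
  exact Nat.le_of_mul_le_mul_right h5 (by omega)

end Pool.Agent.BSubE
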