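import Mathlib

set_option autoImplicit false

/-!
# The condition is inherited by smaller `r`
One step: let `A = ∑_{k < r} a k` with `a k = (k+1)^(d-1) - 1` increasing, so `A ≤ r a_r`, and
`A + a_r ≤ X = d ((r+1) n - (r+1)(r+2)/2)`. Then `(r+1) A ≤ r (A + a_r) ≤ r X`, so
`A ≤ r d (n - (r+2)/2) ≤ d (r n - r (r+1)/2)`. If the truncated difference is `0` then `A = 0`.
-/

namespace Pool.Agent.BSubE

open Finset

theorem mono_step {d n r : ℕ}
    (H : ∑ k ∈ range (r + 1), ((k + 1) ^ (d - 1) - 1) ≤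
      d * ((r + 1) * n - (r + 1) * (r + 1 + 1) / 2)) :
    ∑ k ∈ range r, ((k + 1) ^ (d - 1) - 1) ≤ d * (r * n - r * (r + 1) / 2) := by
  rw [sum_range_succ] at H
  have hA : ∑ k ∈ range r, ((k + 1) ^ (d - 1) - 1) ≤ r * ((r + 1) ^ (d - 1) - 1) := by
    have h1 : ∀ k ∈ range r, (k + 1) ^ (d - 1) - 1 ≤ (r + 1) ^ (d - 1) - 1 := by
      intro k hk
      have hk' := mem_range.1 hk
      exact Nat.sub_le_sub_right (Nat.pow_le_pow_left (by omega) _) 1
    have h2 := sum_le_sum h1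
    rwa [sum_const, card_range, smul_eq_mul] at h2
  generalize ∑ k ∈ range r, ((k + 1) ^ (d - 1) - 1) = A at H hA ⊢
  generalize (r + 1) ^ (d - 1) - 1 = a at H hA
  have e2 : 2 * ((r + 1) * (r + 1 + 1) / 2) = (r + 1) * (r + 1 + 1) :=
    Nat.mul_div_cancel' (Nat.even_mul_succ_self (r + 1)).two_dvd
  have e1 : 2 * (r * (r + 1) / 2) = r * (r + 1) :=
    Nat.mul_div_cancel' (Nat.even_mul_succ_self r).two_dvd
  generalize (r + 1) * (r + 1 + 1) / 2 = T at H e2
  generalize r * (r + 1) / 2 = T' at e1 ⊢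
  rcases Nat.lt_or_ge ((r + 1) * n) T with h3 | h3
  · rw [Nat.sub_eq_zero_of_le h3.le, mul_zero] at H
    have : A = 0 := by omega
    rw [this]
    exact Nat.zero_le _
  · obtain ⟨Y, hY⟩ := Nat.exists_eq_add_of_le h3
    rw [hY, Nat.add_sub_cancel_left] at H
    have h4 : r + 2 ≤ 2 * n := by
      have h5 : (r + 1) * (r + 2) ≤ (r + 1) * (2 * n) := by nlinarith
      exact Nat.le_of_mul_le_mul_left h5 (Nat.succ_pos r)
    have h6 : T' ≤ r * n := by nlinarith
    obtain ⟨W, hW⟩ := Nat.exists_eq_add_of_le h6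
    rw [hW, Nat.add_sub_cancel_left]
    have h7 : r * Y ≤ (r + 1) * W := by nlinarith
    have h8 : (r + 1) * A ≤ (r + 1) * (d * W) := by
      calc (r + 1) * A = r * A + A := by ring
        _ ≤ r * A + r * a := by omega
        _ = r * (A + a) := by ring
        _ ≤ r * (d * Y) := Nat.mul_le_mul_left _ H
        _ = d * (r * Y) := by ring
        _ ≤ d * ((r + 1) * W) := Nat.mul_le_mul_left _ h7
        _ = (r + 1) * (d * W) := by ring
    exact Nat.le_of_mul_le_mul_left h8 (Nat.succ_pos r)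

theorem cond_mono {d n r s : ℕ} (hrs : r ≤ s)
    (H : ∑ k ∈ range s, ((k + 1) ^ (d - 1) - 1) ≤ d * (s * n - s * (s + 1) / 2)) :
    ∑ k ∈ range r, ((k + 1) ^ (d - 1) - 1) ≤ d * (r * n - r * (r + 1) / 2) := by
  induction s, hrs using Nat.le_induction with
  | base => exact H
  | succ s _ ih => exact ih (mono_step H)

end Pool.Agent.BSubE
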