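import Mathlib
import Pool.Agent.Lib.MP_79bff1_ag_E.OmB

set_option autoImplicit false

/-!
# The range of `n`
`cond_at_d`: the sum is at most `d * d ^ (d - 1)`, the right side is
`d (d n - d (d+1)/2) ≥ d ^ 2 * d ^ (d-1) - d ^ 2 (d + 1) ≥ d ^ d`.
`cond_fails`: `∑_{k < r} ((k+1)^(d-1) - 1) ≥ r ^ d / d - r` (`pow_sum_lower`), while
`d (r n - r (r+1)/2)` is `0` or at most `d r n - d r (r + 1) / 2`, and
`n ≤ (d ^ 2 / 6) ^ (d - 1) / d ^ 2 < r ^ (d-1) / d ^ 2`, so `d r n < r ^ d / d`; finally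
`d r (r + 1) / 2 ≥ r` and `r ^ d / d > r`.
-/

namespace Pool.Agent.BSubE

open Finset

theorem cond_at_d {d n : ℕ} (hd : 40 ≤ d) (h1 : d ^ (d - 1) ≤ n) :
    ∑ k ∈ range d, ((k + 1) ^ (d - 1) - 1) ≤ d * (d * n - d * (d + 1) / 2) := by
  have h2 : ∑ k ∈ range d, ((k + 1) ^ (d - 1) - 1) ≤ d * d ^ (d - 1) := by
    refine (Finset.sum_le_card_nsmul _ _ (d ^ (d - 1)) fun k hk => ?_).trans ?_
    · have h3 : (k + 1) ^ (d - 1) ≤ d ^ (d - 1) :=
        Nat.pow_le_pow_left (by have := mem_range.1 hk; omega) _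
      omega
    · rw [card_range, smul_eq_mul]
  refine h2.trans (Nat.mul_le_mul_left d ?_)
  have h3 : d ^ 2 ≤ d ^ (d - 1) := Nat.pow_le_pow_right (by omega) (by omega)
  have h4 : d * (d + 1) / 2 ≤ d ^ 2 := by
    apply Nat.div_le_of_le_mul
    nlinarith
  have h5 : 2 * d ^ (d - 1) ≤ d * d ^ (d - 1) := Nat.mul_le_mul_right _ (by omega)
  have h6 : d * d ^ (d - 1) ≤ d * n := Nat.mul_le_mul_left d h1
  omega

theorem cond_fails {d n r : ℕ} (hd : 40 ≤ d) (h2 : 6 ^ (d - 1) * d ^ 2 * n ≤ d ^ (2 * (d - 1)))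
    (hr : d ^ 2 < 6 * r) :
    d * (r * n - r * (r + 1) / 2) < ∑ k ∈ range r, ((k + 1) ^ (d - 1) - 1) := by
  have hdr : d < r := by nlinarith
  have hr0 : 0 < r := by omega
  -- the bound of `n`
  have h3 : d ^ 2 * n < r ^ (d - 1) := by
    have h4 : d ^ (2 * (d - 1)) < 6 ^ (d - 1) * r ^ (d - 1) := by
      rw [pow_mul, ← mul_pow]
      exact Nat.pow_lt_pow_left hr (by omega)
    have h5 : 6 ^ (d - 1) * (d ^ 2 * n) < 6 ^ (d - 1) * r ^ (d - 1) := by
      rw [← mul_assoc]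
      exact lt_of_le_of_lt h2 h4
    exact Nat.lt_of_mul_lt_mul_left h5
  have hpow : r ^ (d - 1) * r = r ^ d := by
    rw [← pow_succ]
    congr 1
    omega
  have h4 : d ^ 2 * n * r < r ^ d := by
    rw [← hpow]
    exact Nat.mul_lt_mul_of_pos_right h3 hr0
  -- the sum
  obtain ⟨s, hs⟩ : ∃ s, s = ∑ k ∈ range r, (k + 1) ^ (d - 1) := ⟨_, rfl⟩
  have h5 : r ^ d ≤ d * s := by
    have h6 := pow_sum_lower r (d - 1)
    have h7 : d - 1 + 1 = d := by omega
    have h8 : (((d - 1 : ℕ) : ℝ) + 1) = d := by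
      have : (((d - 1 + 1 : ℕ)) : ℝ) = d := by rw [h7]
      push_cast at this
      exact this
    rw [h7, h8] at h6
    have hd0 : (0 : ℝ) < d := by
      have : 0 < d := by omega
      exact_mod_cast this
    rw [div_le_iff₀ hd0] at h6
    have h9 : ((r ^ d : ℕ) : ℝ) ≤ ((d * s : ℕ) : ℝ) := by
      rw [hs]
      push_cast
      linarith
    exact_mod_cast h9
  have h6 : ∑ k ∈ range r, ((k + 1) ^ (d - 1) - 1) + r = s := by
    rw [hs]
    have h7 : ∀ k ∈ range r, (k + 1) ^ (d - 1) = ((k + 1) ^ (d - 1) - 1) + 1 := fun k _ => by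
      have := Nat.one_le_pow (d - 1) (k + 1) (by omega)
      omega
    rw [sum_congr rfl h7, sum_add_distrib, sum_const, card_range, smul_eq_mul, mul_one]
  suffices h7 : d * (r * n - r * (r + 1) / 2) + r < s by omega
  have hT : r ≤ r * (r + 1) / 2 := by
    rw [Nat.le_div_iff_mul_le (by norm_num)]
    nlinarith
  have hd0 : 0 < d := by omega
  refine Nat.lt_of_mul_lt_mul_left (a := d) (lt_of_lt_of_le ?_ h5)
  rcases le_total (r * n) (r * (r + 1) / 2) with h8 | h8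
  · have h9 : r * n - r * (r + 1) / 2 = 0 := by omega
    rw [h9, mul_zero, zero_add]
    calc d * r < r * r := Nat.mul_lt_mul_of_pos_right hdr hr0
      _ = r ^ 2 := (pow_two r).symm
      _ ≤ r ^ d := Nat.pow_le_pow_right hr0 (by omega)
  · obtain ⟨A, hA⟩ : ∃ A, A + r * (r + 1) / 2 = r * n := ⟨r * n - r * (r + 1) / 2, by omega⟩
    have h9 : r * n - r * (r + 1) / 2 = A := by omega
    rw [h9]
    refine lt_of_le_of_lt ?_ h4
    calc d * (d * A + r) ≤ d * (d * A + d * (r * (r + 1) / 2)) := by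
          refine Nat.mul_le_mul_left d (Nat.add_le_add_left ?_ _)
          exact hT.trans (Nat.le_mul_of_pos_left _ hd0)
      _ = d ^ 2 * (A + r * (r + 1) / 2) := by ring
      _ = d ^ 2 * n * r := by rw [hA]; ring

end Pool.Agent.BSubE
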