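import Mathlib
import Pool.Agent.Lib.MP_79bff1_ag.WDefs
import Pool.Agent.Lib.MP_79bff1_ag.Final
import Pool.Agent.Lib.MP_79bff1_ag_E.Low
import Pool.Agent.Lib.MP_79bff1_ag_E.Mono
import Pool.Agent.Lib.MP_79bff1_ag_E.Rng

set_option autoImplicit false

/-!
# The exact value
-/

namespace Pool.Agent.BSubE

open Finset Pool.Agent.BSub

theorem exact_value {d n : ℕ} (hd : 40 ≤ d) (h1 : d ^ (d - 1) ≤ n)
    (h2 : 6 ^ (d - 1) * d ^ 2 * n ≤ d ^ (2 * (d - 1))) :
    Generic fun T : Tensor d n => ∀ r : ℕ, r ≤ borderSubrank T ↔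
      ∑ k ∈ range r, ((k + 1) ^ (d - 1) - 1) ≤ d * (r * n - r * (r + 1) / 2) := by
  have hd0 : 0 < d := by omega
  have hdn : d ≤ n := by
    calc d = d ^ 1 := (pow_one d).symm
      _ ≤ d ^ (d - 1) := Nat.pow_le_pow_right hd0 (by omega)
      _ ≤ n := h1
  have hd2n : d ^ 2 ≤ n := (Nat.pow_le_pow_right hd0 (by omega)).trans h1
  have hdd : 6 * d ≤ d ^ 2 := by
    rw [pow_two]
    exact Nat.mul_le_mul_right _ (by omega)
  refine (generic_borderSubrank (d := d) (n := n) (by omega)).mono fun T hT r => ?_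
  rw [hT]
  constructor
  · intro h
    exact cond_mono h (gbs_upper (by omega) (by omega)).2
  · intro h
    have hr6 : 6 * r ≤ d ^ 2 := by
      by_contra hc
      exact absurd h (not_le.mpr (cond_fails hd h2 (not_le.mp hc)))
    rcases le_total d r with hdr | hrd
    · exact le_genBorderSubrank (by omega) (low hd hdr hr6 (by omega) h)
    · exact hrd.trans (le_genBorderSubrank (by omega)
        (low hd le_rfl hdd hdn (cond_at_d hd h1)))

end Pool.Agent.BSubE
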