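import Mathlib
import Pool.Agent.Lib.MP_79bff1_ag_E.Mono

set_option autoImplicit false

/-!
# The largest `r` with the condition
The condition holds for `r = 0`, is inherited by smaller `r` (`cond_mono`), and fails for
`r = 2 n + 2`: there `r n ≤ r (r + 1) / 2`, so the right side is `0`, while the term `k = 1` of the
sum is `2 ^ (d - 1) - 1 ≥ 1`. Take `R = Nat.findGreatest _ (2 n + 2)` or the like.
-/

namespace Pool.Agent.BSubE

open Finset

private theorem rex_fail {d n : ℕ} (hd : 2 ≤ d) :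
    ¬ ∑ k ∈ range (2 * n + 2), ((k + 1) ^ (d - 1) - 1) ≤
      d * ((2 * n + 2) * n - (2 * n + 2) * (2 * n + 2 + 1) / 2) := by
  have h1 : (2 * n + 2) * n ≤ (2 * n + 2) * (2 * n + 2 + 1) / 2 := by
    rw [Nat.le_div_iff_mul_le (by norm_num), mul_assoc]
    exact Nat.mul_le_mul_left _ (by omega)
  rw [Nat.sub_eq_zero_of_le h1, mul_zero]
  intro h2
  have h3 : (1 + 1) ^ (d - 1) - 1 ≤ ∑ k ∈ range (2 * n + 2), ((k + 1) ^ (d - 1) - 1) :=
    single_le_sum (f := fun k => (k + 1) ^ (d - 1) - 1) (fun _ _ => Nat.zero_le _)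
      (mem_range.2 (by omega))
  have h4 : 1 + 1 ≤ (1 + 1) ^ (d - 1) := by
    calc 1 + 1 = (1 + 1) ^ 1 := by norm_num
      _ ≤ (1 + 1) ^ (d - 1) := Nat.pow_le_pow_right (by norm_num) (by omega)
  omega

theorem exists_largest {d n : ℕ} (hd : 2 ≤ d) : ∃ R : ℕ, ∀ r : ℕ, r ≤ R ↔
    ∑ k ∈ range r, ((k + 1) ^ (d - 1) - 1) ≤ d * (r * n - r * (r + 1) / 2) := by
  classical
  refine ⟨Nat.findGreatest (fun r => ∑ k ∈ range r, ((k + 1) ^ (d - 1) - 1) ≤
    d * (r * n - r * (r + 1) / 2)) (2 * n + 2), fun r => ⟨fun h => ?_, fun h => ?_⟩⟩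
  · refine cond_mono h ?_
    exact Nat.findGreatest_spec (P := fun r => ∑ k ∈ range r, ((k + 1) ^ (d - 1) - 1) ≤
      d * (r * n - r * (r + 1) / 2)) (Nat.zero_le (2 * n + 2)) (by simp)
  · rcases Nat.lt_or_ge (2 * n + 2) r with h1 | h1
    · exact absurd (cond_mono h1.le h) (rex_fail hd)
    · exact Nat.le_findGreatest h1 h

end Pool.Agent.BSubE
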