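import Mathlib
import Pool.Agent.Lib.MP_79bff1_ag.WDefs
import Pool.Agent.Lib.MP_79bff1_ag.Final
import Pool.Agent.Lib.MP_79bff1_ag_E.Low
import Pool.Agent.Lib.MP_79bff1_ag_E.LowS
import Pool.Agent.Lib.MP_79bff1_ag_E.LowL
import Pool.Agent.Lib.MP_79bff1_ag_E.Mono
import Pool.Agent.Lib.MP_79bff1_ag_E.Rng
import Pool.Agent.Lib.MP_79bff1_ag_E.Rex

set_option autoImplicit false

/-!
# All `n`
-/

namespace Pool.Agent.BSubE

open Finset Pool.Agent.BSub

theorem near_exact {d n : ℕ} (hd : 40 ≤ d) (hn : 3 ≤ n) : ∃ R : ℕ,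
    (∀ r : ℕ, r ≤ R ↔
      ∑ k ∈ range r, ((k + 1) ^ (d - 1) - 1) ≤ d * (r * n - r * (r + 1) / 2)) ∧
    Generic fun T : Tensor d n => borderSubrank T ≤ R ∧
      d ^ 3 * R ≤ d ^ 3 * (borderSubrank T + 1) + 27 * R ∧
      (d ≤ R → 6 * R ≤ d ^ 2 → borderSubrank T = R) := by
  obtain ⟨R, hR⟩ := exists_largest (d := d) (n := n) (by omega)
  refine ⟨R, hR, (generic_borderSubrank (d := d) (n := n) (by omega)).mono fun T hT => ?_⟩
  rw [hT]
  obtain ⟨hQn, hQ⟩ := gbs_upper (d := d) (n := n) (by omega) hn
  have hQR : genBorderSubrank d n ≤ R := (hR _).mpr hQ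
  refine ⟨hQR, ?_, ?_⟩
  · by_contra hc
    have hc' := not_le.mp hc
    have hd3 : 0 < d ^ 3 := by positivity
    have h1 : genBorderSubrank d n + 1 < R := by
      have h2 : d ^ 3 * (genBorderSubrank d n + 1) < d ^ 3 * R := by omega
      exact Nat.lt_of_mul_lt_mul_left h2
    have key : Generic fun T : Tensor d n =>
        Degenerates T (unitTensor d (genBorderSubrank d n + 1)) := by
      rcases lt_or_ge (genBorderSubrank d n + 1) d with h3 | h3
      · exact low_small hd (by omega) h3 ((hR _).mp (by omega))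
      · rcases le_or_gt (6 * (genBorderSubrank d n + 1)) (d ^ 2) with h4 | h4
        · exact low hd h3 h4 (by omega) ((hR _).mp (by omega))
        · refine low_large (R := R) hd (by omega) (by omega) ?_ ((hR R).mp le_rfl)
          obtain ⟨m, hm⟩ : ∃ m, R = genBorderSubrank d n + 1 + m :=
            ⟨R - (genBorderSubrank d n + 1), by omega⟩
          have h5 : R - (genBorderSubrank d n + 1) = m := by omega
          rw [h5]
          have h6 : d ^ 3 * R = d ^ 3 * (genBorderSubrank d n + 1) + d ^ 3 * m := by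
            rw [hm, mul_add]
          omega
    have := le_genBorderSubrank (by omega) key
    omega
  · intro hdR hR6
    refine le_antisymm hQR ?_
    have hcR := (hR R).mp le_rfl
    have hRn : R ≤ n := by
      by_contra hc
      have hc' := not_le.mp hc
      have h1 : (R - 1 + 1) ^ (d - 1) - 1 ≤ ∑ k ∈ range R, ((k + 1) ^ (d - 1) - 1) :=
        single_le_sum (f := fun k => (k + 1) ^ (d - 1) - 1) (fun _ _ => Nat.zero_le _)
          (mem_range.mpr (by omega))
      have h2 : R - 1 + 1 = R := by omega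
      rw [h2] at h1
      have h3 : d * (R * n - R * (R + 1) / 2) ≤ R * (R * R) :=
        Nat.mul_le_mul hdR ((Nat.sub_le _ _).trans (Nat.mul_le_mul_left _ hc'.le))
      have h4 : R ^ 4 ≤ R ^ (d - 1) := Nat.pow_le_pow_right (by omega) (by omega)
      have h5 : R * (R * R) + 1 < R ^ 4 := by
        have h6 : R ^ 4 = R * (R * (R * R)) := by ring
        rw [h6]
        have h7 : 2 * (R * (R * R)) ≤ R * (R * (R * R)) := Nat.mul_le_mul_right _ (by omega)
        have h8 : 1 < R * (R * R) := by
          have : 1 < R := by omega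
          nlinarith
        omega
      omega
    exact le_genBorderSubrank (by omega) (low hd hdR hR6 hRn hcR)

end Pool.Agent.BSubE
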