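import Mathlib
import Pool.Agent.Lib.MP_79bff1_ag.WDefs
import Pool.Agent.Lib.MP_79bff1_ag.Final
import Pool.Agent.Lib.MP_79bff1_ag_E.MainU
import Pool.Agent.Lib.MP_79bff1_ag_E.LowA
import Pool.Agent.Lib.MP_79bff1_ag_E.Rex

set_option autoImplicit false

/-!
# All `d ≥ 3` and all `n`
-/

namespace Pool.Agent.BSubE

open Finset Pool.Agent.BSub

theorem all_exact {d n : ℕ} (hd : 3 ≤ d) (hn : 3 ≤ n) : ∃ R : ℕ,
    (∀ r : ℕ, r ≤ R ↔
      ∑ k ∈ range r, ((k + 1) ^ (d - 1) - 1) ≤ d * (r * n - r * (r + 1) / 2)) ∧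
    Generic fun T : Tensor d n => borderSubrank T ≤ R ∧
      (d ^ 3 - 1) * R ≤ d ^ 3 * (borderSubrank T + 3 * d ^ 3) ∧
      (40 ≤ d → d ^ 3 * R ≤ d ^ 3 * (borderSubrank T + 1) + 27 * R) ∧
      (40 ≤ d → d ≤ R → 6 * R ≤ d ^ 2 → borderSubrank T = R) := by
  obtain ⟨R, hR⟩ := exists_largest (d := d) (n := n) (by omega)
  obtain ⟨hQn, hQ⟩ := gbs_upper (d := d) (n := n) hd hn
  have hQR : genBorderSubrank d n ≤ R := (hR _).mpr hQ
  have h3 : (d ^ 3 - 1) * R ≤ d ^ 3 * (genBorderSubrank d n + 3 * d ^ 3) := by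
    by_contra hc
    have hc' := not_le.mp hc
    have hd4 : 0 < d ^ 4 := by positivity
    have hdle : d ≤ 3 * d ^ 3 := by
      have : d ^ 1 ≤ d ^ 3 := Nat.pow_le_pow_right (by omega) (by omega)
      rw [pow_one] at this
      omega
    obtain ⟨x, hx⟩ : ∃ x, 3 * d ^ 3 = x + d := ⟨3 * d ^ 3 - d, by omega⟩
    have hxd : 3 * d ^ 3 - d = x := by omega
    obtain ⟨T, hT⟩ : ∃ T, T = ((d ^ 3 - 1) * R - d ^ 3 * x) / d ^ 4 := ⟨_, rfl⟩
    have h4 : d ^ 3 * (genBorderSubrank d n + 3 * d ^ 3) =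
        d ^ 3 * genBorderSubrank d n + d ^ 3 * x + d ^ 4 := by
      rw [hx]
      ring
    rw [h4] at hc'
    have h5 : d ^ 4 * T ≤ (d ^ 3 - 1) * R - d ^ 3 * x := by
      rw [hT]
      exact Nat.mul_div_le _ _
    have h6 : (d ^ 3 - 1) * R - d ^ 3 * x < d ^ 4 * T + d ^ 4 := by
      rw [hT]
      have := Nat.lt_mul_div_succ ((d ^ 3 - 1) * R - d ^ 3 * x) hd4
      rw [mul_add, mul_one] at this
      exact this
    have h7 : d ^ 3 * (d * T) = d ^ 4 * T := by ring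
    have h8 : d ^ 3 * genBorderSubrank d n < d ^ 3 * (d * T) := by
      rw [h7]
      omega
    have h9 : genBorderSubrank d n < d * T := Nat.lt_of_mul_lt_mul_left h8
    have h10 : 1 ≤ T := by
      rcases Nat.eq_zero_or_pos T with h | h
      · rw [h, mul_zero] at h9
        omega
      · exact h
    have h11 := le_genBorderSubrank (by omega) (low_all (R := R) (n := n) hd h10 (by
      rw [hxd, h7]
      omega) ((hR R).mp le_rfl))
    omega
  rcases le_or_gt 40 d with h40 | h40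
  · obtain ⟨R', hR', h⟩ := near_exact (d := d) (n := n) h40 hn
    have hRR : R' = R := le_antisymm ((hR R').mpr ((hR' R').mp le_rfl))
      ((hR' R).mpr ((hR R).mp le_rfl))
    subst hRR
    refine ⟨R', hR, ((generic_borderSubrank (d := d) (n := n) (by omega)).and h).mono ?_⟩
    rintro T ⟨hT, h1, h2, h4⟩
    refine ⟨h1, ?_, fun _ => h2, fun _ => h4⟩
    rw [hT]
    exact h3
  · refine ⟨R, hR, (generic_borderSubrank (d := d) (n := n) (by omega)).mono fun T hT => ?_⟩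
    rw [hT]
    exact ⟨hQR, h3, fun h => absurd h (by omega), fun h => absurd h (by omega)⟩

end Pool.Agent.BSubE
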